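import Mathlib

/-!
Definitions: signed measures on `ℝ^d`, Fourier transform, Besov norm, Riesz potential, Lorentz
quasi-norm.
-/

set_option autoImplicit false

open MeasureTheory Set
open scoped ENNReal

namespace Pool.Agent.V11282.LZ

noncomputable section

/-- Euclidean norm on `ℝ^d` -/
def en {d : ℕ} (x : Fin d → ℝ) : ℝ := Real.sqrt (∑ i, x i ^ 2)

/-- dot product on `ℝ^d` -/
def dp {d : ℕ} (x y : Fin d → ℝ) : ℝ := ∑ i, x i * y i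

/-- the heat kernel `p_t(x) = (4πt)^{-d/2} e^{-|x|²/(4t)}` -/
def hk {d : ℕ} (t : ℝ) (x : Fin d → ℝ) : ℝ :=
  (4 * Real.pi * t) ^ (-(d : ℝ) / 2) * Real.exp (-(en x) ^ 2 / (4 * t))

/-- integral of a complex function against a finite signed measure -/
def sI {d : ℕ} (s : SignedMeasure (Fin d → ℝ)) (F : (Fin d → ℝ) → ℂ) : ℂ :=
  ∫ x, F x ∂s.toJordanDecomposition.posPart - ∫ x, F x ∂s.toJordanDecomposition.negPart

/-- Fourier transform of a finite signed measure -/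
def ft {d : ℕ} (s : SignedMeasure (Fin d → ℝ)) (ξ : Fin d → ℝ) : ℂ :=
  sI s (fun x => Complex.exp ((-(2 * Real.pi * dp x ξ) : ℝ) * Complex.I))

/-- total variation norm -/
def tv {d : ℕ} (s : SignedMeasure (Fin d → ℝ)) : ℝ≥0∞ := s.totalVariation univ

/-- the homogeneous Besov norm: `sup_{t>0} t^{(d-β)/2} ‖p_t * s‖_∞` -/
def besov {d : ℕ} (β : ℝ) (s : SignedMeasure (Fin d → ℝ)) : ℝ≥0∞ :=
  ⨆ (t : ℝ) (_ : 0 < t) (x : Fin d → ℝ),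
    ENNReal.ofReal (t ^ (((d : ℝ) - β) / 2) * ‖sI s (fun y => (hk t (x - y) : ℂ))‖)

/-- the Fourier transform `(2π|ξ|)^{-α} ŝ(ξ)` of the Riesz potential -/
def riesz {d : ℕ} (α : ℝ) (s : SignedMeasure (Fin d → ℝ)) (ξ : Fin d → ℝ) : ℂ :=
  (((2 * Real.pi * en ξ) ^ (-α) : ℝ) : ℂ) * ft s ξ

/-- decreasing rearrangement -/
def rearr {d : ℕ} (g : (Fin d → ℝ) → ℂ) (r : ℝ) : ℝ≥0∞ :=
  sInf {t : ℝ≥0∞ | volume {x | t < ‖g x‖ₑ} ≤ ENNReal.ofReal r}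

/-- the Lorentz quasi-norm `‖g‖_{L^{p,q}}`, `q < ∞` -/
def lor {d : ℕ} (p q : ℝ) (g : (Fin d → ℝ) → ℂ) : ℝ≥0∞ :=
  (∫⁻ r in Ioi (0:ℝ), (ENNReal.ofReal (r ^ (1 / p)) * rearr g r) ^ q / ENNReal.ofReal r) ^ (1 / q)

end

end Pool.Agent.V11282.LZ
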