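import Mathlib
import Pool.Agent.V11282.LZ.Defs

/-!
Lower bounds for the Lorentz quasi-norm.
-/

set_option autoImplicit false

open MeasureTheory Set Finset Filter
open scoped ENNReal

namespace Pool.Agent.V11282.LZ

noncomputable section

lemma rearr_ge {d : ℕ} (g : (Fin d → ℝ) → ℂ) (r v l : ℝ) (hrv : r < v) (hv : 0 < v)
    (h : ENNReal.ofReal v ≤ volume {x | ENNReal.ofReal l ≤ ‖g x‖ₑ}) :
    ENNReal.ofReal l ≤ rearr g r := by
  unfold rearr
  apply le_sInf
  intro t ht
  by_contra hcon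
  push Not at hcon
  have h1 : volume {x | ENNReal.ofReal l ≤ ‖g x‖ₑ} ≤ volume {x | t < ‖g x‖ₑ} := by
    apply measure_mono
    intro x hx
    exact lt_of_lt_of_le hcon hx
  have h2 : ENNReal.ofReal v ≤ ENNReal.ofReal r := h.trans (h1.trans ht)
  have h3 : ENNReal.ofReal r < ENNReal.ofReal v := (ENNReal.ofReal_lt_ofReal_iff hv).mpr hrv
  exact absurd (lt_of_le_of_lt h2 h3) (lt_irrefl _)

lemma chain (v : ℕ → ℝ) (N : ℕ) (hv : ∀ i < N, 0 < v i)
    (h2 : ∀ i, i + 1 < N → 2 * v i ≤ v (i + 1)) (i k : ℕ) (h : i + k + 1 < N) :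
    2 * v i ≤ v (i + k + 1) := by
  induction k with
  | zero => exact h2 i h
  | succ k ih =>
    have h3 := ih (by omega)
    have h4 := h2 (i + k + 1) (by omega)
    have h5 := hv (i + k + 1) (by omega)
    have e : i + (k + 1) + 1 = i + k + 1 + 1 := by omega
    rw [e]
    linarith

lemma lor_lower {d : ℕ} (g : (Fin d → ℝ) → ℂ) (p q : ℝ) (hq : 1 ≤ q) (hp : 0 < p)
    (N : ℕ) (v l : ℕ → ℝ) (ε : ℝ) (hε : 0 < ε) (hv : ∀ i < N, 0 < v i)
    (hl : ∀ i < N, 0 ≤ l i)
    (h2 : ∀ i, i + 1 < N → 2 * v i ≤ v (i + 1))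
    (hset : ∀ i < N, ENNReal.ofReal (v i) ≤ volume {x | ENNReal.ofReal (l i) ≤ ‖g x‖ₑ})
    (hεl : ∀ i < N, ε ≤ (v i / 2) ^ (1 / p) * l i) :
    ENNReal.ofReal (N * (ε ^ q / 2)) ^ (1 / q) ≤ lor p q g := by
  unfold lor
  apply ENNReal.rpow_le_rpow _ (by positivity)
  have hdisj : (Finset.range N : Set ℕ).PairwiseDisjoint (fun i => Ioo (v i / 2) (v i)) := by
    intro i hi j hj hij
    simp only [Finset.coe_range, Set.mem_Iio] at hi hj
    have key : ∀ i j : ℕ, i < j → j < N → Disjoint (Ioo (v i / 2) (v i)) (Ioo (v j / 2) (v j)) := by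
      intro i j hij hj
      obtain ⟨k, rfl⟩ := Nat.exists_eq_add_of_lt hij
      have h3 := chain v N hv h2 i k hj
      rw [Set.disjoint_left]
      intro x hx hx2
      have := hx.2
      have := hx2.1
      linarith
    rcases lt_or_gt_of_ne hij with h | h
    · exact key i j h hj
    · exact (key j i h hi).symm
  calc ENNReal.ofReal (N * (ε ^ q / 2))
      = ∑ i ∈ Finset.range N, ENNReal.ofReal (ε ^ q / 2) := by
        rw [Finset.sum_const, Finset.card_range, nsmul_eq_mul, ENNReal.ofReal_mul (by positivity),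
          ENNReal.ofReal_natCast]
    _ ≤ ∑ i ∈ Finset.range N, ∫⁻ r in Ioo (v i / 2) (v i),
        (ENNReal.ofReal (r ^ (1 / p)) * rearr g r) ^ q / ENNReal.ofReal r := by
        apply Finset.sum_le_sum
        intro i hi
        have hiN := Finset.mem_range.mp hi
        have hvi := hv i hiN
        have hli := hl i hiN
        calc ENNReal.ofReal (ε ^ q / 2)
            = ENNReal.ofReal (ε ^ q / v i) * volume (Ioo (v i / 2) (v i)) := by
              rw [Real.volume_Ioo, ← ENNReal.ofReal_mul (by positivity)]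
              congr 1
              field_simp
              ring
          _ = ∫⁻ _r in Ioo (v i / 2) (v i), ENNReal.ofReal (ε ^ q / v i) := by
              rw [setLIntegral_const]
          _ ≤ _ := by
              apply setLIntegral_mono' measurableSet_Ioo
              intro r hr
              have hr0 : 0 < r := by linarith [hr.1]
              have h3 := rearr_ge g r (v i) (l i) hr.2 hvi (hset i hiN)
              have h4 : (v i / 2) ^ (1 / p) ≤ r ^ (1 / p) :=
                Real.rpow_le_rpow (by positivity) hr.1.le (by positivity)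
              have h5 : ENNReal.ofReal ε ≤ ENNReal.ofReal (r ^ (1 / p)) * rearr g r := by
                calc ENNReal.ofReal ε ≤ ENNReal.ofReal (r ^ (1 / p) * l i) := by
                      apply ENNReal.ofReal_le_ofReal
                      refine (hεl i hiN).trans ?_
                      gcongr
                  _ = ENNReal.ofReal (r ^ (1 / p)) * ENNReal.ofReal (l i) :=
                      ENNReal.ofReal_mul (by positivity)
                  _ ≤ _ := by gcongr
              rw [ENNReal.ofReal_div_of_pos hvi]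
              apply ENNReal.div_le_div
              · rw [← ENNReal.ofReal_rpow_of_nonneg hε.le (by linarith)]
                exact ENNReal.rpow_le_rpow h5 (by linarith)
              · exact ENNReal.ofReal_le_ofReal hr.2.le
    _ = ∫⁻ r in ⋃ i ∈ Finset.range N, Ioo (v i / 2) (v i),
        (ENNReal.ofReal (r ^ (1 / p)) * rearr g r) ^ q / ENNReal.ofReal r :=
        (lintegral_biUnion_finset hdisj (fun i _ => measurableSet_Ioo) _).symm
    _ ≤ _ := by
        apply lintegral_mono_set
        intro r hr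
        simp only [Set.mem_iUnion] at hr
        obtain ⟨i, hi, hr⟩ := hr
        have := hv i (Finset.mem_range.mp hi)
        have := hr.1
        simp only [Set.mem_Ioi]
        linarith

/-- the constant of the lower bound -/
def cst (d : ℕ) (α β ε : ℝ) : ℝ :=
  (1 / 2) ^ ((2 * α + β) / (2 * d)) * (1 / 24) ^ ((2 * α + β) / 2)
    * (2 * Real.pi * Real.sqrt d) ^ (-α) * ε

lemma cst_pos (d : ℕ) (hd : 1 ≤ d) (α β ε : ℝ) (hε : 0 < ε) : 0 < cst d α β ε := by
  unfold cst
  have h1 : 0 < 2 * Real.pi * Real.sqrt d := by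
    have := Real.pi_pos
    have h2 : (0:ℝ) < d := by exact_mod_cast hd
    positivity
  have h2 := Real.rpow_pos_of_pos h1 (-α)
  have h3 : (0:ℝ) < (1 / 2) ^ ((2 * α + β) / (2 * d)) := Real.rpow_pos_of_pos (by norm_num) _
  have h4 : (0:ℝ) < (1 / 24) ^ ((2 * α + β) / 2) := Real.rpow_pos_of_pos (by norm_num) _
  positivity

/-- lower bound for the Lorentz quasi-norm of the Riesz potential -/
lemma riesz_lower {d : ℕ} (hd : 1 ≤ d) (α β q : ℝ) (hα : 0 < α) (hβ : 0 < β) (hq : 1 ≤ q)
    (s : SignedMeasure (Fin d → ℝ)) (N : ℕ) (R : ℕ → ℝ) (ε : ℝ) (hε : 0 < ε)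
    (hR : ∀ i < N, 0 < R i) (h2 : ∀ i, i + 1 < N → 2 * R i ≤ R (i + 1))
    (hset : ∀ i < N, ENNReal.ofReal ((R i / 24) ^ d) ≤
      volume {ξ : Fin d → ℝ | (∀ j, 0 ≤ ξ j ∧ ξ j ≤ R i) ∧
        ε * (R i) ^ (-β / 2) ≤ ‖ft s ξ‖}) :
    ENNReal.ofReal (N * ((cst d α β ε) ^ q / 2)) ^ (1 / q)
      ≤ lor (2 * d / (2 * α + β)) q (riesz α s) := by
  have hdr : (0:ℝ) < d := by exact_mod_cast hd
  have hpi := Real.pi_pos
  have hp : 0 < 2 * d / (2 * α + β) := by positivity
  have hp1 : 1 / (2 * d / (2 * α + β)) = (2 * α + β) / (2 * d) := by field_simp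
  haveI : Nonempty (Fin d) := ⟨⟨0, hd⟩⟩
  apply lor_lower (riesz α s) _ q hq hp N (fun i => (R i / 24) ^ d)
    (fun i => (2 * Real.pi * (Real.sqrt d * R i)) ^ (-α) * (ε * (R i) ^ (-β / 2)))
    (cst d α β ε) (cst_pos d hd α β ε hε)
  · intro i hi
    have := hR i hi
    positivity
  · intro i hi
    have := hR i hi
    positivity
  · intro i hi
    have h3 := hR i (by omega)
    have h4 := h2 i hi
    calc 2 * (R i / 24) ^ d ≤ 2 ^ d * (R i / 24) ^ d := by
          gcongr
          calc (2:ℝ) = 2 ^ 1 := by norm_num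
            _ ≤ 2 ^ d := pow_le_pow_right₀ (by norm_num) hd
      _ = (2 * R i / 24) ^ d := by rw [← mul_pow]; ring
      _ ≤ (R (i + 1) / 24) ^ d := by gcongr
  · intro i hi
    have hRi := hR i hi
    refine (hset i hi).trans ?_
    have h0 : volume ({ξ : Fin d → ℝ | (∀ j, 0 ≤ ξ j ∧ ξ j ≤ R i) ∧
        ε * (R i) ^ (-β / 2) ≤ ‖ft s ξ‖} \ {0}) = volume {ξ : Fin d → ℝ |
        (∀ j, 0 ≤ ξ j ∧ ξ j ≤ R i) ∧ ε * (R i) ^ (-β / 2) ≤ ‖ft s ξ‖} := by
      apply measure_sdiff_null
      exact measure_singleton _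
    rw [← h0]
    apply measure_mono
    rintro ξ ⟨⟨h3, h4⟩, h5⟩
    simp only [Set.mem_singleton_iff] at h5
    simp only [Set.mem_setOf_eq]
    have hen0 : 0 < en ξ := by
      unfold en
      apply Real.sqrt_pos.mpr
      obtain ⟨j, hj⟩ := Function.ne_iff.mp h5
      simp only [Pi.zero_apply] at hj
      have h6 : 0 < ξ j ^ 2 := by positivity
      exact lt_of_lt_of_le h6
        (Finset.single_le_sum (f := fun j => ξ j ^ 2) (fun _ _ => sq_nonneg _) (Finset.mem_univ j))
    have hen1 : en ξ ≤ Real.sqrt d * R i := by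
      unfold en
      rw [Real.sqrt_le_left (by positivity), mul_pow, Real.sq_sqrt hdr.le]
      calc ∑ j, ξ j ^ 2 ≤ ∑ _j : Fin d, R i ^ 2 := by
            apply Finset.sum_le_sum
            intro j _
            have := h3 j
            nlinarith [this.1, this.2]
        _ = d * R i ^ 2 := by simp
    have h6 : (2 * Real.pi * (Real.sqrt d * R i)) ^ (-α) ≤ (2 * Real.pi * en ξ) ^ (-α) := by
      apply Real.rpow_le_rpow_of_nonpos (by positivity) _ (by linarith)
      gcongr
    have h7 : ‖riesz α s ξ‖ = (2 * Real.pi * en ξ) ^ (-α) * ‖ft s ξ‖ := by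
      unfold riesz
      rw [norm_mul, Complex.norm_real, Real.norm_eq_abs, abs_of_nonneg (by positivity)]
    rw [← ofReal_norm_eq_enorm, h7]
    apply ENNReal.ofReal_le_ofReal
    have h8 : 0 ≤ ε * (R i) ^ (-β / 2) := by positivity
    have h9 : 0 ≤ (2 * Real.pi * en ξ) ^ (-α) := by positivity
    gcongr
  · intro i hi
    have hRi := hR i hi
    rw [hp1]
    apply le_of_eq
    unfold cst
    have e1 : ((R i / 24) ^ d / 2) ^ ((2 * α + β) / (2 * d))
        = (1 / 2) ^ ((2 * α + β) / (2 * d)) * ((1 / 24) ^ ((2 * α + β) / 2)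
          * (R i) ^ ((2 * α + β) / 2)) := by
      have h3 : (R i / 24) ^ d / 2 = (1 / 2) * (R i / 24) ^ d := by ring
      rw [h3, Real.mul_rpow (by norm_num) (by positivity), ← Real.rpow_natCast (R i / 24) d,
        ← Real.rpow_mul (by positivity)]
      have h4 : (d : ℝ) * ((2 * α + β) / (2 * d)) = (2 * α + β) / 2 := by field_simp
      rw [h4]
      have h5 : R i / 24 = (1 / 24) * R i := by ring
      rw [h5, Real.mul_rpow (by norm_num) hRi.le]
    have e2 : (2 * Real.pi * (Real.sqrt d * R i)) ^ (-α)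
        = (2 * Real.pi * Real.sqrt d) ^ (-α) * (R i) ^ (-α) := by
      rw [← mul_assoc, Real.mul_rpow (by positivity) hRi.le]
    rw [e1, e2]
    have e3 : (R i) ^ ((2 * α + β) / 2) * ((R i) ^ (-α) * (R i) ^ (-β / 2)) = 1 := by
      rw [← Real.rpow_add hRi, ← Real.rpow_add hRi]
      have : (2 * α + β) / 2 + (-α + -β / 2) = 0 := by ring
      rw [this, Real.rpow_zero]
    calc (1 / 2) ^ ((2 * α + β) / (2 * d)) * (1 / 24) ^ ((2 * α + β) / 2)
        * (2 * Real.pi * Real.sqrt d) ^ (-α) * ε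
        = (1 / 2) ^ ((2 * α + β) / (2 * d)) * (1 / 24) ^ ((2 * α + β) / 2)
        * (2 * Real.pi * Real.sqrt d) ^ (-α) * ε
          * ((R i) ^ ((2 * α + β) / 2) * ((R i) ^ (-α) * (R i) ^ (-β / 2))) := by
          rw [e3, mul_one]
      _ = _ := by ring

end

end Pool.Agent.V11282.LZ
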