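import Mathlib

/-!
Random signs: second and fourth moments, Paley–Zygmund, selection of signs.
-/

set_option autoImplicit false

open MeasureTheory Finset
open scoped ENNReal

namespace Pool.Agent.V11282.LZ

noncomputable section

/-- sign -/
def sg (b : Bool) : ℂ := if b then 1 else -1

/-- signed sum -/
def SS {n : ℕ} (A : ℂ) (B : Fin n → ℂ) (s : Fin n → Bool) : ℂ := A + ∑ j, sg (s j) * B j

lemma sum_bool_pi {n : ℕ} (F : (Fin (n + 1) → Bool) → ℝ) :
    ∑ s, F s = ∑ s : Fin n → Bool, ∑ b : Bool, F (Fin.cons b s) := by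
  rw [← Fintype.sum_equiv (Fin.consEquiv (fun _ => Bool))
    (fun p : Bool × (Fin n → Bool) => F (Fin.cons p.1 p.2)) F (by
      rintro ⟨b, s⟩
      congr 1)]
  rw [Fintype.sum_prod_type_right]

lemma SS_cons {n : ℕ} (A : ℂ) (B : Fin (n + 1) → ℂ) (b : Bool) (s : Fin n → Bool) :
    SS A B (Fin.cons b s) = SS A (fun j => B j.succ) s + sg b * B 0 := by
  unfold SS
  rw [Fin.sum_univ_succ]
  simp only [Fin.cons_zero, Fin.cons_succ]
  ring

lemma sq_norm_pm (x B : ℂ) :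
    ‖x + sg true * B‖ ^ 2 + ‖x + sg false * B‖ ^ 2 = 2 * (‖x‖ ^ 2 + ‖B‖ ^ 2) := by
  have h1 : x + sg true * B = x + B := by simp [sg]
  have h2 : x + sg false * B = x - B := by simp [sg]; ring
  rw [h1, h2]
  have := parallelogram_law_with_norm ℝ x B
  nlinarith

lemma four_norm_pm (x B : ℂ) :
    ‖x + sg true * B‖ ^ 4 + ‖x + sg false * B‖ ^ 4
      ≤ 2 * (‖x‖ ^ 4 + 6 * ‖x‖ ^ 2 * ‖B‖ ^ 2 + ‖B‖ ^ 4) := by
  have h1 : x + sg true * B = x + B := by simp [sg]
  have h2 : x + sg false * B = x - B := by simp [sg]; ring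
  rw [h1, h2]
  have e : ∀ z : ℂ, ‖z‖ ^ 4 = (z.re ^ 2 + z.im ^ 2) ^ 2 := by
    intro z
    have : ‖z‖ ^ 2 = z.re ^ 2 + z.im ^ 2 := by
      rw [Complex.sq_norm, Complex.normSq_apply]; ring
    calc ‖z‖ ^ 4 = (‖z‖ ^ 2) ^ 2 := by ring
      _ = _ := by rw [this]
  have e2 : ∀ z : ℂ, ‖z‖ ^ 2 = z.re ^ 2 + z.im ^ 2 := by
    intro z
    rw [Complex.sq_norm, Complex.normSq_apply]; ring
  rw [e, e, e, e, e2, e2]
  simp only [Complex.add_re, Complex.add_im, Complex.sub_re, Complex.sub_im]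
  nlinarith [sq_nonneg (x.re * B.im - x.im * B.re)]

lemma m2 {n : ℕ} (A : ℂ) (B : Fin n → ℂ) :
    ∑ s : Fin n → Bool, ‖SS A B s‖ ^ 2 = 2 ^ n * (‖A‖ ^ 2 + ∑ j, ‖B j‖ ^ 2) := by
  induction n with
  | zero => simp [SS]
  | succ n ih =>
    rw [sum_bool_pi]
    simp only [SS_cons, Fintype.sum_bool, sq_norm_pm]
    rw [← Finset.mul_sum, Finset.sum_add_distrib, ih, Fin.sum_univ_succ]
    simp
    ring

lemma m4 {n : ℕ} (A : ℂ) (B : Fin n → ℂ) :
    ∑ s : Fin n → Bool, ‖SS A B s‖ ^ 4 ≤ 2 ^ n * (3 * (‖A‖ ^ 2 + ∑ j, ‖B j‖ ^ 2) ^ 2) := by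
  induction n with
  | zero =>
    simp [SS]
    nlinarith [sq_nonneg (‖A‖ ^ 2)]
  | succ n ih =>
    rw [sum_bool_pi]
    simp only [SS_cons, Fintype.sum_bool]
    set T := ‖A‖ ^ 2 + ∑ j : Fin n, ‖B j.succ‖ ^ 2 with hT
    have hT0 : 0 ≤ T := by positivity
    have h1 := ih (fun j => B j.succ)
    have h2 := m2 A (fun j => B j.succ)
    calc ∑ s : Fin n → Bool, (‖SS A (fun j => B j.succ) s + sg true * B 0‖ ^ 4
          + ‖SS A (fun j => B j.succ) s + sg false * B 0‖ ^ 4)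
        ≤ ∑ s : Fin n → Bool, 2 * (‖SS A (fun j => B j.succ) s‖ ^ 4
          + 6 * ‖SS A (fun j => B j.succ) s‖ ^ 2 * ‖B 0‖ ^ 2 + ‖B 0‖ ^ 4) :=
          Finset.sum_le_sum fun s _ => four_norm_pm _ _
      _ = 2 * (∑ s : Fin n → Bool, ‖SS A (fun j => B j.succ) s‖ ^ 4
          + 6 * (∑ s : Fin n → Bool, ‖SS A (fun j => B j.succ) s‖ ^ 2) * ‖B 0‖ ^ 2
          + 2 ^ n * ‖B 0‖ ^ 4) := by
          rw [← Finset.mul_sum, Finset.sum_add_distrib, Finset.sum_add_distrib,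
            Finset.mul_sum (a := (6:ℝ)), Finset.sum_mul]
          simp
      _ ≤ 2 * (2 ^ n * (3 * T ^ 2) + 6 * (2 ^ n * T) * ‖B 0‖ ^ 2 + 2 ^ n * ‖B 0‖ ^ 4) := by
          rw [h2]
          gcongr
      _ ≤ 2 ^ (n + 1) * (3 * (‖A‖ ^ 2 + ∑ j, ‖B j‖ ^ 2) ^ 2) := by
          rw [Fin.sum_univ_succ]
          have e : ‖A‖ ^ 2 + (‖B 0‖ ^ 2 + ∑ i : Fin n, ‖B i.succ‖ ^ 2) = T + ‖B 0‖ ^ 2 := by
            rw [hT]; ring
          rw [e]
          have h3 : (0:ℝ) ≤ 2 ^ n * ‖B 0‖ ^ 4 := by positivity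
          have h4 : (2:ℝ) ^ (n + 1) * (3 * (T + ‖B 0‖ ^ 2) ^ 2)
              = 2 * (2 ^ n * (3 * T ^ 2) + 6 * (2 ^ n * T) * ‖B 0‖ ^ 2 + 2 ^ n * ‖B 0‖ ^ 4)
                + 4 * (2 ^ n * ‖B 0‖ ^ 4) := by ring
          linarith

/-- Paley–Zygmund for random signs -/
lemma pz {n : ℕ} (A : ℂ) (B : Fin n → ℂ) :
    (2:ℝ) ^ n / 12 ≤ ((Finset.univ.filter (fun s : Fin n → Bool =>
      (‖A‖ ^ 2 + ∑ j, ‖B j‖ ^ 2) / 2 ≤ ‖SS A B s‖ ^ 2)).card : ℝ) := by
  set T := ‖A‖ ^ 2 + ∑ j, ‖B j‖ ^ 2 with hT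
  have hT0 : 0 ≤ T := by positivity
  set good := Finset.univ.filter (fun s : Fin n → Bool => T / 2 ≤ ‖SS A B s‖ ^ 2) with hgood
  rcases hT0.eq_or_lt with h0 | h0
  · have : good = Finset.univ := by
      rw [hgood, ← h0]
      ext s
      simp
    rw [this, Finset.card_univ]
    simp
    have : (0:ℝ) < 2 ^ n := by positivity
    linarith
  · have h2 := m2 A B
    have h4 := m4 A B
    rw [← hT] at h2 h4
    have hsplit := Finset.sum_filter_add_sum_filter_not Finset.univ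
      (fun s : Fin n → Bool => T / 2 ≤ ‖SS A B s‖ ^ 2) (fun s => ‖SS A B s‖ ^ 2)
    have hbad : ∑ s ∈ Finset.univ.filter (fun s : Fin n → Bool => ¬ T / 2 ≤ ‖SS A B s‖ ^ 2),
        ‖SS A B s‖ ^ 2 ≤ 2 ^ n * (T / 2) := by
      calc ∑ s ∈ Finset.univ.filter (fun s : Fin n → Bool => ¬ T / 2 ≤ ‖SS A B s‖ ^ 2),
            ‖SS A B s‖ ^ 2
          ≤ ∑ s ∈ Finset.univ.filter (fun s : Fin n → Bool => ¬ T / 2 ≤ ‖SS A B s‖ ^ 2),
            T / 2 := by
            apply Finset.sum_le_sum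
            intro s hs
            have := (Finset.mem_filter.mp hs).2
            push Not at this
            exact this.le
        _ ≤ ∑ s : Fin n → Bool, T / 2 :=
            Finset.sum_le_sum_of_subset_of_nonneg (Finset.filter_subset _ _)
              (fun _ _ _ => by positivity)
        _ = 2 ^ n * (T / 2) := by simp
    have hG : 2 ^ n * T / 2 ≤ ∑ s ∈ good, ‖SS A B s‖ ^ 2 := by
      have : 2 ^ n * (T / 2) = 2 ^ n * T / 2 := by ring
      linarith
    have hcs : (∑ s ∈ good, ‖SS A B s‖ ^ 2) ^ 2 ≤ good.card * ∑ s ∈ good, (‖SS A B s‖ ^ 2) ^ 2 :=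
      sq_sum_le_card_mul_sum_sq
    have h4' : ∑ s ∈ good, (‖SS A B s‖ ^ 2) ^ 2 ≤ 2 ^ n * (3 * T ^ 2) := by
      refine le_trans ?_ h4
      have : ∀ s : Fin n → Bool, (‖SS A B s‖ ^ 2) ^ 2 = ‖SS A B s‖ ^ 4 := by
        intro s; ring
      simp only [this]
      exact Finset.sum_le_sum_of_subset_of_nonneg (Finset.filter_subset _ _)
        (fun _ _ _ => by positivity)
    have hp : (0:ℝ) < 2 ^ n := by positivity
    have h5 : (2 ^ n * T / 2) ^ 2 ≤ good.card * (2 ^ n * (3 * T ^ 2)) := by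
      calc (2 ^ n * T / 2) ^ 2 ≤ (∑ s ∈ good, ‖SS A B s‖ ^ 2) ^ 2 := by gcongr
        _ ≤ _ := hcs
        _ ≤ _ := by gcongr
    have h6 : (2 ^ n / 12) * (12 * (2 ^ n * T ^ 2) / 4) ≤ good.card * (12 * (2 ^ n * T ^ 2) / 4) := by
      nlinarith
    exact le_of_mul_le_mul_right h6 (by positivity)

/-- selection of signs -/
lemma select {n : ℕ} (A : ℝ → ℂ) (B : Fin n → ℝ → ℂ) (hA : Continuous A)
    (hB : ∀ j, Continuous (B j)) (u v τ : ℝ) (huv : u ≤ v)
    (h : ∀ ξ, u ≤ ξ → ξ ≤ v → τ ≤ ∑ j, ‖B j ξ‖ ^ 2) :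
    ∃ s : Fin n → Bool, ENNReal.ofReal ((v - u) / 12) ≤
      volume {ξ : ℝ | u ≤ ξ ∧ ξ ≤ v ∧ τ / 2 ≤ ‖SS (A ξ) (fun j => B j ξ) s‖ ^ 2} := by
  set G : (Fin n → Bool) → Set ℝ := fun s =>
    {ξ : ℝ | u ≤ ξ ∧ ξ ≤ v ∧ τ / 2 ≤ ‖SS (A ξ) (fun j => B j ξ) s‖ ^ 2} with hG
  have hGm : ∀ s, MeasurableSet (G s) := by
    intro s
    have hc : Continuous fun ξ => ‖SS (A ξ) (fun j => B j ξ) s‖ ^ 2 := by
      unfold SS
      fun_prop
    exact (measurableSet_le measurable_const measurable_id).inter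
      ((measurableSet_le measurable_id measurable_const).inter
      (measurableSet_le measurable_const hc.measurable))
  by_contra hcon
  push Not at hcon
  have h1 : ∑ s, volume (G s) < ∑ _s : Fin n → Bool, ENNReal.ofReal ((v - u) / 12) := by
    apply ENNReal.sum_lt_sum_of_nonempty
    · exact Finset.univ_nonempty
    · intro s _
      exact hcon s
  have h2 : ∑ _s : Fin n → Bool, ENNReal.ofReal ((v - u) / 12)
      = ENNReal.ofReal ((2:ℝ) ^ n / 12) * ENNReal.ofReal (v - u) := by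
    rw [Finset.sum_const, Finset.card_univ, nsmul_eq_mul]
    have : (Fintype.card (Fin n → Bool) : ENNReal) = ENNReal.ofReal ((2:ℝ) ^ n) := by
      simp [ENNReal.ofReal_pow]
    rw [this, ← ENNReal.ofReal_mul (by positivity), ← ENNReal.ofReal_mul (by positivity)]
    congr 1
    ring
  have h3 : ENNReal.ofReal ((2:ℝ) ^ n / 12) * ENNReal.ofReal (v - u) ≤ ∑ s, volume (G s) := by
    calc ENNReal.ofReal ((2:ℝ) ^ n / 12) * ENNReal.ofReal (v - u)
        = ∫⁻ _ξ in Set.Icc u v, ENNReal.ofReal ((2:ℝ) ^ n / 12) := by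
          rw [setLIntegral_const, Real.volume_Icc]
      _ ≤ ∫⁻ ξ in Set.Icc u v, ∑ s, (G s).indicator 1 ξ := by
          apply setLIntegral_mono
          · apply Finset.measurable_sum
            intro s _
            exact measurable_one.indicator (hGm s)
          · intro ξ hξ
            have h4 := pz (A ξ) (fun j => B j ξ)
            have h5 : (∑ s, (G s).indicator (1 : ℝ → ENNReal) ξ)
                = ((Finset.univ.filter (fun s : Fin n → Bool => ξ ∈ G s)).card : ENNReal) := by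
              rw [Finset.card_filter]
              push_cast
              apply Finset.sum_congr rfl
              intro s _
              rw [Set.indicator_apply]
              rfl
            rw [h5]
            have h6 : (Finset.univ.filter (fun s : Fin n → Bool =>
                (‖A ξ‖ ^ 2 + ∑ j, ‖B j ξ‖ ^ 2) / 2 ≤ ‖SS (A ξ) (fun j => B j ξ) s‖ ^ 2)).card
                ≤ (Finset.univ.filter (fun s : Fin n → Bool => ξ ∈ G s)).card := by
              apply Finset.card_le_card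
              intro s hs
              have hs2 := (Finset.mem_filter.mp hs).2
              rw [Finset.mem_filter]
              refine ⟨Finset.mem_univ _, hξ.1, hξ.2, ?_⟩
              have := h ξ hξ.1 hξ.2
              have h0 : 0 ≤ ‖A ξ‖ ^ 2 := by positivity
              linarith
            have h7 : (2:ℝ) ^ n / 12 ≤
                ((Finset.univ.filter (fun s : Fin n → Bool => ξ ∈ G s)).card : ℝ) :=
              h4.trans (by exact_mod_cast h6)
            rw [← ENNReal.ofReal_natCast]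
            exact ENNReal.ofReal_le_ofReal h7
      _ ≤ ∫⁻ ξ, ∑ s, (G s).indicator 1 ξ := setLIntegral_le_lintegral _ _
      _ = ∑ s, volume (G s) := by
          rw [lintegral_finset_sum]
          · apply Finset.sum_congr rfl
            intro s _
            exact lintegral_indicator_one (hGm s)
          · intro s _
            exact measurable_one.indicator (hGm s)
  rw [h2] at h1
  exact absurd (lt_of_le_of_lt h3 h1) (lt_irrefl _)

end

end Pool.Agent.V11282.LZ
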