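import Mathlib
import Pool.Agent.V11282.LZ.PZ

/-!
One-dimensional multi-scale measures: exponentials, averages over intervals, one generation.
-/

set_option autoImplicit false

open MeasureTheory Finset Filter Topology
open scoped ENNReal

namespace Pool.Agent.V11282.LZ

noncomputable section

/-- `e^{-2πix}` -/
def ee (x : ℝ) : ℂ := Complex.exp ((-(2 * Real.pi * x) : ℝ) * Complex.I)

lemma norm_ee (x : ℝ) : ‖ee x‖ = 1 := Complex.norm_exp_ofReal_mul_I _

lemma ee_add (x y : ℝ) : ee (x + y) = ee x * ee y := by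
  unfold ee
  rw [← Complex.exp_add]
  congr 1
  push_cast
  ring

lemma ee_zero : ee 0 = 1 := by simp [ee]

lemma ee_cont : Continuous ee := by
  unfold ee
  fun_prop

lemma norm_ee_sub_one (x : ℝ) : ‖ee x - 1‖ = 2 * |Real.sin (Real.pi * x)| := by
  have h : ee x = Complex.exp (Complex.I * ((-(2 * Real.pi * x) : ℝ) : ℂ)) := by
    unfold ee
    rw [mul_comm]
  rw [h, Complex.norm_exp_I_mul_ofReal_sub_one, Real.norm_eq_abs, abs_mul, abs_two]
  have : -(2 * Real.pi * x) / 2 = -(Real.pi * x) := by ring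
  rw [this, Real.sin_neg, abs_neg]

lemma ee_lip (x y : ℝ) : ‖ee x - ee y‖ ≤ 2 * Real.pi * |x - y| := by
  have h : ee x - ee y = ee y * (ee (x - y) - 1) := by
    rw [mul_sub, ← ee_add, mul_one]
    congr 2
    ring
  rw [h, norm_mul, norm_ee, one_mul, norm_ee_sub_one]
  have h1 : |Real.sin (Real.pi * (x - y))| ≤ |Real.pi * (x - y)| := Real.abs_sin_le_abs
  rw [abs_mul, abs_of_pos Real.pi_pos] at h1
  linarith

lemma sin_lower (y : ℝ) (h0 : 0 ≤ y) (h1 : y ≤ 1 / 2) : 2 * y ≤ Real.sin (Real.pi * y) := by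
  have hp := Real.pi_pos
  have h := Real.mul_le_sin (x := Real.pi * y) (by positivity) (by nlinarith)
  have e : 2 / Real.pi * (Real.pi * y) = 2 * y := by field_simp
  linarith

/-- average over an interval -/
def av1 (G : ℝ → ℂ) (a δ : ℝ) : ℂ := (δ : ℂ)⁻¹ * ∫ x in a..(a + δ), G x

/-- average over a finite union of intervals -/
def avM {M : ℕ} (a : Fin M → ℝ) (δ : ℝ) (G : ℝ → ℂ) : ℂ := (M : ℂ)⁻¹ * ∑ j, av1 G (a j) δ

lemma av1_near (G : ℝ → ℂ) (hG : Continuous G) (L : ℝ) (hL : ∀ x y, ‖G x - G y‖ ≤ L * |x - y|)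
    (hL0 : 0 ≤ L) (c η p w : ℝ) (hw : 0 < w) (h1 : c ≤ p) (h2 : p + w ≤ c + η) :
    ‖av1 G p w - G c‖ ≤ L * η := by
  have hwc : (w : ℂ) ≠ 0 := by exact_mod_cast hw.ne'
  have e : av1 G p w - G c = (w : ℂ)⁻¹ * ∫ x in p..(p + w), (G x - G c) := by
    unfold av1
    rw [intervalIntegral.integral_sub (hG.intervalIntegrable _ _)
      (continuous_const.intervalIntegrable _ _), intervalIntegral.integral_const, mul_sub]
    congr 1
    rw [add_sub_cancel_left, Complex.real_smul]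
    field_simp
  rw [e, norm_mul, norm_inv, Complex.norm_real, Real.norm_eq_abs, abs_of_pos hw]
  have h3 : ‖∫ x in p..(p + w), (G x - G c)‖ ≤ L * η * |p + w - p| := by
    apply intervalIntegral.norm_integral_le_of_norm_le_const
    intro x hx
    rw [Set.uIoc_of_le (by linarith)] at hx
    refine (hL x c).trans ?_
    apply mul_le_mul_of_nonneg_left _ hL0
    rw [abs_of_nonneg (by linarith [hx.1])]
    linarith [hx.2]
  rw [add_sub_cancel_left, abs_of_pos hw] at h3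
  calc w⁻¹ * ‖∫ x in p..(p + w), (G x - G c)‖ ≤ w⁻¹ * (L * η * w) := by gcongr
    _ = L * η := by field_simp

/-- left end points of the cells -/
def cell {M : ℕ} (a : Fin M → ℝ) (n : ℕ) (δ : ℝ) (l : Fin (M * n)) : ℝ :=
  a l.divNat + (l.modNat : ℕ) * (δ / n)

lemma sum_cells {M n : ℕ} {β : Type*} [AddCommMonoid β] (F : Fin M → Fin n → β) :
    ∑ l : Fin (M * n), F l.divNat l.modNat = ∑ j, ∑ i, F j i := by
  rw [← Fintype.sum_prod_type']
  apply Fintype.sum_equiv finProdFinEquiv.symm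
  intro l
  rfl

lemma avM_cells {M : ℕ} (a : Fin M → ℝ) (δ : ℝ) (n : ℕ) (hn : 0 < n) (hδ : 0 < δ)
    (G : ℝ → ℂ) (hG : Continuous G) :
    avM a δ G = ((M * n : ℕ) : ℂ)⁻¹ * ∑ l : Fin (M * n), av1 G (cell a n δ l) (δ / n) := by
  have hnc : (n : ℂ) ≠ 0 := by exact_mod_cast hn.ne'
  have hnr : (n : ℝ) ≠ 0 := by exact_mod_cast hn.ne'
  have hδc : (δ : ℂ) ≠ 0 := by exact_mod_cast hδ.ne'
  have h1 : ∀ j, av1 G (a j) δ = (n : ℂ)⁻¹ * ∑ i : Fin n, av1 G (a j + (i : ℕ) * (δ / n)) (δ / n) := by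
    intro j
    have h2 := intervalIntegral.sum_integral_adjacent_intervals (f := G) (μ := volume)
      (a := fun k : ℕ => a j + k * (δ / n)) (n := n)
      (fun k _ => hG.intervalIntegrable _ _)
    have e1 : a j + ((n : ℕ) : ℝ) * (δ / n) = a j + δ := by field_simp
    have e2 : a j + ((0 : ℕ) : ℝ) * (δ / n) = a j := by simp
    rw [e1, e2] at h2
    unfold av1
    rw [← h2, ← Fin.sum_univ_eq_sum_range (fun k : ℕ =>
      ∫ x in (a j + (k : ℝ) * (δ / n))..(a j + ((k + 1 : ℕ) : ℝ) * (δ / n)), G x), Finset.mul_sum,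
      Finset.mul_sum]
    apply Finset.sum_congr rfl
    intro i _
    have e3 : a j + (((i : ℕ) + 1 : ℕ) : ℝ) * (δ / n) = a j + ((i : ℕ) : ℝ) * (δ / n) + δ / n := by
      push_cast; ring
    rw [e3, ← mul_assoc]
    congr 1
    push_cast
    field_simp
  unfold avM cell
  rw [sum_cells (fun j i => av1 G (a j + ((i : ℕ) : ℝ) * (δ / n)) (δ / n))]
  simp only [h1]
  rw [← Finset.mul_sum]
  push_cast
  rw [mul_inv, mul_assoc]

lemma avM_child {M : ℕ} (a : Fin M → ℝ) (δ : ℝ) (n : ℕ) (hn : 0 < n) (hM : 0 < M) (hδ : 0 < δ)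
    (a' : Fin (M * n) → ℝ) (δ' : ℝ) (hδ' : 0 < δ')
    (h1 : ∀ l, cell a n δ l ≤ a' l) (h2 : ∀ l, a' l + δ' ≤ cell a n δ l + δ / n)
    (G : ℝ → ℂ) (hG : Continuous G) (L : ℝ) (hL : ∀ x y, ‖G x - G y‖ ≤ L * |x - y|)
    (hL0 : 0 ≤ L) : ‖avM a' δ' G - avM a δ G‖ ≤ 2 * (L * (δ / n)) := by
  have hMn : (0:ℝ) < ((M * n : ℕ) : ℝ) := by exact_mod_cast Nat.mul_pos hM hn
  rw [avM_cells a δ n hn hδ G hG]
  unfold avM
  rw [← mul_sub, ← Finset.sum_sub_distrib, norm_mul, norm_inv, Complex.norm_natCast]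
  have h3 : ∀ l : Fin (M * n), ‖av1 G (a' l) δ' - av1 G (cell a n δ l) (δ / n)‖
      ≤ 2 * (L * (δ / n)) := by
    intro l
    have k1 := av1_near G hG L hL hL0 (cell a n δ l) (δ / n) (a' l) δ' hδ' (h1 l) (h2 l)
    have hη : 0 < δ / n := div_pos hδ (by exact_mod_cast hn)
    have k2 := av1_near G hG L hL hL0 (cell a n δ l) (δ / n) (cell a n δ l) (δ / n) hη le_rfl le_rfl
    have e : av1 G (a' l) δ' - av1 G (cell a n δ l) (δ / n)
        = (av1 G (a' l) δ' - G (cell a n δ l)) - (av1 G (cell a n δ l) (δ / n) - G (cell a n δ l)) := by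
      ring
    rw [e]
    refine (norm_sub_le _ _).trans ?_
    linarith
  calc (((M * n : ℕ) : ℝ))⁻¹ * ‖∑ l, (av1 G (a' l) δ' - av1 G (cell a n δ l) (δ / n))‖
      ≤ (((M * n : ℕ) : ℝ))⁻¹ * (((M * n : ℕ) : ℝ) * (2 * (L * (δ / n)))) := by
        apply mul_le_mul_of_nonneg_left _ (by positivity)
        refine (norm_sum_le _ _).trans ((Finset.sum_le_sum fun l _ => h3 l).trans ?_)
        rw [Finset.sum_const, Finset.card_univ, Fintype.card_fin, nsmul_eq_mul]
    _ = 2 * (L * (δ / n)) := by field_simp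

/-- Fourier transform of the uniform measure on a finite union of intervals -/
def FT {M : ℕ} (a : Fin M → ℝ) (δ : ℝ) (ξ : ℝ) : ℂ := avM a δ (fun x => ee (x * ξ))

lemma FT_child {M : ℕ} (a : Fin M → ℝ) (δ : ℝ) (n : ℕ) (hn : 0 < n) (hM : 0 < M) (hδ : 0 < δ)
    (a' : Fin (M * n) → ℝ) (δ' : ℝ) (hδ' : 0 < δ')
    (h1 : ∀ l, cell a n δ l ≤ a' l) (h2 : ∀ l, a' l + δ' ≤ cell a n δ l + δ / n) (ξ : ℝ) :
    ‖FT a' δ' ξ - FT a δ ξ‖ ≤ 4 * Real.pi * |ξ| * (δ / n) := by
  have hp := Real.pi_pos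
  have h := avM_child a δ n hn hM hδ a' δ' hδ' h1 h2 (fun x => ee (x * ξ))
    (ee_cont.comp (continuous_id.mul continuous_const)) (2 * Real.pi * |ξ|) (by
      intro x y
      refine (ee_lip _ _).trans (le_of_eq ?_)
      rw [← sub_mul, abs_mul]
      ring) (by positivity)
  unfold FT
  refine h.trans (le_of_eq ?_)
  ring

/-- the factor of one interval -/
def ph (δ ξ : ℝ) : ℂ := av1 (fun x => ee (x * ξ)) 0 δ

lemma av1_ee (a δ ξ : ℝ) : av1 (fun x => ee (x * ξ)) a δ = ee (a * ξ) * ph δ ξ := by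
  unfold ph av1
  have h : ∫ x in a..(a + δ), ee (x * ξ) = ∫ x in (0:ℝ)..(0 + δ), ee ((x + a) * ξ) := by
    rw [intervalIntegral.integral_comp_add_right (fun x => ee (x * ξ)) a]
    congr 1 <;> ring
  rw [h]
  have h2 : ∀ x : ℝ, ee ((x + a) * ξ) = ee (a * ξ) * ee (x * ξ) := by
    intro x
    rw [← ee_add]
    congr 1
    ring
  simp only [h2]
  rw [intervalIntegral.integral_const_mul]
  ring

lemma FT_eq {M : ℕ} (a : Fin M → ℝ) (δ ξ : ℝ) :
    FT a δ ξ = ph δ ξ * ((M : ℂ)⁻¹ * ∑ j, ee (a j * ξ)) := by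
  unfold FT avM
  simp only [av1_ee]
  rw [← Finset.sum_mul]
  ring

lemma ph_lower (δ ξ : ℝ) (hδ : 0 < δ) (hξ : 0 < ξ) (h : δ * ξ ≤ 1 / 2) :
    2 / Real.pi ≤ ‖ph δ ξ‖ := by
  have hp := Real.pi_pos
  unfold ph av1
  have hc : (-(2 * Real.pi * ξ) : ℂ) * Complex.I ≠ 0 := by
    apply mul_ne_zero _ Complex.I_ne_zero
    rw [neg_ne_zero]
    have : (2 * Real.pi * ξ : ℝ) ≠ 0 := by positivity
    exact_mod_cast this
  have h1 : ∀ x : ℝ, ee (x * ξ) = Complex.exp (((-(2 * Real.pi * ξ) : ℂ) * Complex.I) * x) := by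
    intro x
    unfold ee
    congr 1
    push_cast
    ring
  simp only [h1, zero_add]
  rw [integral_exp_mul_complex hc, ← h1]
  have e0 : Complex.exp (((-(2 * Real.pi * ξ) : ℂ) * Complex.I) * ((0 : ℝ) : ℂ)) = 1 := by simp
  rw [e0, norm_mul, norm_div, norm_ee_sub_one, norm_inv, Complex.norm_real, Real.norm_eq_abs,
    abs_of_pos hδ, norm_mul, Complex.norm_I, mul_one, norm_neg]
  have e1 : ‖(2 * Real.pi * ξ : ℂ)‖ = 2 * Real.pi * ξ := by
    have : (2 * Real.pi * ξ : ℂ) = ((2 * Real.pi * ξ : ℝ) : ℂ) := by push_cast; ring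
    rw [this, Complex.norm_real, Real.norm_eq_abs, abs_of_pos (by positivity)]
  rw [e1]
  have h2 := sin_lower (δ * ξ) (by positivity) h
  have h3 : 2 * (δ * ξ) ≤ |Real.sin (Real.pi * (δ * ξ))| := h2.trans (le_abs_self _)
  calc 2 / Real.pi = δ⁻¹ * (2 * (2 * (δ * ξ)) / (2 * Real.pi * ξ)) := by field_simp
    _ ≤ δ⁻¹ * (2 * |Real.sin (Real.pi * (δ * ξ))| / (2 * Real.pi * ξ)) := by gcongr

/-- separated points in an interval -/
lemma card_sep {ι : Type*} (a : ι → ℝ) (δ : ℝ) (hδ : 0 < δ) (S : Finset ι)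
    (hsep : ∀ i ∈ S, ∀ j ∈ S, i ≠ j → δ ≤ |a i - a j|) (x y : ℝ)
    (hS : ∀ i ∈ S, x ≤ a i ∧ a i ≤ y) (h0 : 0 ≤ (y - x) / δ + 1) :
    (S.card : ℝ) ≤ (y - x) / δ + 1 := by
  rcases S.eq_empty_or_nonempty with rfl | ⟨i0, hi0⟩
  · simpa using h0
  · have hxy : 0 ≤ (y - x) / δ := by
      have := hS i0 hi0
      exact div_nonneg (by linarith [this.1, this.2]) hδ.le
    have h1 : S.card ≤ (Finset.range (⌊(y - x) / δ⌋₊ + 1)).card := by
      apply Finset.card_le_card_of_injOn (fun i => ⌊(a i - x) / δ⌋₊)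
      · intro i hi
        rw [Finset.mem_coe, Finset.mem_range]
        have := hS i hi
        apply Nat.lt_succ_of_le
        apply Nat.floor_mono
        gcongr
        exact this.2
      · intro i hi j hj hij
        by_contra hne
        have h2 := hsep i hi j hj hne
        simp only at hij
        have hi0 : 0 ≤ (a i - x) / δ := div_nonneg (by linarith [(hS i hi).1]) hδ.le
        have hj0 : 0 ≤ (a j - x) / δ := div_nonneg (by linarith [(hS j hj).1]) hδ.le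
        have f1 := Nat.floor_le hi0
        have f2 := Nat.lt_floor_add_one ((a i - x) / δ)
        have f3 := Nat.floor_le hj0
        have f4 := Nat.lt_floor_add_one ((a j - x) / δ)
        rw [hij] at f1 f2
        have h3 : |(a i - x) / δ - (a j - x) / δ| < 1 := by
          rw [abs_lt]
          constructor <;> linarith
        have h4 : (a i - x) / δ - (a j - x) / δ = (a i - a j) / δ := by ring
        rw [h4, abs_div, abs_of_pos hδ, div_lt_one hδ] at h3
        linarith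
    rw [Finset.card_range] at h1
    have h2 : (S.card : ℝ) ≤ ((⌊(y - x) / δ⌋₊ + 1 : ℕ) : ℝ) := by exact_mod_cast h1
    have h3 := Nat.floor_le hxy
    push_cast at h2
    linarith

end

end Pool.Agent.V11282.LZ
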