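import Mathlib
import Pool.Agent.V11282.LZ.Gen

/-!
One-dimensional multi-scale measures: the generation step.
-/

set_option autoImplicit false

open MeasureTheory Finset Filter Topology
open scoped ENNReal

namespace Pool.Agent.V11282.LZ

noncomputable section

/-- intervals meeting `[x, x + ℓ]` -/
def meet {M : ℕ} (a : Fin M → ℝ) (δ x l : ℝ) : Finset (Fin M) :=
  Finset.univ.filter (fun j => a j ≤ x + l ∧ x ≤ a j + δ)

/-- the invariants of the construction -/
structure Inv (b : ℝ) (N M : ℕ) (a : Fin M → ℝ) (δ : ℝ) (R : ℕ → ℝ) (κ : ℝ) : Prop where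
  Mpos : 0 < M
  δpos : 0 < δ
  mass : (M : ℝ) * δ ^ b = 1
  sep : ∀ i j, i ≠ j → δ ≤ |a i - a j|
  fro : ∀ x l, δ ≤ l → ((meet a δ x l).card : ℝ) ≤ 9 * M * l ^ b
  κpos : 0 < κ
  κle : κ ≤ 1 / 40
  Rpos : ∀ i < N, 0 < R i
  sparse : ∀ i, i + 1 < N → 2 * R i ≤ R (i + 1)
  big : ∀ i < N, ENNReal.ofReal (R i / 24) ≤
    volume {ξ : ℝ | 0 ≤ ξ ∧ ξ ≤ R i ∧ (1 / 20 + κ) * (R i) ^ (-b / 2) ≤ ‖FT a δ ξ‖}

lemma cell_le {M : ℕ} (a : Fin M → ℝ) (n : ℕ) (δ : ℝ) (hδ : 0 < δ) (hn : 0 < n)
    (l : Fin (M * n)) : a l.divNat ≤ cell a n δ l ∧ cell a n δ l + δ / n ≤ a l.divNat + δ := by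
  have hnr : (0:ℝ) < n := by exact_mod_cast hn
  unfold cell
  constructor
  · have : 0 ≤ ((l.modNat : ℕ) : ℝ) * (δ / n) := by positivity
    linarith
  · have h1 : ((l.modNat : ℕ) : ℝ) + 1 ≤ n := by exact_mod_cast l.modNat.2
    have h2 : (((l.modNat : ℕ) : ℝ) + 1) * (δ / n) ≤ n * (δ / n) := by
      apply mul_le_mul_of_nonneg_right h1 (by positivity)
    have h3 : (n : ℝ) * (δ / n) = δ := by field_simp
    linarith

lemma meet_three {M : ℕ} (a : Fin M → ℝ) (δ : ℝ) (hδ : 0 < δ)
    (sep : ∀ i j, i ≠ j → δ ≤ |a i - a j|) (x l : ℝ) (hl0 : 0 ≤ l) (hl : l ≤ δ) :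
    ((meet a δ x l).card : ℝ) ≤ 3 := by
  have h := card_sep a δ hδ (meet a δ x l) (fun i _ j _ hij => sep i j hij) (x - δ) (x + l) (by
    intro i hi
    have := (Finset.mem_filter.mp hi).2
    constructor <;> linarith [this.1, this.2]) (by
    have : 0 ≤ (x + l - (x - δ)) / δ := div_nonneg (by linarith) hδ.le
    linarith)
  refine h.trans ?_
  have : (x + l - (x - δ)) / δ ≤ 2 := by
    rw [div_le_iff₀ hδ]
    linarith
  linarith

lemma fro_child {M : ℕ} (a : Fin M → ℝ) (δ : ℝ) (n : ℕ) (hn : 0 < n) (hM : 0 < M) (hδ : 0 < δ)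
    (b : ℝ) (hb0 : 0 < b) (hb1 : b < 1) (a' : Fin (M * n) → ℝ) (δ' : ℝ) (hδ' : 0 < δ')
    (h1 : ∀ l, cell a n δ l ≤ a' l) (h2 : ∀ l, a' l + δ' ≤ cell a n δ l + δ / n)
    (mass : (M : ℝ) * δ ^ b = 1) (mass' : ((M * n : ℕ) : ℝ) * δ' ^ b = 1)
    (sep : ∀ i j, i ≠ j → δ ≤ |a i - a j|)
    (fro : ∀ x l, δ ≤ l → ((meet a δ x l).card : ℝ) ≤ 9 * M * l ^ b) (x l : ℝ) (hl : δ' ≤ l) :
    ((meet a' δ' x l).card : ℝ) ≤ 9 * ((M * n : ℕ) : ℝ) * l ^ b := by
  classical
  have hnr : (0:ℝ) < n := by exact_mod_cast hn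
  have hMr : (0:ℝ) < M := by exact_mod_cast hM
  have hl0 : 0 < l := lt_of_lt_of_le hδ' hl
  have hP : ∀ w : Fin (M * n), (a' w ≤ x + l ∧ x ≤ a' w + δ') →
      (a w.divNat ≤ x + l ∧ x ≤ a w.divNat + δ) := by
    intro w hw
    have h3 := cell_le a n δ hδ hn w
    constructor <;> linarith [h1 w, h2 w, hw.1, hw.2, h3.1, h3.2]
  rcases le_or_gt δ l with hcase | hcase
  · have h4 : (meet a' δ' x l).card ≤ ∑ w : Fin (M * n),
        (fun (j : Fin M) (_ : Fin n) => if (a j ≤ x + l ∧ x ≤ a j + δ) then 1 else 0)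
          w.divNat w.modNat := by
      unfold meet
      rw [Finset.card_filter]
      apply Finset.sum_le_sum
      intro w _
      by_cases hw : a' w ≤ x + l ∧ x ≤ a' w + δ'
      · simp only [if_pos hw, if_pos (hP w hw)]
        exact le_rfl
      · rw [if_neg hw]
        exact Nat.zero_le _
    rw [sum_cells (fun (j : Fin M) (_ : Fin n) => if (a j ≤ x + l ∧ x ≤ a j + δ) then 1 else 0)]
      at h4
    simp only [Finset.sum_const, Finset.card_univ, Fintype.card_fin, smul_eq_mul] at h4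
    rw [← Finset.mul_sum, ← Finset.card_filter] at h4
    have h5 : ((meet a' δ' x l).card : ℝ) ≤ n * ((meet a δ x l).card : ℝ) := by
      exact_mod_cast h4
    refine h5.trans ?_
    push_cast
    calc (n : ℝ) * ((meet a δ x l).card : ℝ) ≤ n * (9 * M * l ^ b) := by
          gcongr
          exact fro x l hcase
      _ = 9 * (M * n) * l ^ b := by ring
  · have hη : 0 < δ / n := by positivity
    have h4 : (meet a' δ' x l).card ≤ ∑ w : Fin (M * n),
        (fun (j : Fin M) (i : Fin n) => if ((a j ≤ x + l ∧ x ≤ a j + δ) ∧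
          (x - δ / n ≤ a j + (i : ℕ) * (δ / n) ∧ a j + (i : ℕ) * (δ / n) ≤ x + l)) then 1 else 0)
          w.divNat w.modNat := by
      unfold meet
      rw [Finset.card_filter]
      apply Finset.sum_le_sum
      intro w _
      by_cases hw : a' w ≤ x + l ∧ x ≤ a' w + δ'
      · have h6 : (x - δ / n ≤ cell a n δ w ∧ cell a n δ w ≤ x + l) := by
          constructor <;> linarith [h1 w, h2 w, hw.1, hw.2]
        unfold cell at h6
        simp only [if_pos hw, if_pos (show _ ∧ _ from ⟨hP w hw, h6⟩)]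
        exact le_rfl
      · rw [if_neg hw]
        exact Nat.zero_le _
    rw [sum_cells (fun (j : Fin M) (i : Fin n) => if ((a j ≤ x + l ∧ x ≤ a j + δ) ∧
          (x - δ / n ≤ a j + (i : ℕ) * (δ / n) ∧ a j + (i : ℕ) * (δ / n) ≤ x + l)) then 1 else 0)]
      at h4
    have h5 : ∀ j : Fin M, ((∑ i : Fin n, (if ((a j ≤ x + l ∧ x ≤ a j + δ) ∧
          (x - δ / n ≤ a j + (i : ℕ) * (δ / n) ∧ a j + (i : ℕ) * (δ / n) ≤ x + l)) then 1 else 0)
          : ℕ) : ℝ) ≤ if (a j ≤ x + l ∧ x ≤ a j + δ) then (l / (δ / n) + 2) else 0 := by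
      intro j
      by_cases hj : a j ≤ x + l ∧ x ≤ a j + δ
      · simp only [hj, true_and, if_true]
        rw [← Finset.card_filter]
        have h6 := card_sep (fun i : Fin n => a j + (i : ℕ) * (δ / n)) (δ / n) hη
          (Finset.univ.filter (fun i : Fin n =>
            (x - δ / n ≤ a j + (i : ℕ) * (δ / n) ∧ a j + (i : ℕ) * (δ / n) ≤ x + l)))
          (by
            intro i _ k _ hik
            have h7 : (a j + (i : ℕ) * (δ / n)) - (a j + (k : ℕ) * (δ / n))
                = (((i : ℕ) : ℝ) - (k : ℕ)) * (δ / n) := by ring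
            rw [h7, abs_mul, abs_of_pos hη]
            have h8 : (1:ℝ) ≤ |((i : ℕ) : ℝ) - (k : ℕ)| := by
              have h9 : ((i : ℕ) : ℤ) - (k : ℕ) ≠ 0 := by
                intro h0
                apply hik
                apply Fin.ext
                omega
              have h10 := Int.one_le_abs h9
              have : ((1 : ℤ) : ℝ) ≤ ((|((i : ℕ) : ℤ) - (k : ℕ)| : ℤ) : ℝ) := by
                exact_mod_cast h10
              simpa using this
            nlinarith) (x - δ / n) (x + l) (by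
            intro i hi
            exact (Finset.mem_filter.mp hi).2) (by
            have : 0 ≤ (x + l - (x - δ / n)) / (δ / n) := div_nonneg (by linarith) hη.le
            linarith)
        refine h6.trans (le_of_eq ?_)
        have : (x + l - (x - δ / n)) / (δ / n) = l / (δ / n) + 1 := by
          field_simp
          ring
        rw [this]
        ring
      · simp [hj]
    have h6 : ((meet a' δ' x l).card : ℝ) ≤ ((meet a δ x l).card : ℝ) * (l / (δ / n) + 2) := by
      have h7 : ((meet a' δ' x l).card : ℝ) ≤ ((∑ j : Fin M, ∑ i : Fin n,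
          (if ((a j ≤ x + l ∧ x ≤ a j + δ) ∧
          (x - δ / n ≤ a j + (i : ℕ) * (δ / n) ∧ a j + (i : ℕ) * (δ / n) ≤ x + l)) then 1 else 0)
          : ℕ) : ℝ) := by exact_mod_cast h4
      refine h7.trans ?_
      rw [Nat.cast_sum]
      refine (Finset.sum_le_sum fun j _ => h5 j).trans (le_of_eq ?_)
      rw [← Finset.sum_filter, Finset.sum_const, nsmul_eq_mul]
      rfl
    have h7 := meet_three a δ hδ sep x l hl0.le hcase.le
    have h8 : 0 ≤ l / (δ / n) + 2 := by positivity
    have h9 : l / (δ / n) = n * (l / δ) := by field_simp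
    have h10 : l / δ ≤ M * l ^ b := by
      have e1 : (M : ℝ) * l ^ b = (l / δ) ^ b := by
        rw [Real.div_rpow hl0.le hδ.le]
        have : δ ^ b ≠ 0 := (Real.rpow_pos_of_pos hδ b).ne'
        field_simp
        linarith
      rw [e1]
      have h11 : l / δ ≤ 1 := by
        rw [div_le_one hδ]; exact hcase.le
      calc l / δ = (l / δ) ^ (1:ℝ) := (Real.rpow_one _).symm
        _ ≤ (l / δ) ^ b := Real.rpow_le_rpow_of_exponent_ge (by positivity) h11 hb1.le
    have h11 : 1 ≤ ((M * n : ℕ) : ℝ) * l ^ b := by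
      rw [← mass']
      apply mul_le_mul_of_nonneg_left _ (by positivity)
      exact Real.rpow_le_rpow hδ'.le hl hb0.le
    push_cast at h11 ⊢
    calc ((meet a' δ' x l).card : ℝ) ≤ ((meet a δ x l).card : ℝ) * (l / (δ / n) + 2) := h6
      _ ≤ 3 * (l / (δ / n) + 2) := by gcongr
      _ = 3 * n * (l / δ) + 6 := by rw [h9]; ring
      _ ≤ 3 * n * (M * l ^ b) + 6 * (M * n * l ^ b) := by
          have h12 : 3 * n * (l / δ) ≤ 3 * n * (M * l ^ b) := by gcongr
          linarith
      _ = 9 * (M * n) * l ^ b := by ring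

lemma sep_child {M : ℕ} (a : Fin M → ℝ) (δ : ℝ) (n : ℕ) (hn : 0 < n) (hδ : 0 < δ)
    (a' : Fin (M * n) → ℝ) (δ' : ℝ)
    (h1 : ∀ l, cell a n δ l ≤ a' l) (h2 : ∀ l, a' l + δ' ≤ cell a n δ l + δ / n)
    (sep : ∀ i j, i ≠ j → δ ≤ |a i - a j|) (w z : Fin (M * n)) (hwz : w ≠ z) :
    δ' ≤ |a' w - a' z| := by
  have hnr : (0:ℝ) < n := by exact_mod_cast hn
  have hη : 0 < δ / n := by positivity
  have key : ∀ w z : Fin (M * n), cell a n δ w + δ / n ≤ cell a n δ z → δ' ≤ |a' w - a' z| := by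
    intro w z h
    have : δ' ≤ a' z - a' w := by linarith [h1 z, h2 w]
    exact this.trans (by rw [abs_sub_comm]; exact le_abs_self _)
  have hcases : cell a n δ w + δ / n ≤ cell a n δ z ∨ cell a n δ z + δ / n ≤ cell a n δ w := by
    by_cases hd : w.divNat = z.divNat
    · have hm : w.modNat ≠ z.modNat := by
        intro hm
        apply hwz
        have := finProdFinEquiv.symm.injective (a₁ := w) (a₂ := z) (by
          simp only [finProdFinEquiv_symm_apply]
          rw [hd, hm])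
        exact this
      unfold cell
      rw [hd]
      rcases lt_or_gt_of_ne (fun h => hm (Fin.ext h) : (w.modNat : ℕ) ≠ z.modNat) with h | h
      · left
        have h3 : ((w.modNat : ℕ) : ℝ) + 1 ≤ (z.modNat : ℕ) := by exact_mod_cast h
        nlinarith
      · right
        have h3 : ((z.modNat : ℕ) : ℝ) + 1 ≤ (w.modNat : ℕ) := by exact_mod_cast h
        nlinarith
    · have h3 := sep _ _ hd
      have hw := cell_le a n δ hδ hn w
      have hz := cell_le a n δ hδ hn z
      rcases le_total (a w.divNat) (a z.divNat) with h | h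
      · left
        rw [abs_sub_comm, abs_of_nonneg (by linarith)] at h3
        linarith [hw.2, hz.1]
      · right
        rw [abs_of_nonneg (by linarith)] at h3
        linarith [hw.1, hz.2]
  rcases hcases with h | h
  · exact key w z h
  · rw [abs_sub_comm]
    exact key z w h

end

end Pool.Agent.V11282.LZ
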