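import Mathlib
import Pool.Agent.V11282.LZ.Gen2

/-!
One-dimensional multi-scale measures: existence.
-/

set_option autoImplicit false

open MeasureTheory Finset Filter Topology
open scoped ENNReal

namespace Pool.Agent.V11282.LZ

noncomputable section

lemma rpow_neg_inv_tendsto (b : ℝ) (hb0 : 0 < b) :
    Tendsto (fun n : ℕ => (n : ℝ) ^ (-(1 / b))) atTop (𝓝 0) :=
  (tendsto_rpow_neg_atTop (by positivity : 0 < 1 / b)).comp tendsto_natCast_atTop_atTop

lemma choose_n (b : ℝ) (hb0 : 0 < b) (hb1 : b < 1) (δ : ℝ) (hδ : 0 < δ) (N : ℕ) (R : ℕ → ℝ)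
    (hR : ∀ i < N, 0 < R i) (κ : ℝ) (hκ : 0 < κ) :
    ∃ n : ℕ, 0 < n ∧ 3 / 2 * (δ * (n : ℝ) ^ (-(1 / b))) ≤ δ / n ∧
      (∀ i < N, 4 * Real.pi * R i * (δ / n) ≤ κ / 2 * (R i) ^ (-b / 2)) ∧
      (∀ i < N, 2 * R i ≤ 1 / (2 * (δ * (n : ℝ) ^ (-(1 / b))))) := by
  have t1 : Tendsto (fun n : ℕ => (n : ℝ) ^ (1 / b - 1)) atTop atTop := by
    apply (tendsto_rpow_atTop _).comp tendsto_natCast_atTop_atTop
    rw [sub_pos, lt_div_iff₀ hb0]
    linarith
  have e1 : ∀ᶠ n : ℕ in atTop, 3 / 2 * (δ * (n : ℝ) ^ (-(1 / b))) ≤ δ / n := by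
    filter_upwards [t1.eventually_ge_atTop (3 / 2), eventually_gt_atTop 0] with n hn h0
    have hn0 : (0:ℝ) < n := by exact_mod_cast h0
    have h1 : (n : ℝ) ^ (1 / b - 1) * (n : ℝ) ^ (-(1 / b)) = 1 / n := by
      rw [← Real.rpow_add hn0]
      have : 1 / b - 1 + -(1 / b) = -1 := by ring
      rw [this, Real.rpow_neg_one]
      simp
    have h2 : 0 < (n : ℝ) ^ (-(1 / b)) := Real.rpow_pos_of_pos hn0 _
    calc 3 / 2 * (δ * (n : ℝ) ^ (-(1 / b))) ≤ (n : ℝ) ^ (1 / b - 1) * (δ * (n : ℝ) ^ (-(1 / b))) := by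
          gcongr
      _ = δ * ((n : ℝ) ^ (1 / b - 1) * (n : ℝ) ^ (-(1 / b))) := by ring
      _ = δ / n := by rw [h1]; ring
  have e2 : ∀ᶠ n : ℕ in atTop, ∀ i ∈ Finset.range N,
      4 * Real.pi * R i * (δ / n) ≤ κ / 2 * (R i) ^ (-b / 2) := by
    rw [Filter.eventually_all_finset]
    intro i hi
    have hRi := hR i (Finset.mem_range.mp hi)
    have h1 : Tendsto (fun n : ℕ => 4 * Real.pi * R i * (δ / n)) atTop (𝓝 (4 * Real.pi * R i * 0)) :=
      (tendsto_const_div_atTop_nhds_zero_nat δ).const_mul _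
    rw [mul_zero] at h1
    have h2 : 0 < κ / 2 * (R i) ^ (-b / 2) := by
      have := Real.rpow_pos_of_pos hRi (-b / 2)
      positivity
    filter_upwards [h1.eventually (gt_mem_nhds h2)] with n hn
    exact hn.le
  have e3 : ∀ᶠ n : ℕ in atTop, ∀ i ∈ Finset.range N,
      2 * R i ≤ 1 / (2 * (δ * (n : ℝ) ^ (-(1 / b)))) := by
    rw [Filter.eventually_all_finset]
    intro i hi
    have hRi := hR i (Finset.mem_range.mp hi)
    have h1 : Tendsto (fun n : ℕ => 2 * (δ * (n : ℝ) ^ (-(1 / b)))) atTop (𝓝 (2 * (δ * 0))) :=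
      ((rpow_neg_inv_tendsto b hb0).const_mul δ).const_mul 2
    rw [mul_zero, mul_zero] at h1
    have h2 : 0 < 1 / (2 * R i) := by positivity
    filter_upwards [h1.eventually (gt_mem_nhds h2), eventually_gt_atTop 0] with n hn h0
    have hn0 : (0:ℝ) < n := by exact_mod_cast h0
    have h3 : 0 < 2 * (δ * (n : ℝ) ^ (-(1 / b))) := by
      have := Real.rpow_pos_of_pos hn0 (-(1 / b))
      positivity
    rw [le_div_iff₀ h3]
    rw [lt_div_iff₀ (by positivity)] at hn
    linarith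
  obtain ⟨n, ⟨⟨h1, h2⟩, h3⟩, h4⟩ := (((e1.and e2).and e3).and (eventually_gt_atTop 0)).exists
  exact ⟨n, h4, h1, fun i hi => h2 i (Finset.mem_range.mpr hi),
    fun i hi => h3 i (Finset.mem_range.mpr hi)⟩

lemma gen_step (b : ℝ) (hb0 : 0 < b) (hb1 : b < 1) {N M : ℕ} {a : Fin M → ℝ} {δ : ℝ} {R : ℕ → ℝ}
    {κ : ℝ} (H : Inv b N M a δ R κ) :
    ∃ (M' : ℕ) (a' : Fin M' → ℝ) (δ' : ℝ) (R' : ℕ → ℝ) (κ' : ℝ), Inv b (N + 1) M' a' δ' R' κ' := by
  obtain ⟨n, hn, hn1, hn2, hn3⟩ := choose_n b hb0 hb1 δ H.δpos N R H.Rpos κ H.κpos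
  have hnr : (0:ℝ) < n := by exact_mod_cast hn
  have hδ := H.δpos
  have hM := H.Mpos
  have hMr : (0:ℝ) < M := by exact_mod_cast hM
  set δ' : ℝ := δ * (n : ℝ) ^ (-(1 / b)) with hδ'
  have hδ'0 : 0 < δ' := by
    have := Real.rpow_pos_of_pos hnr (-(1 / b))
    positivity
  set τ : ℝ := δ' / 2 with hτ
  set Rn : ℝ := 1 / (2 * δ') with hRn
  have hRn0 : 0 < Rn := by positivity
  have hδR : δ' * Rn = 1 / 2 := by rw [hRn]; field_simp
  have hM' : 0 < M * n := Nat.mul_pos hM hn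
  have hM'r : (0:ℝ) < ((M * n : ℕ) : ℝ) := by exact_mod_cast hM'
  have mass' : ((M * n : ℕ) : ℝ) * δ' ^ b = 1 := by
    rw [hδ', Real.mul_rpow hδ.le (Real.rpow_nonneg hnr.le _), ← Real.rpow_mul hnr.le]
    have : -(1 / b) * b = -1 := by field_simp
    rw [this, Real.rpow_neg_one]
    push_cast
    have := H.mass
    field_simp
    linarith
  -- selection of the signs
  set c : Fin (M * n) → ℝ := cell a n δ with hc
  set A : ℝ → ℂ := fun ξ => ∑ l, ee (c l * ξ) * ((1 + ee (τ * ξ)) / 2) with hA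
  set B : Fin (M * n) → ℝ → ℂ := fun l ξ => ee (c l * ξ) * ((1 - ee (τ * ξ)) / 2) with hB
  have hee : ∀ y : ℝ, Continuous fun ξ : ℝ => ee (y * ξ) := fun y =>
    ee_cont.comp (continuous_const.mul continuous_id)
  have hAc : Continuous A := by
    rw [hA]
    apply continuous_finset_sum
    intro l _
    exact (hee _).mul ((continuous_const.add (hee _)).div_const 2)
  have hBc : ∀ l, Continuous (B l) := by
    intro l
    exact (hee _).mul ((continuous_const.sub (hee _)).div_const 2)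
  obtain ⟨s, hs⟩ := select A B hAc hBc (Rn / 2) Rn (((M * n : ℕ) : ℝ) / 16) (by linarith) (by
    intro ξ h1 h2
    have h3 : ∀ l, (1:ℝ) / 16 ≤ ‖B l ξ‖ ^ 2 := by
      intro l
      rw [hB]
      simp only
      rw [norm_mul, norm_ee, one_mul, norm_div, norm_sub_rev, norm_ee_sub_one]
      have e1 : τ * ξ ≤ 1 / 2 := by
        rw [hτ]
        nlinarith
      have e2 : 1 / 8 ≤ τ * ξ := by
        rw [hτ]
        nlinarith
      have e3 := sin_lower (τ * ξ) (by linarith) e1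
      have e4 : 1 / 4 ≤ |Real.sin (Real.pi * (τ * ξ))| := by
        refine le_trans ?_ (le_abs_self _)
        linarith
      simp only [RCLike.norm_ofNat]
      have e5 : 2 * |Real.sin (Real.pi * (τ * ξ))| / 2 = |Real.sin (Real.pi * (τ * ξ))| := by ring
      rw [e5]
      nlinarith
    calc ((M * n : ℕ) : ℝ) / 16 = ∑ _l : Fin (M * n), (1:ℝ) / 16 := by
          rw [Finset.sum_const, Finset.card_univ, Fintype.card_fin, nsmul_eq_mul]; ring
      _ ≤ _ := Finset.sum_le_sum fun l _ => h3 l)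
  set a' : Fin (M * n) → ℝ := fun l => c l + (if s l then 0 else τ) with ha'
  have hτ0 : 0 ≤ τ := by positivity
  have h1 : ∀ l, cell a n δ l ≤ a' l := by
    intro l
    simp only [ha', hc]
    split_ifs <;> linarith
  have h2 : ∀ l, a' l + δ' ≤ cell a n δ l + δ / n := by
    intro l
    simp only [ha', hc]
    split_ifs <;> linarith
  have hSS : ∀ ξ, SS (A ξ) (fun l => B l ξ) s = ∑ l, ee (a' l * ξ) := by
    intro ξ
    unfold SS
    rw [hA, hB]
    simp only
    rw [← Finset.sum_add_distrib]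
    apply Finset.sum_congr rfl
    intro l _
    simp only [ha']
    cases hsl : s l
    · simp only [sg, Bool.false_eq_true, if_false]
      rw [add_mul, ee_add]
      ring
    · simp only [sg, if_true, add_zero]
      ring
  have hFT := FT_child a δ n hn hM hδ a' δ' hδ'0 h1 h2
  refine ⟨M * n, a', δ', fun i => if i = N then Rn else R i, κ / 2,
    ⟨hM', hδ'0, mass', sep_child a δ n hn hδ a' δ' h1 h2 H.sep,
    fro_child a δ n hn hM hδ b hb0 hb1 a' δ' hδ'0 h1 h2 H.mass mass' H.sep H.fro,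
    by linarith [H.κpos], by linarith [H.κle, H.κpos], ?_, ?_, ?_⟩⟩
  · intro i hi
    by_cases hiN : i = N
    · simp [hiN, hRn0]
    · simp only [hiN, if_false]
      exact H.Rpos i (by omega)
  · intro i hi
    have hi1 : i ≠ N := by omega
    by_cases hi2 : i + 1 = N
    · simp only [hi1, if_false, hi2, if_true]
      exact hn3 i (by omega)
    · simp only [hi1, if_false, hi2]
      exact H.sparse i (by omega)
  · intro i hi
    by_cases hiN : i = N
    · simp only [hiN, if_true]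
      have e1 : Rn / 24 = (Rn - Rn / 2) / 12 := by ring
      rw [e1]
      refine hs.trans (measure_mono ?_)
      intro ξ hξ
      obtain ⟨k1, k2, k3⟩ := hξ
      refine ⟨by linarith, k2, ?_⟩
      rw [hSS] at k3
      have hξ0 : 0 < ξ := by linarith
      have k4 := ph_lower δ' ξ hδ'0 hξ0 (by
        calc δ' * ξ ≤ δ' * Rn := by gcongr
          _ = 1 / 2 := hδR)
      have hpi := Real.pi_pos
      have hpi2 : Real.pi ^ 2 < 10 := by nlinarith [Real.pi_lt_d2]
      have hκ := H.κle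
      have hκ0 := H.κpos
      set X : ℝ := Rn ^ (-b / 2) with hX
      have hX0 : 0 < X := Real.rpow_pos_of_pos hRn0 _
      have hX2 : X ^ 2 = Rn ^ (-b) := by
        rw [hX, ← Real.rpow_natCast, ← Real.rpow_mul hRn0.le]
        congr 1
        push_cast
        ring
      -- lower bound of the square
      have k5 : X ^ 2 / (16 * Real.pi ^ 2) ≤ ‖FT a' δ' ξ‖ ^ 2 := by
        rw [FT_eq, norm_mul, norm_mul, norm_inv, Complex.norm_natCast, mul_pow, mul_pow]
        have k6 : (2 / Real.pi) ^ 2 ≤ ‖ph δ' ξ‖ ^ 2 := by gcongr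
        have k7 : (((M * n : ℕ) : ℝ))⁻¹ = δ' ^ b := by
          field_simp
          linarith
        have k8 : δ' ^ b = 2 ^ (-b) * Rn ^ (-b) := by
          have : δ' = (2 * Rn)⁻¹ := by rw [hRn]; field_simp
          rw [this, Real.inv_rpow (by positivity), ← Real.rpow_neg (by positivity),
            Real.mul_rpow (by norm_num) hRn0.le]
        have k9 : (1:ℝ) / 2 ≤ 2 ^ (-b) := by
          have : (2:ℝ) ^ (-1 : ℝ) ≤ 2 ^ (-b) :=
            Real.rpow_le_rpow_of_exponent_le (by norm_num) (by linarith)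
          rw [Real.rpow_neg_one] at this
          linarith
        have k10 : X ^ 2 / 2 ≤ (((M * n : ℕ) : ℝ))⁻¹ := by
          rw [k7, k8, hX2]
          have : 0 < Rn ^ (-b) := Real.rpow_pos_of_pos hRn0 _
          nlinarith
        have k11 : (((M * n : ℕ) : ℝ))⁻¹ / 32 ≤ (((M * n : ℕ) : ℝ))⁻¹ ^ 2 * ‖∑ l, ee (a' l * ξ)‖ ^ 2 := by
          calc (((M * n : ℕ) : ℝ))⁻¹ / 32
              = (((M * n : ℕ) : ℝ))⁻¹ ^ 2 * (((M * n : ℕ) : ℝ) / 16 / 2) := by
                field_simp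
                norm_num
            _ ≤ _ := by gcongr
        calc X ^ 2 / (16 * Real.pi ^ 2) = (2 / Real.pi) ^ 2 * (X ^ 2 / 2 / 32) := by
              field_simp
              norm_num
          _ ≤ (2 / Real.pi) ^ 2 * ((((M * n : ℕ) : ℝ))⁻¹ / 32) := by gcongr
          _ ≤ ‖ph δ' ξ‖ ^ 2 * ((((M * n : ℕ) : ℝ))⁻¹ ^ 2 * ‖∑ l, ee (a' l * ξ)‖ ^ 2) := by gcongr
      have k12 : ((1 / 20 + κ / 2) * X) ^ 2 ≤ ‖FT a' δ' ξ‖ ^ 2 := by
        refine le_trans ?_ k5
        rw [mul_pow, le_div_iff₀ (by positivity)]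
        have : (1 / 20 + κ / 2) ^ 2 ≤ 1 / 160 := by nlinarith
        have hXX : 0 < X ^ 2 := by positivity
        calc (1 / 20 + κ / 2) ^ 2 * X ^ 2 * (16 * Real.pi ^ 2)
            ≤ 1 / 160 * X ^ 2 * (16 * 10) := by gcongr
          _ = X ^ 2 := by ring
      exact (pow_le_pow_iff_left₀ (by positivity) (norm_nonneg _) two_ne_zero).mp k12
    · simp only [hiN, if_false]
      have hiN2 : i < N := by omega
      refine (H.big i hiN2).trans (measure_mono ?_)
      intro ξ hξ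
      obtain ⟨k1, k2, k3⟩ := hξ
      refine ⟨k1, k2, ?_⟩
      have k4 := hFT ξ
      have k5 := hn2 i hiN2
      have hpi := Real.pi_pos
      rw [abs_of_nonneg k1] at k4
      have k6 : 4 * Real.pi * ξ * (δ / n) ≤ κ / 2 * (R i) ^ (-b / 2) := by
        refine le_trans ?_ k5
        gcongr
      have k7 : ‖FT a δ ξ‖ ≤ ‖FT a' δ' ξ‖ + ‖FT a' δ' ξ - FT a δ ξ‖ := by
        have := norm_sub_le (FT a' δ' ξ) (FT a' δ' ξ - FT a δ ξ)
        rwa [sub_sub_cancel] at this
      linarith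

lemma gen_zero (b : ℝ) (hb : 0 ≤ b) : Inv b 0 1 (fun _ => 0) 1 (fun _ => 1) (1 / 40) := by
  refine ⟨one_pos, one_pos, by simp, ?_, ?_, by norm_num, by norm_num, ?_, ?_, ?_⟩
  · intro i j hij
    exact absurd (Subsingleton.elim i j) hij
  · intro x l hl
    have h1 : ((meet (fun _ : Fin 1 => (0:ℝ)) 1 x l).card : ℝ) ≤ 1 := by
      have := Finset.card_le_univ (meet (fun _ : Fin 1 => (0:ℝ)) 1 x l)
      rw [Fintype.card_fin] at this
      exact_mod_cast this
    have : 1 ≤ l ^ b := Real.one_le_rpow hl hb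
    push_cast
    linarith
  · intro i hi; omega
  · intro i hi; omega
  · intro i hi; omega

lemma gen_all (b : ℝ) (hb0 : 0 < b) (hb1 : b < 1) (N : ℕ) :
    ∃ (M : ℕ) (a : Fin M → ℝ) (δ : ℝ) (R : ℕ → ℝ) (κ : ℝ), Inv b N M a δ R κ := by
  induction N with
  | zero => exact ⟨_, _, _, _, _, gen_zero b hb0.le⟩
  | succ N ih =>
    obtain ⟨M, a, δ, R, κ, H⟩ := ih
    exact gen_step b hb0 hb1 H

end

end Pool.Agent.V11282.LZ
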