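import Mathlib
import Pool.Agent.V11282.LZ.Gen3

/-!
One-dimensional multi-scale measures: the measure, its Frostman and heat kernel bounds.
-/

set_option autoImplicit false

open MeasureTheory Finset Filter Topology Set
open scoped ENNReal

namespace Pool.Agent.V11282.LZ

noncomputable section

/-- the uniform measure on a finite union of intervals -/
def nuM {M : ℕ} (a : Fin M → ℝ) (δ : ℝ) : Measure ℝ :=
  (M : ℝ≥0∞)⁻¹ • ∑ j, (ENNReal.ofReal δ)⁻¹ • volume.restrict (Ioc (a j) (a j + δ))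

lemma nuM_apply {M : ℕ} (a : Fin M → ℝ) (δ : ℝ) (S : Set ℝ) (hS : MeasurableSet S) :
    nuM a δ S = (M : ℝ≥0∞)⁻¹ * ∑ j, (ENNReal.ofReal δ)⁻¹ * volume (S ∩ Ioc (a j) (a j + δ)) := by
  unfold nuM
  rw [Measure.smul_apply, Measure.finsetSum_apply]
  simp only [Measure.smul_apply, smul_eq_mul, Measure.restrict_apply hS]

lemma nuM_prob {M : ℕ} (a : Fin M → ℝ) (δ : ℝ) (hM : 0 < M) (hδ : 0 < δ) :
    IsProbabilityMeasure (nuM a δ) := by
  constructor
  rw [nuM_apply a δ _ MeasurableSet.univ]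
  have h1 : ENNReal.ofReal δ ≠ 0 := by simpa using hδ
  have h2 : (M : ℝ≥0∞) ≠ 0 := by exact_mod_cast hM.ne'
  simp only [univ_inter, Real.volume_Ioc, add_sub_cancel_left,
    ENNReal.inv_mul_cancel h1 ENNReal.ofReal_ne_top, Finset.sum_const, Finset.card_univ,
    Fintype.card_fin, nsmul_eq_mul, mul_one]
  exact ENNReal.inv_mul_cancel h2 (ENNReal.natCast_ne_top _)

lemma nuM_integral {M : ℕ} (a : Fin M → ℝ) (δ : ℝ) (hδ : 0 < δ) (G : ℝ → ℂ)
    (hG : Continuous G) : ∫ x, G x ∂(nuM a δ) = avM a δ G := by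
  unfold nuM avM av1
  have hI : ∀ j, IntegrableOn G (Ioc (a j) (a j + δ)) := fun j =>
    (hG.integrableOn_Icc).mono_set Ioc_subset_Icc_self
  rw [integral_smul_measure, integral_finset_sum_measure]
  · simp only [integral_smul_measure]
    rw [ENNReal.toReal_inv, ENNReal.toReal_natCast, Complex.real_smul]
    push_cast
    congr 1
    apply Finset.sum_congr rfl
    intro j _
    rw [ENNReal.toReal_inv, ENNReal.toReal_ofReal hδ.le, Complex.real_smul,
      intervalIntegral.integral_of_le (by linarith)]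
    push_cast
    rfl
  · intro j _
    exact (hI j).smul_measure (by simpa using hδ)

lemma nuM_fro {b : ℝ} (hb0 : 0 < b) (hb1 : b < 1) {N M : ℕ} {a : Fin M → ℝ} {δ : ℝ} {R : ℕ → ℝ}
    {κ : ℝ} (H : Inv b N M a δ R κ) (x l : ℝ) (hl : 0 < l) :
    nuM a δ (Icc x (x + l)) ≤ ENNReal.ofReal (9 * l ^ b) := by
  have hδ := H.δpos
  have hMr : (0:ℝ) < M := by exact_mod_cast H.Mpos
  have hMe : (M : ℝ≥0∞) = ENNReal.ofReal M := (ENNReal.ofReal_natCast M).symm
  -- general bound
  have key : nuM a δ (Icc x (x + l)) ≤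
      ENNReal.ofReal ((M:ℝ)⁻¹ * (((meet a δ x l).card : ℝ) * (δ⁻¹ * min δ l))) := by
    rw [nuM_apply a δ _ measurableSet_Icc]
    have h1 : ∑ j, (ENNReal.ofReal δ)⁻¹ * volume (Icc x (x + l) ∩ Ioc (a j) (a j + δ))
        ≤ ∑ j ∈ meet a δ x l, ENNReal.ofReal (δ⁻¹ * min δ l) := by
      have h2 : ∀ j, (ENNReal.ofReal δ)⁻¹ * volume (Icc x (x + l) ∩ Ioc (a j) (a j + δ))
          ≤ if j ∈ meet a δ x l then ENNReal.ofReal (δ⁻¹ * min δ l) else 0 := by
        intro j
        by_cases hj : j ∈ meet a δ x l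
        · rw [if_pos hj, ENNReal.ofReal_mul (by positivity), ENNReal.ofReal_inv_of_pos hδ]
          gcongr
          rw [ENNReal.ofReal_min]
          apply le_min
          · calc volume (Icc x (x + l) ∩ Ioc (a j) (a j + δ)) ≤ volume (Ioc (a j) (a j + δ)) :=
                  measure_mono inter_subset_right
              _ = ENNReal.ofReal δ := by rw [Real.volume_Ioc, add_sub_cancel_left]
          · calc volume (Icc x (x + l) ∩ Ioc (a j) (a j + δ)) ≤ volume (Icc x (x + l)) :=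
                  measure_mono inter_subset_left
              _ = ENNReal.ofReal l := by rw [Real.volume_Icc, add_sub_cancel_left]
        · rw [if_neg hj]
          have : Icc x (x + l) ∩ Ioc (a j) (a j + δ) = ∅ := by
            ext y
            simp only [Set.mem_inter_iff, Set.mem_Icc, Set.mem_Ioc, Set.mem_empty_iff_false,
              iff_false, not_and]
            rintro ⟨h3, h4⟩ h5 h6
            apply hj
            unfold meet
            rw [Finset.mem_filter]
            refine ⟨Finset.mem_univ _, ?_, ?_⟩ <;> linarith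
          rw [this, measure_empty, mul_zero]
      refine (Finset.sum_le_sum fun j _ => h2 j).trans (le_of_eq ?_)
      rw [Finset.sum_ite_mem, Finset.univ_inter]
    rw [Finset.sum_const, nsmul_eq_mul] at h1
    rw [hMe, ← ENNReal.ofReal_inv_of_pos hMr]
    have h3 : (((meet a δ x l).card : ℕ) : ℝ≥0∞) = ENNReal.ofReal ((meet a δ x l).card : ℝ) :=
      (ENNReal.ofReal_natCast _).symm
    rw [h3, ← ENNReal.ofReal_mul (by positivity)] at h1
    rw [ENNReal.ofReal_mul (by positivity)]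
    gcongr
  refine key.trans (ENNReal.ofReal_le_ofReal ?_)
  have hlb : 0 < l ^ b := Real.rpow_pos_of_pos hl b
  rcases le_or_gt δ l with hc | hc
  · rw [min_eq_left hc]
    have h1 := H.fro x l hc
    calc (M:ℝ)⁻¹ * (((meet a δ x l).card : ℝ) * (δ⁻¹ * δ))
        ≤ (M:ℝ)⁻¹ * ((9 * M * l ^ b) * (δ⁻¹ * δ)) := by gcongr
      _ = 9 * l ^ b := by field_simp
  · rw [min_eq_right hc.le]
    have h1 := meet_three a δ hδ H.sep x l hl.le hc.le
    have h2 : (M : ℝ) * l ^ b = (l / δ) ^ b := by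
      rw [Real.div_rpow hl.le hδ.le]
      have : δ ^ b ≠ 0 := (Real.rpow_pos_of_pos hδ b).ne'
      have := H.mass
      field_simp
      linarith
    have h3 : l / δ ≤ (l / δ) ^ b := by
      have h11 : l / δ ≤ 1 := by
        rw [div_le_one hδ]; exact hc.le
      calc l / δ = (l / δ) ^ (1:ℝ) := (Real.rpow_one _).symm
        _ ≤ (l / δ) ^ b := Real.rpow_le_rpow_of_exponent_ge (by positivity) h11 hb1.le
    calc (M:ℝ)⁻¹ * (((meet a δ x l).card : ℝ) * (δ⁻¹ * l))
        ≤ (M:ℝ)⁻¹ * (3 * (δ⁻¹ * l)) := by gcongr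
      _ = (M:ℝ)⁻¹ * (3 * (l / δ)) := by ring
      _ ≤ (M:ℝ)⁻¹ * (3 * (l / δ) ^ b) := by gcongr
      _ = (M:ℝ)⁻¹ * (3 * (M * l ^ b)) := by rw [h2]
      _ = 3 * l ^ b := by field_simp
      _ ≤ 9 * l ^ b := by linarith

/-- existence of the one-dimensional measures -/
theorem oneD (b : ℝ) (hb0 : 0 < b) (hb1 : b < 1) (N : ℕ) :
    ∃ ν : Measure ℝ, IsProbabilityMeasure ν ∧
      (∀ x l, 0 < l → ν (Icc x (x + l)) ≤ ENNReal.ofReal (9 * l ^ b)) ∧
      ∃ R : ℕ → ℝ, (∀ i < N, 0 < R i) ∧ (∀ i, i + 1 < N → 2 * R i ≤ R (i + 1)) ∧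
        ∀ i < N, ENNReal.ofReal (R i / 24) ≤
          volume {ξ : ℝ | 0 ≤ ξ ∧ ξ ≤ R i ∧ 1 / 20 * (R i) ^ (-b / 2) ≤ ‖∫ x, ee (x * ξ) ∂ν‖} := by
  obtain ⟨M, a, δ, R, κ, H⟩ := gen_all b hb0 hb1 N
  refine ⟨nuM a δ, nuM_prob a δ H.Mpos H.δpos, nuM_fro hb0 hb1 H, R, H.Rpos, H.sparse, ?_⟩
  intro i hi
  refine (H.big i hi).trans (measure_mono ?_)
  intro ξ hξ
  obtain ⟨h1, h2, h3⟩ := hξ
  refine ⟨h1, h2, ?_⟩
  rw [nuM_integral a δ H.δpos (fun x => ee (x * ξ))
    (ee_cont.comp (continuous_id.mul continuous_const))]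
  refine le_trans ?_ h3
  have : 0 < (R i) ^ (-b / 2) := Real.rpow_pos_of_pos (H.Rpos i hi) _
  have := H.κpos
  nlinarith

/-- heat kernel bound in one dimension -/
lemma heat1 (ν : Measure ℝ) [IsProbabilityMeasure ν] (b : ℝ) (hb0 : 0 < b) (hb1 : b < 1)
    (hν : ∀ x l, 0 < l → ν (Icc x (x + l)) ≤ ENNReal.ofReal (9 * l ^ b)) (t : ℝ) (ht : 0 < t)
    (x : ℝ) : ∫ y, Real.exp (-(x - y) ^ 2 / (4 * t)) ∂ν ≤ 72 * t ^ (b / 2) := by
  set f : ℝ → ℝ := fun y => Real.exp (-(x - y) ^ 2 / (4 * t)) with hf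
  have hfc : Continuous f := by rw [hf]; fun_prop
  have hf1 : ∀ y, f y ≤ 1 := by
    intro y
    rw [hf]
    simp only
    rw [Real.exp_le_one_iff]
    apply div_nonpos_of_nonpos_of_nonneg
    · nlinarith [sq_nonneg (x - y)]
    · positivity
  have hlay := lintegral_eq_lintegral_meas_lt ν (f := f)
    (Eventually.of_forall fun y => (Real.exp_pos _).le) hfc.measurable.aemeasurable
  have hb : ∀ s ∈ Ioi (0:ℝ), ν {y | s < f y} ≤
      (Ioc (0:ℝ) 1).indicator (fun s => ENNReal.ofReal (36 * t ^ (b / 2) * s ^ (-(1/2) : ℝ))) s := by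
    intro s hs
    have hs0 : 0 < s := hs
    rcases le_or_gt 1 s with h1 | h1
    · have : {y | s < f y} = ∅ := by
        ext y
        simp only [mem_setOf_eq, mem_empty_iff_false, iff_false, not_lt]
        exact (hf1 y).trans h1
      rw [this, measure_empty]
      exact zero_le
    · rw [indicator_of_mem (show s ∈ Ioc (0:ℝ) 1 from ⟨hs0, h1.le⟩)]
      set L : ℝ := Real.log (1 / s) with hL
      have hL0 : 0 < L := Real.log_pos (by rw [lt_div_iff₀ hs0]; linarith)
      set r : ℝ := 2 * Real.sqrt (t * L) with hr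
      have hr0 : 0 < r := by positivity
      have hsub : {y | s < f y} ⊆ Icc (x - r) (x - r + 2 * r) := by
        intro y hy
        simp only [mem_setOf_eq, hf] at hy
        have h2 : Real.log s < -(x - y) ^ 2 / (4 * t) := by
          rw [← Real.log_exp (-(x - y) ^ 2 / (4 * t))]
          exact Real.log_lt_log hs0 hy
        have h3 : Real.log s = -L := by rw [hL, one_div, Real.log_inv]; ring
        rw [h3, lt_div_iff₀ (by positivity)] at h2
        have h4 : (x - y) ^ 2 ≤ r ^ 2 := by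
          rw [hr, mul_pow, Real.sq_sqrt (by positivity)]
          nlinarith
        have h5 := abs_le_of_sq_le_sq' h4 hr0.le
        constructor <;> linarith [h5.1, h5.2]
      refine (measure_mono hsub).trans ((hν (x - r) (2 * r) (by positivity)).trans ?_)
      apply ENNReal.ofReal_le_ofReal
      have e1 : (2 * r) ^ b = 4 ^ b * t ^ (b / 2) * L ^ (b / 2) := by
        have : 2 * r = 4 * (Real.sqrt t * Real.sqrt L) := by
          rw [hr, Real.sqrt_mul ht.le]; ring
        rw [this, Real.mul_rpow (by norm_num) (by positivity),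
          Real.mul_rpow (by positivity) (by positivity), Real.sqrt_eq_rpow, Real.sqrt_eq_rpow,
          ← Real.rpow_mul ht.le, ← Real.rpow_mul hL0.le, mul_assoc]
        congr 3 <;> ring
      have e2 : (4:ℝ) ^ b ≤ 4 := by
        calc (4:ℝ) ^ b ≤ 4 ^ (1:ℝ) := Real.rpow_le_rpow_of_exponent_le (by norm_num) hb1.le
          _ = 4 := Real.rpow_one _
      have e3 : L ^ (b / 2) ≤ s ^ (-(1/2) : ℝ) := by
        have h6 : L ≤ 1 / s := (Real.log_le_sub_one_of_pos (by positivity)).trans (by linarith)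
        have h7 : 1 ≤ 1 / s := by rw [le_div_iff₀ hs0]; linarith
        calc L ^ (b / 2) ≤ (1 / s) ^ (b / 2) := Real.rpow_le_rpow hL0.le h6 (by positivity)
          _ ≤ (1 / s) ^ ((1:ℝ) / 2) := Real.rpow_le_rpow_of_exponent_le h7 (by linarith)
          _ = s ^ (-(1/2) : ℝ) := by
            rw [one_div, Real.inv_rpow hs0.le, Real.rpow_neg hs0.le]
      rw [e1]
      have ht2 : 0 < t ^ (b / 2) := Real.rpow_pos_of_pos ht _
      have hL2 : 0 ≤ L ^ (b / 2) := Real.rpow_nonneg hL0.le _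
      calc 9 * (4 ^ b * t ^ (b / 2) * L ^ (b / 2))
          ≤ 9 * (4 * t ^ (b / 2) * s ^ (-(1/2) : ℝ)) := by gcongr
        _ = 36 * t ^ (b / 2) * s ^ (-(1/2) : ℝ) := by ring
  have hint : IntegrableOn (fun s : ℝ => s ^ (-(1/2) : ℝ)) (Ioc 0 1) := by
    have := (intervalIntegral.intervalIntegrable_rpow' (a := 0) (b := 1) (r := -(1/2))
      (by norm_num))
    rwa [intervalIntegrable_iff_integrableOn_Ioc_of_le zero_le_one] at this
  have hval : ∫ s in Ioc (0:ℝ) 1, s ^ (-(1/2) : ℝ) = 2 := by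
    rw [← intervalIntegral.integral_of_le zero_le_one, integral_rpow (Or.inl (by norm_num))]
    norm_num
  have hupper : ∫⁻ y, ENNReal.ofReal (f y) ∂ν ≤ ENNReal.ofReal (72 * t ^ (b / 2)) := by
    rw [hlay]
    calc ∫⁻ s in Ioi (0:ℝ), ν {y | s < f y}
        ≤ ∫⁻ s in Ioi (0:ℝ), (Ioc (0:ℝ) 1).indicator
          (fun s => ENNReal.ofReal (36 * t ^ (b / 2) * s ^ (-(1/2) : ℝ))) s := by
          apply setLIntegral_mono' measurableSet_Ioi hb
      _ ≤ ∫⁻ s, (Ioc (0:ℝ) 1).indicator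
          (fun s => ENNReal.ofReal (36 * t ^ (b / 2) * s ^ (-(1/2) : ℝ))) s :=
          setLIntegral_le_lintegral _ _
      _ = ∫⁻ s in Ioc (0:ℝ) 1, ENNReal.ofReal (36 * t ^ (b / 2) * s ^ (-(1/2) : ℝ)) :=
          lintegral_indicator measurableSet_Ioc _
      _ = ENNReal.ofReal (∫ s in Ioc (0:ℝ) 1, 36 * t ^ (b / 2) * s ^ (-(1/2) : ℝ)) := by
          rw [ofReal_integral_eq_lintegral_ofReal (hint.const_mul _)]
          rw [EventuallyLE, ae_restrict_iff' measurableSet_Ioc]
          refine Eventually.of_forall fun s hs => ?_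
          have : 0 ≤ s ^ (-(1/2) : ℝ) := Real.rpow_nonneg hs.1.le _
          have : 0 < t ^ (b / 2) := Real.rpow_pos_of_pos ht _
          simp only [Pi.zero_apply]
          positivity
      _ = ENNReal.ofReal (72 * t ^ (b / 2)) := by
          rw [integral_const_mul, hval]
          congr 1
          ring
  rw [integral_eq_lintegral_of_nonneg_ae (Eventually.of_forall fun y => (Real.exp_pos _).le)
    hfc.aestronglyMeasurable]
  apply ENNReal.toReal_le_of_le_ofReal _ hupper
  have : 0 < t ^ (b / 2) := Real.rpow_pos_of_pos ht _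
  positivity

end

end Pool.Agent.V11282.LZ
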