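import Mathlib
import Pool.Agent.V11282.LZ.Low
import Pool.Agent.V11282.LZ.Meas

/-!
The case `β < d`: product measures.
-/

set_option autoImplicit false

open MeasureTheory Set Finset Filter Topology
open scoped ENNReal

namespace Pool.Agent.V11282.LZ

noncomputable section

/-- the Jordan decomposition of a positive measure -/
def posJ {d : ℕ} (Φ : Measure (Fin d → ℝ)) [IsFiniteMeasure Φ] :
    JordanDecomposition (Fin d → ℝ) where
  posPart := Φ
  negPart := 0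
  mutuallySingular := Measure.MutuallySingular.zero_right

lemma posJ_spec {d : ℕ} (Φ : Measure (Fin d → ℝ)) [IsFiniteMeasure Φ] :
    (Φ.toSignedMeasure).toJordanDecomposition = posJ Φ := by
  apply SignedMeasure.toJordanDecomposition_eq
  unfold JordanDecomposition.toSignedMeasure posJ
  simp

lemma sI_pos {d : ℕ} (Φ : Measure (Fin d → ℝ)) [IsFiniteMeasure Φ] (F : (Fin d → ℝ) → ℂ) :
    sI Φ.toSignedMeasure F = ∫ x, F x ∂Φ := by
  unfold sI
  rw [posJ_spec]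
  simp [posJ]

lemma tv_pos {d : ℕ} (Φ : Measure (Fin d → ℝ)) [IsProbabilityMeasure Φ] :
    tv Φ.toSignedMeasure = 1 := by
  unfold tv SignedMeasure.totalVariation
  rw [posJ_spec]
  simp [posJ]

lemma exp_dp {d : ℕ} (x ξ : Fin d → ℝ) :
    Complex.exp ((-(2 * Real.pi * dp x ξ) : ℝ) * Complex.I) = ∏ j, ee (x j * ξ j) := by
  unfold ee dp
  rw [← Complex.exp_sum]
  congr 1
  rw [← Finset.sum_mul]
  congr 1
  push_cast
  rw [Finset.mul_sum, ← Finset.sum_neg_distrib]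

lemma hk_prod {d : ℕ} (t : ℝ) (ht : 0 < t) (x : Fin d → ℝ) :
    hk t x = ∏ j, ((4 * Real.pi * t) ^ (-(1:ℝ) / 2) * Real.exp (-(x j) ^ 2 / (4 * t))) := by
  have hpi := Real.pi_pos
  unfold hk en
  rw [Finset.prod_mul_distrib, Finset.prod_const, ← Real.exp_sum, Finset.card_univ,
    Fintype.card_fin, ← Real.rpow_natCast ((4 * Real.pi * t) ^ (-(1:ℝ) / 2)) d,
    ← Real.rpow_mul (by positivity), Real.sq_sqrt (Finset.sum_nonneg fun _ _ => sq_nonneg _)]
  congr 2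
  · ring
  · rw [← Finset.sum_div, Finset.sum_neg_distrib]

lemma ft_pi {d : ℕ} (ν : Measure ℝ) [IsProbabilityMeasure ν] (ξ : Fin d → ℝ) :
    ft (Measure.pi (fun _ : Fin d => ν)).toSignedMeasure ξ = ∏ j, ∫ x, ee (x * ξ j) ∂ν := by
  unfold ft
  rw [sI_pos]
  simp_rw [exp_dp]
  exact integral_fintype_prod_eq_prod (fun (j : Fin d) (x : ℝ) => ee (x * ξ j))

lemma besov_pi {d : ℕ} (hd : 1 ≤ d) (β : ℝ) (hβ0 : 0 < β) (hβ : β < d) (ν : Measure ℝ)
    [IsProbabilityMeasure ν]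
    (hν : ∀ x l, 0 < l → ν (Icc x (x + l)) ≤ ENNReal.ofReal (9 * l ^ (β / d))) :
    besov β (Measure.pi (fun _ : Fin d => ν)).toSignedMeasure ≤ ENNReal.ofReal (72 ^ d) := by
  have hpi := Real.pi_pos
  have hdr : (0:ℝ) < d := by exact_mod_cast hd
  unfold besov
  refine iSup_le fun t => iSup_le fun ht => iSup_le fun x => ?_
  apply ENNReal.ofReal_le_ofReal
  rw [sI_pos]
  have hb0 : 0 < β / d := by positivity
  have hb1 : β / d < 1 := by rw [div_lt_one hdr]; exact hβ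
  have e1 : ∫ y, ((hk t (x - y) : ℝ) : ℂ) ∂(Measure.pi (fun _ : Fin d => ν))
      = ((∏ j, ∫ y, ((4 * Real.pi * t) ^ (-(1:ℝ) / 2) * Real.exp (-(x j - y) ^ 2 / (4 * t))) ∂ν : ℝ) : ℂ)
      := by
    rw [integral_complex_ofReal]
    congr 1
    simp_rw [hk_prod t ht]
    exact integral_fintype_prod_eq_prod (𝕜 := ℝ) (fun (j : Fin d) (y : ℝ) =>
      (4 * Real.pi * t) ^ (-(1:ℝ) / 2) * Real.exp (-(x j - y) ^ 2 / (4 * t)))
  rw [e1, Complex.norm_real, Real.norm_eq_abs, Finset.abs_prod]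
  have h1 : ∀ j, |∫ y, ((4 * Real.pi * t) ^ (-(1:ℝ) / 2) * Real.exp (-(x j - y) ^ 2 / (4 * t))) ∂ν|
      ≤ 72 * t ^ ((β / d - 1) / 2) := by
    intro j
    rw [integral_const_mul, abs_mul]
    have h2 := heat1 ν (β / d) hb0 hb1 hν t ht (x j)
    have h3 : 0 ≤ ∫ y, Real.exp (-(x j - y) ^ 2 / (4 * t)) ∂ν :=
      integral_nonneg fun _ => (Real.exp_pos _).le
    rw [abs_of_nonneg h3, abs_of_nonneg (by positivity)]
    have h4 : (4 * Real.pi * t) ^ (-(1:ℝ) / 2) ≤ t ^ (-(1:ℝ) / 2) := by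
      apply Real.rpow_le_rpow_of_nonpos ht _ (by norm_num)
      have := Real.pi_gt_three
      nlinarith
    calc (4 * Real.pi * t) ^ (-(1:ℝ) / 2) * ∫ y, Real.exp (-(x j - y) ^ 2 / (4 * t)) ∂ν
        ≤ t ^ (-(1:ℝ) / 2) * (72 * t ^ (β / d / 2)) := by gcongr
      _ = 72 * (t ^ (-(1:ℝ) / 2) * t ^ (β / d / 2)) := by ring
      _ = 72 * t ^ ((β / d - 1) / 2) := by
        rw [← Real.rpow_add ht]
        congr 2
        ring
  have ht0 : 0 < t ^ (((d : ℝ) - β) / 2) := Real.rpow_pos_of_pos ht _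
  calc t ^ (((d : ℝ) - β) / 2) * ∏ j, |∫ y, ((4 * Real.pi * t) ^ (-(1:ℝ) / 2)
        * Real.exp (-(x j - y) ^ 2 / (4 * t))) ∂ν|
      ≤ t ^ (((d : ℝ) - β) / 2) * ∏ _j : Fin d, (72 * t ^ ((β / d - 1) / 2)) := by
        gcongr with j _
        exact h1 j
    _ = 72 ^ d := by
        rw [Finset.prod_const, Finset.card_univ, Fintype.card_fin, mul_pow,
          ← Real.rpow_natCast (t ^ ((β / d - 1) / 2)), ← Real.rpow_mul ht.le]
        have e : t ^ (((d : ℝ) - β) / 2) * t ^ ((β / d - 1) / 2 * d) = 1 := by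
          rw [← Real.rpow_add ht]
          have : ((d : ℝ) - β) / 2 + (β / d - 1) / 2 * d = 0 := by field_simp; ring
          rw [this, Real.rpow_zero]
        calc t ^ (((d : ℝ) - β) / 2) * (72 ^ d * t ^ ((β / d - 1) / 2 * d))
            = 72 ^ d * (t ^ (((d : ℝ) - β) / 2) * t ^ ((β / d - 1) / 2 * d)) := by ring
          _ = 72 ^ d := by rw [e, mul_one]

lemma caseA_N {d : ℕ} (hd : 1 ≤ d) (α β q : ℝ) (hα : 0 < α) (hβ0 : 0 < β) (hβ : β < d)
    (hq : 1 ≤ q) (N : ℕ) : ∃ s : SignedMeasure (Fin d → ℝ),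
      tv s + besov β s ≤ ENNReal.ofReal (1 + 72 ^ d) ∧
      ENNReal.ofReal (N * ((cst d α β ((1 / 20) ^ d)) ^ q / 2)) ^ (1 / q)
        ≤ lor (2 * d / (2 * α + β)) q (riesz α s) := by
  have hdr : (0:ℝ) < d := by exact_mod_cast hd
  have hb0 : 0 < β / d := by positivity
  have hb1 : β / d < 1 := by rw [div_lt_one hdr]; exact hβ
  obtain ⟨ν, hνp, hν, R, hR, h2, hset⟩ := oneD (β / d) hb0 hb1 N
  refine ⟨(Measure.pi (fun _ : Fin d => ν)).toSignedMeasure, ?_, ?_⟩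
  · rw [tv_pos, ENNReal.ofReal_add (by norm_num) (by positivity), ENNReal.ofReal_one]
    gcongr
    exact besov_pi hd β hβ0 hβ ν hν
  · apply riesz_lower hd α β q hα hβ0 hq _ N R ((1 / 20) ^ d) (by positivity) hR h2
    intro i hi
    have hRi := hR i hi
    calc ENNReal.ofReal ((R i / 24) ^ d) = ∏ _j : Fin d, ENNReal.ofReal (R i / 24) := by
          rw [Finset.prod_const, Finset.card_univ, Fintype.card_fin,
            ENNReal.ofReal_pow (by positivity)]
      _ ≤ ∏ _j : Fin d, volume {ξ : ℝ | 0 ≤ ξ ∧ ξ ≤ R i ∧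
          1 / 20 * (R i) ^ (-(β / d) / 2) ≤ ‖∫ x, ee (x * ξ) ∂ν‖} :=
          Finset.prod_le_prod' fun _ _ => hset i hi
      _ = volume (Set.pi univ fun _j : Fin d => {ξ : ℝ | 0 ≤ ξ ∧ ξ ≤ R i ∧
          1 / 20 * (R i) ^ (-(β / d) / 2) ≤ ‖∫ x, ee (x * ξ) ∂ν‖}) :=
          (volume_pi_pi _).symm
      _ ≤ _ := by
        apply measure_mono
        intro ξ hξ
        simp only [Set.mem_pi, Set.mem_univ, forall_const, Set.mem_setOf_eq] at hξ
        refine ⟨fun j => ⟨(hξ j).1, (hξ j).2.1⟩, ?_⟩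
        rw [ft_pi, norm_prod]
        calc (1 / 20) ^ d * R i ^ (-β / 2)
            = ∏ _j : Fin d, (1 / 20 * (R i) ^ (-(β / d) / 2)) := by
              rw [Finset.prod_const, Finset.card_univ, Fintype.card_fin, mul_pow,
                ← Real.rpow_natCast ((R i) ^ (-(β / d) / 2)), ← Real.rpow_mul hRi.le]
              congr 2
              field_simp
          _ ≤ ∏ j, ‖∫ x, ee (x * ξ j) ∂ν‖ := by
              apply Finset.prod_le_prod
              · intro j _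
                positivity
              · intro j _
                exact (hξ j).2.2

lemma tendsto_lower (q : ℝ) (hq : 1 ≤ q) (c : ℝ) (hc : 0 < c) :
    Tendsto (fun N : ℕ => ENNReal.ofReal (N * c) ^ (1 / q)) atTop (𝓝 ⊤) := by
  have h1 : Tendsto (fun N : ℕ => ENNReal.ofReal (N * c)) atTop (𝓝 ⊤) := by
    apply ENNReal.tendsto_ofReal_atTop.comp
    exact tendsto_natCast_atTop_atTop.atTop_mul_const hc
  have h2 := (ENNReal.continuous_rpow_const (y := 1 / q)).tendsto ⊤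
  rw [ENNReal.top_rpow_of_pos (by positivity)] at h2
  exact h2.comp h1

theorem caseA {d : ℕ} (hd : 1 ≤ d) (α β q : ℝ) (hα : 0 < α) (hβ0 : 0 < β) (hβ : β < d)
    (hq : 1 ≤ q) : ∃ Φ : ℕ → SignedMeasure (Fin d → ℝ),
      (∀ N, tv (Φ N) + besov β (Φ N) ≤ ENNReal.ofReal (1 + 72 ^ d)) ∧
      Tendsto (fun N => lor (2 * d / (2 * α + β)) q (riesz α (Φ N))) atTop (𝓝 ⊤) := by
  choose Φ h1 h2 using caseA_N hd α β q hα hβ0 hβ hq
  refine ⟨Φ, h1, ?_⟩
  refine tendsto_nhds_top_mono (tendsto_lower q hq ((cst d α β ((1 / 20) ^ d)) ^ q / 2) ?_)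
    (Eventually.of_forall h2)
  have := cst_pos d hd α β ((1 / 20) ^ d) (by positivity)
  positivity

end

end Pool.Agent.V11282.LZ
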