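import Mathlib
import Pool.Agent.V11282.LZ.CaseA

/-!
Plancherel bound for signed measures with bounded density (case `β = d`).
-/

set_option autoImplicit false

open MeasureTheory Set Finset Filter Topology
open scoped ENNReal ComplexConjugate

namespace Pool.Agent.V11282.LZ

noncomputable section

/-- the character -/
def ech {d : ℕ} (x ξ : Fin d → ℝ) : ℂ := Complex.exp ((-(2 * Real.pi * dp x ξ) : ℝ) * Complex.I)

lemma ech_norm {d : ℕ} (x ξ : Fin d → ℝ) : ‖ech x ξ‖ = 1 := by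
  unfold ech
  exact Complex.norm_exp_ofReal_mul_I _

lemma dp_cont {d : ℕ} : Continuous (fun z : (Fin d → ℝ) × (Fin d → ℝ) => dp z.1 z.2) := by
  unfold dp
  fun_prop

lemma ech_cont {d : ℕ} : Continuous (fun z : (Fin d → ℝ) × (Fin d → ℝ) => ech z.1 z.2) := by
  unfold ech
  have := dp_cont (d := d)
  fun_prop

lemma ech_cont1 {d : ℕ} (ξ : Fin d → ℝ) : Continuous (fun x : Fin d → ℝ => ech x ξ) :=
  ech_cont.comp (Continuous.prodMk_left ξ)

lemma ech_cont2 {d : ℕ} (x : Fin d → ℝ) : Continuous (fun ξ : Fin d → ℝ => ech x ξ) :=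
  ech_cont.comp (Continuous.prodMk_right x)

lemma ech_sub {d : ℕ} (x y ξ : Fin d → ℝ) : ech x ξ * conj (ech y ξ) = ech (x - y) ξ := by
  unfold ech
  rw [← Complex.exp_conj, ← Complex.exp_add]
  congr 1
  have : dp (x - y) ξ = dp x ξ - dp y ξ := by
    unfold dp
    rw [← Finset.sum_sub_distrib]
    apply Finset.sum_congr rfl
    intro i _
    simp only [Pi.sub_apply]
    ring
  rw [this, map_mul, Complex.conj_ofReal, Complex.conj_I]
  push_cast
  ring

lemma ft_eq {d : ℕ} (s : SignedMeasure (Fin d → ℝ)) (ξ : Fin d → ℝ) :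
    ft s ξ = sI s (fun x => ech x ξ) := rfl

lemma sI_mul {d : ℕ} (s : SignedMeasure (Fin d → ℝ)) (c : ℂ) (F : (Fin d → ℝ) → ℂ) :
    sI s (fun x => c * F x) = c * sI s F := by
  unfold sI
  rw [integral_const_mul, integral_const_mul, mul_sub]

lemma sI_conj {d : ℕ} (s : SignedMeasure (Fin d → ℝ)) (F : (Fin d → ℝ) → ℂ) :
    sI s (fun x => conj (F x)) = conj (sI s F) := by
  unfold sI
  rw [integral_conj, integral_conj, map_sub]

lemma tv_real {d : ℕ} (s : SignedMeasure (Fin d → ℝ)) :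
    (tv s).toReal = s.toJordanDecomposition.posPart.real univ
      + s.toJordanDecomposition.negPart.real univ := by
  unfold tv SignedMeasure.totalVariation
  rw [Measure.add_apply, ENNReal.toReal_add (measure_ne_top _ _) (measure_ne_top _ _)]
  rfl

lemma tv_ne_top {d : ℕ} (s : SignedMeasure (Fin d → ℝ)) : tv s ≠ ⊤ := by
  unfold tv SignedMeasure.totalVariation
  rw [Measure.add_apply]
  exact ENNReal.add_ne_top.mpr ⟨measure_ne_top _ _, measure_ne_top _ _⟩

lemma norm_sI_le {d : ℕ} (s : SignedMeasure (Fin d → ℝ)) (F : (Fin d → ℝ) → ℂ) (C : ℝ)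
    (h : ∀ x, ‖F x‖ ≤ C) : ‖sI s F‖ ≤ C * (tv s).toReal := by
  unfold sI
  rw [tv_real, mul_add]
  refine (norm_sub_le _ _).trans ?_
  apply add_le_add
  · exact norm_integral_le_of_norm_le_const (Eventually.of_forall h)
  · exact norm_integral_le_of_norm_le_const (Eventually.of_forall h)

lemma ft_norm {d : ℕ} (s : SignedMeasure (Fin d → ℝ)) (ξ : Fin d → ℝ) :
    ‖ft s ξ‖ ≤ (tv s).toReal := by
  rw [ft_eq]
  have := norm_sI_le s (fun x => ech x ξ) 1 (fun x => (ech_norm x ξ).le)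
  linarith

lemma ft_cont {d : ℕ} (s : SignedMeasure (Fin d → ℝ)) : Continuous (ft s) := by
  have h : ∀ P : Measure (Fin d → ℝ), IsFiniteMeasure P →
      Continuous (fun ξ => ∫ x, ech x ξ ∂P) := by
    intro P hP
    apply continuous_of_dominated (bound := fun _ => 1)
    · intro ξ
      exact (ech_cont1 ξ).aestronglyMeasurable
    · intro ξ
      exact Eventually.of_forall fun x => (ech_norm x ξ).le
    · exact integrable_const 1
    · exact Eventually.of_forall fun x => ech_cont2 x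
  have e : ft s = fun ξ => ∫ x, ech x ξ ∂s.toJordanDecomposition.posPart
      - ∫ x, ech x ξ ∂s.toJordanDecomposition.negPart := rfl
  rw [e]
  exact (h _ inferInstance).sub (h _ inferInstance)

/-- Fubini -/
lemma fub {d : ℕ} (s : SignedMeasure (Fin d → ℝ)) (K : (Fin d → ℝ) → (Fin d → ℝ) → ℂ)
    (hK : Continuous (Function.uncurry K)) (g : (Fin d → ℝ) → ℝ) (hg : Integrable g)
    (hb : ∀ ξ x, ‖K ξ x‖ ≤ g ξ) :
    ∫ ξ, sI s (K ξ) = sI s (fun x => ∫ ξ, K ξ x) := by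
  have h : ∀ P : Measure (Fin d → ℝ), IsFiniteMeasure P →
      Integrable (Function.uncurry K) (volume.prod P) := by
    intro P hP
    refine Integrable.mono' (hg.comp_fst P) hK.aestronglyMeasurable ?_
    exact Eventually.of_forall fun z => hb z.1 z.2
  unfold sI
  rw [integral_sub]
  · rw [integral_integral_swap (h _ inferInstance), integral_integral_swap (h _ inferInstance)]
  · exact (h s.toJordanDecomposition.posPart inferInstance).integral_prod_left
  · exact (h s.toJordanDecomposition.negPart inferInstance).integral_prod_left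

lemma gauss1 (τ : ℝ) (hτ : 0 < τ) (z : ℝ) :
    ∫ u : ℝ, (Real.exp (-(4 * Real.pi ^ 2 * τ * u ^ 2)) : ℂ) * ee (z * u)
      = (((4 * Real.pi * τ) ^ (-(1:ℝ) / 2) * Real.exp (-z ^ 2 / (4 * τ)) : ℝ) : ℂ) := by
  have hpi := Real.pi_pos
  have hb : 0 < ((4 * Real.pi ^ 2 * τ : ℝ) : ℂ).re := by
    rw [Complex.ofReal_re]
    positivity
  have h := fourierIntegral_gaussian hb ((-(2 * Real.pi * z) : ℝ) : ℂ)
  have e1 : ∀ u : ℝ, (Real.exp (-(4 * Real.pi ^ 2 * τ * u ^ 2)) : ℂ) * ee (z * u)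
      = Complex.exp (Complex.I * ((-(2 * Real.pi * z) : ℝ) : ℂ) * u)
        * Complex.exp (-((4 * Real.pi ^ 2 * τ : ℝ) : ℂ) * u ^ 2) := by
    intro u
    unfold ee
    rw [mul_comm, Complex.ofReal_exp]
    congr 2
    · push_cast
      ring
    · push_cast
      ring
  simp_rw [e1]
  rw [h]
  have e2 : (Real.pi : ℂ) / ((4 * Real.pi ^ 2 * τ : ℝ) : ℂ)
      = (((4 * Real.pi * τ)⁻¹ : ℝ) : ℂ) := by
    rw [← Complex.ofReal_div]
    congr 1
    field_simp
  rw [e2]
  have e3 : ((((4 * Real.pi * τ)⁻¹ : ℝ) : ℂ)) ^ (1 / 2 : ℂ)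
      = (((4 * Real.pi * τ) ^ (-(1:ℝ) / 2) : ℝ) : ℂ) := by
    have : (1 / 2 : ℂ) = ((1 / 2 : ℝ) : ℂ) := by push_cast; ring
    rw [this, ← Complex.ofReal_cpow (by positivity)]
    congr 1
    rw [Real.inv_rpow (by positivity), ← Real.rpow_neg (by positivity)]
    congr 1
    ring
  rw [e3, Complex.ofReal_mul ((4 * Real.pi * τ) ^ (-(1:ℝ) / 2)) _, Complex.ofReal_exp]
  congr 2
  rw [← Complex.ofReal_pow, ← Complex.ofReal_neg, ← Complex.ofReal_ofNat, ← Complex.ofReal_mul,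
    ← Complex.ofReal_div]
  congr 1
  field_simp
  ring

/-- the Gaussian weight -/
def gw {d : ℕ} (τ : ℝ) (ξ : Fin d → ℝ) : ℝ := Real.exp (-(4 * Real.pi ^ 2 * τ * (en ξ) ^ 2))

lemma gw_nonneg {d : ℕ} (τ : ℝ) (ξ : Fin d → ℝ) : 0 ≤ gw τ ξ := (Real.exp_pos _).le

lemma gw_prod {d : ℕ} (τ : ℝ) (ξ : Fin d → ℝ) :
    gw τ ξ = ∏ j, Real.exp (-(4 * Real.pi ^ 2 * τ * (ξ j) ^ 2)) := by
  unfold gw en
  rw [Real.sq_sqrt (Finset.sum_nonneg fun _ _ => sq_nonneg _), ← Real.exp_sum,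
    Finset.mul_sum, Finset.sum_neg_distrib]

lemma en_cont {d : ℕ} : Continuous (en : (Fin d → ℝ) → ℝ) := by
  unfold en
  fun_prop

lemma gw_cont {d : ℕ} (τ : ℝ) : Continuous (gw (d := d) τ) := by
  unfold gw
  have := en_cont (d := d)
  fun_prop

lemma gw_int {d : ℕ} (τ : ℝ) (hτ : 0 < τ) : Integrable (gw (d := d) τ) := by
  have hpi := Real.pi_pos
  have e : gw (d := d) τ = fun ξ => ∏ j, Real.exp (-(4 * Real.pi ^ 2 * τ) * (ξ j) ^ 2) := by
    funext ξ
    rw [gw_prod]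
    apply Finset.prod_congr rfl
    intro j _
    congr 1
    ring
  rw [e]
  exact Integrable.fintype_prod (fun _ => integrable_exp_neg_mul_sq (by positivity))

lemma gaussd {d : ℕ} (τ : ℝ) (hτ : 0 < τ) (z : Fin d → ℝ) :
    ∫ ξ : Fin d → ℝ, (gw τ ξ : ℂ) * ech z ξ = (hk τ z : ℂ) := by
  rw [hk_prod τ hτ, Complex.ofReal_prod]
  simp_rw [← gauss1 τ hτ]
  rw [← integral_fintype_prod_volume_eq_prod (fun (j : Fin d) (u : ℝ) =>
    (Real.exp (-(4 * Real.pi ^ 2 * τ * u ^ 2)) : ℂ) * ee (z j * u))]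
  congr 1
  funext ξ
  rw [gw_prod, Finset.prod_mul_distrib, Complex.ofReal_prod]
  congr 1
  exact exp_dp z ξ

lemma hk_symm {d : ℕ} (t : ℝ) (x y : Fin d → ℝ) : hk t (x - y) = hk t (y - x) := by
  unfold hk en
  congr 3
  congr 2
  congr 1
  apply Finset.sum_congr rfl
  intro i _
  simp only [Pi.sub_apply]
  ring

/-- the energy identity -/
lemma energy {d : ℕ} (s : SignedMeasure (Fin d → ℝ)) (τ : ℝ) (hτ : 0 < τ) :
    ∫ ξ, (gw τ ξ : ℂ) * (ft s ξ * conj (ft s ξ))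
      = sI s (fun y => sI s (fun x => (hk τ (y - x) : ℂ))) := by
  have hgc : Continuous (fun ξ : Fin d → ℝ => (gw τ ξ : ℂ)) :=
    Complex.continuous_ofReal.comp (gw_cont τ)
  have e1 : ∀ ξ : Fin d → ℝ, (gw τ ξ : ℂ) * (ft s ξ * conj (ft s ξ))
      = sI s (fun y => (gw τ ξ : ℂ) * ft s ξ * conj (ech y ξ)) := by
    intro ξ
    rw [sI_mul, sI_conj, ← ft_eq]
    ring
  simp_rw [e1]
  rw [fub s (fun ξ y => (gw τ ξ : ℂ) * ft s ξ * conj (ech y ξ)) ?_
    (fun ξ => gw τ ξ * (tv s).toReal) ((gw_int τ hτ).mul_const _) ?_]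
  · congr 1
    funext y
    have e2 : ∀ ξ : Fin d → ℝ, (gw τ ξ : ℂ) * ft s ξ * conj (ech y ξ)
        = sI s (fun x => (gw τ ξ : ℂ) * ech (x - y) ξ) := by
      intro ξ
      have : (fun x => (gw τ ξ : ℂ) * ech (x - y) ξ)
          = fun x => ((gw τ ξ : ℂ) * conj (ech y ξ)) * ech x ξ := by
        funext x
        rw [← ech_sub]
        ring
      rw [this, sI_mul, ← ft_eq]
      ring
    simp_rw [e2]
    rw [fub s (fun ξ x => (gw τ ξ : ℂ) * ech (x - y) ξ) ?_ (gw τ) (gw_int τ hτ) ?_]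
    · congr 1
      funext x
      rw [gaussd τ hτ, hk_symm]
    · apply Continuous.mul
      · exact hgc.comp continuous_fst
      · exact ech_cont.comp ((continuous_snd.sub continuous_const).prodMk continuous_fst)
    · intro ξ x
      rw [norm_mul, ech_norm, mul_one, Complex.norm_real, Real.norm_eq_abs,
        abs_of_nonneg (gw_nonneg τ ξ)]
  · apply Continuous.mul
    · exact (hgc.comp continuous_fst).mul ((ft_cont s).comp continuous_fst)
    · exact Complex.continuous_conj.comp (ech_cont.comp (continuous_snd.prodMk continuous_fst))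
  · intro ξ y
    rw [norm_mul, norm_mul, Complex.norm_conj, ech_norm, mul_one, Complex.norm_real,
      Real.norm_eq_abs, abs_of_nonneg (gw_nonneg τ ξ)]
    have := ft_norm s ξ
    have h0 : 0 < gw τ ξ := Real.exp_pos _
    exact mul_le_mul_of_nonneg_left this h0.le

/-- Plancherel bound -/
theorem planch {d : ℕ} (s : SignedMeasure (Fin d → ℝ)) (C : ℝ) (hC : 0 ≤ C)
    (hs : tv s + besov d s ≤ ENNReal.ofReal C) :
    ∫⁻ ξ, ENNReal.ofReal (‖ft s ξ‖ ^ 2) ≤ ENNReal.ofReal (C ^ 2) := by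
  have htv : (tv s).toReal ≤ C := by
    apply ENNReal.toReal_le_of_le_ofReal hC
    exact le_self_add.trans hs
  have hbes : ∀ t : ℝ, 0 < t → ∀ x : Fin d → ℝ, ‖sI s (fun y => (hk t (x - y) : ℂ))‖ ≤ C := by
    intro t ht x
    have h1 : besov d s ≤ ENNReal.ofReal C := le_add_self.trans hs
    unfold besov at h1
    have h2 := (iSup_le_iff.mp ((iSup_le_iff.mp ((iSup_le_iff.mp h1) t)) ht)) x
    rw [sub_self, zero_div, Real.rpow_zero, one_mul] at h2
    exact (ENNReal.ofReal_le_ofReal_iff hC).mp h2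
  have key : ∀ n : ℕ, ∫⁻ ξ, ENNReal.ofReal (gw (1 / ((n:ℝ) + 1)) ξ * ‖ft s ξ‖ ^ 2)
      ≤ ENNReal.ofReal (C ^ 2) := by
    intro n
    set τ : ℝ := 1 / ((n:ℝ) + 1) with hτdef
    have hτ : 0 < τ := by positivity
    have hint : Integrable (fun ξ => gw τ ξ * ‖ft s ξ‖ ^ 2) := by
      refine Integrable.mono' ((gw_int τ hτ).mul_const (C ^ 2)) ?_ ?_
      · exact ((gw_cont τ).mul ((ft_cont s).norm.pow 2)).aestronglyMeasurable
      · refine Eventually.of_forall fun ξ => ?_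
        have h0 : 0 < gw τ ξ := Real.exp_pos _
        have h1 : ‖ft s ξ‖ ^ 2 ≤ C ^ 2 :=
          pow_le_pow_left₀ (norm_nonneg _) ((ft_norm s ξ).trans htv) 2
        rw [Real.norm_eq_abs, abs_of_nonneg (by positivity)]
        exact mul_le_mul_of_nonneg_left h1 h0.le
    rw [← ofReal_integral_eq_lintegral_ofReal hint
      (Eventually.of_forall fun ξ => mul_nonneg (Real.exp_pos _).le (sq_nonneg _))]
    apply ENNReal.ofReal_le_ofReal
    have h3 := energy s τ hτ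
    have h4 : ∀ ξ, (gw τ ξ : ℂ) * (ft s ξ * conj (ft s ξ)) = ((gw τ ξ * ‖ft s ξ‖ ^ 2 : ℝ) : ℂ) := by
      intro ξ
      rw [Complex.mul_conj, Complex.normSq_eq_norm_sq]
      push_cast
      ring
    simp_rw [h4] at h3
    rw [integral_complex_ofReal] at h3
    have h5 : ‖sI s (fun y => sI s (fun x => (hk τ (y - x) : ℂ)))‖ ≤ C * (tv s).toReal :=
      norm_sI_le s _ C (fun y => hbes τ hτ y)
    rw [← h3, Complex.norm_real, Real.norm_eq_abs] at h5
    calc ∫ ξ, gw τ ξ * ‖ft s ξ‖ ^ 2 ≤ |∫ ξ, gw τ ξ * ‖ft s ξ‖ ^ 2| := le_abs_self _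
      _ ≤ C * (tv s).toReal := h5
      _ ≤ C * C := by gcongr
      _ = C ^ 2 := by ring
  have hlim : ∀ ξ : Fin d → ℝ, Tendsto (fun n : ℕ => ENNReal.ofReal
      (gw (1 / ((n:ℝ) + 1)) ξ * ‖ft s ξ‖ ^ 2)) atTop (𝓝 (ENNReal.ofReal (‖ft s ξ‖ ^ 2))) := by
    intro ξ
    apply ENNReal.tendsto_ofReal
    have h1 : Tendsto (fun n : ℕ => gw (1 / ((n:ℝ) + 1)) ξ) atTop (𝓝 1) := by
      have h2 : Tendsto (fun n : ℕ => -(4 * Real.pi ^ 2 * (1 / ((n:ℝ) + 1)) * (en ξ) ^ 2)) atTop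
          (𝓝 0) := by
        have := (tendsto_one_div_add_atTop_nhds_zero_nat (𝕜 := ℝ)).const_mul
          (-(4 * Real.pi ^ 2 * (en ξ) ^ 2))
        rw [mul_zero] at this
        refine this.congr fun n => ?_
        ring
      have h3 := (Real.continuous_exp.tendsto 0).comp h2
      rw [Real.exp_zero] at h3
      exact h3
    simpa using h1.mul_const (‖ft s ξ‖ ^ 2)
  calc ∫⁻ ξ, ENNReal.ofReal (‖ft s ξ‖ ^ 2)
      = ∫⁻ ξ, liminf (fun n : ℕ => ENNReal.ofReal
        (gw (1 / ((n:ℝ) + 1)) ξ * ‖ft s ξ‖ ^ 2)) atTop := by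
        apply lintegral_congr
        intro ξ
        exact (hlim ξ).liminf_eq.symm
    _ ≤ liminf (fun n : ℕ => ∫⁻ ξ, ENNReal.ofReal
        (gw (1 / ((n:ℝ) + 1)) ξ * ‖ft s ξ‖ ^ 2)) atTop := by
        apply lintegral_liminf_le
        intro n
        exact (((gw_cont _).mul ((ft_cont s).norm.pow 2)).measurable).ennreal_ofReal
    _ ≤ ENNReal.ofReal (C ^ 2) := by
        refine (liminf_le_liminf (Eventually.of_forall key)).trans ?_
        rw [liminf_const]

end

end Pool.Agent.V11282.LZ
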