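import Mathlib
import Pool.Agent.V11282.LZ.PZ
import Pool.Agent.V11282.LZ.Plan

/-!
Selection of signs on general spaces; Haar type functions and their Fourier transforms.
-/

set_option autoImplicit false

open MeasureTheory Finset
open scoped ENNReal

namespace Pool.Agent.V11282.LZ

noncomputable section

/-- selection of signs -/
lemma selectd {X : Type*} [TopologicalSpace X] [MeasurableSpace X] [OpensMeasurableSpace X]
    (μ : Measure X) {n : ℕ} (A : X → ℂ) (B : Fin n → X → ℂ) (hA : Continuous A)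
    (hB : ∀ j, Continuous (B j)) (Q : Set X) (hQ : MeasurableSet Q) (τ : ℝ)
    (h : ∀ ξ ∈ Q, τ ≤ ∑ j, ‖B j ξ‖ ^ 2) :
    ∃ s : Fin n → Bool, ENNReal.ofReal (1 / 12) * μ Q ≤
      μ {ξ : X | ξ ∈ Q ∧ τ / 2 ≤ ‖SS (A ξ) (fun j => B j ξ) s‖ ^ 2} := by
  classical
  set G : (Fin n → Bool) → Set X := fun s =>
    {ξ : X | ξ ∈ Q ∧ τ / 2 ≤ ‖SS (A ξ) (fun j => B j ξ) s‖ ^ 2} with hG
  have hGm : ∀ s, MeasurableSet (G s) := by
    intro s
    have hc : Continuous fun ξ => ‖SS (A ξ) (fun j => B j ξ) s‖ ^ 2 := by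
      unfold SS
      fun_prop
    exact hQ.inter (measurableSet_le measurable_const hc.measurable)
  by_contra hcon
  push Not at hcon
  have h1 : ∑ s, μ (G s) < ∑ _s : Fin n → Bool, ENNReal.ofReal (1 / 12) * μ Q := by
    apply ENNReal.sum_lt_sum_of_nonempty
    · exact Finset.univ_nonempty
    · intro s _
      exact hcon s
  have h2 : ∑ _s : Fin n → Bool, ENNReal.ofReal (1 / 12) * μ Q
      = ENNReal.ofReal ((2:ℝ) ^ n / 12) * μ Q := by
    rw [Finset.sum_const, Finset.card_univ, nsmul_eq_mul]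
    have : (Fintype.card (Fin n → Bool) : ENNReal) = ENNReal.ofReal ((2:ℝ) ^ n) := by
      simp [ENNReal.ofReal_pow]
    rw [this, ← mul_assoc, ← ENNReal.ofReal_mul (by positivity)]
    congr 2
    ring
  have h3 : ENNReal.ofReal ((2:ℝ) ^ n / 12) * μ Q ≤ ∑ s, μ (G s) := by
    calc ENNReal.ofReal ((2:ℝ) ^ n / 12) * μ Q
        = ∫⁻ _ξ in Q, ENNReal.ofReal ((2:ℝ) ^ n / 12) ∂μ := by
          rw [setLIntegral_const]
      _ ≤ ∫⁻ ξ in Q, ∑ s, (G s).indicator 1 ξ ∂μ := by
          apply setLIntegral_mono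
          · apply Finset.measurable_sum
            intro s _
            exact measurable_one.indicator (hGm s)
          · intro ξ hξ
            have h4 := pz (A ξ) (fun j => B j ξ)
            have h5 : (∑ s, (G s).indicator (1 : X → ENNReal) ξ)
                = ((Finset.univ.filter (fun s : Fin n → Bool => ξ ∈ G s)).card : ENNReal) := by
              rw [Finset.card_filter]
              push_cast
              apply Finset.sum_congr rfl
              intro s _
              rw [Set.indicator_apply]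
              rfl
            rw [h5]
            have h6 : (Finset.univ.filter (fun s : Fin n → Bool =>
                (‖A ξ‖ ^ 2 + ∑ j, ‖B j ξ‖ ^ 2) / 2 ≤ ‖SS (A ξ) (fun j => B j ξ) s‖ ^ 2)).card
                ≤ (Finset.univ.filter (fun s : Fin n → Bool => ξ ∈ G s)).card := by
              apply Finset.card_le_card
              intro s hs
              have hs2 := (Finset.mem_filter.mp hs).2
              rw [Finset.mem_filter]
              refine ⟨Finset.mem_univ _, hξ, ?_⟩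
              have := h ξ hξ
              have h0 : 0 ≤ ‖A ξ‖ ^ 2 := by positivity
              linarith
            have h7 : (2:ℝ) ^ n / 12 ≤
                ((Finset.univ.filter (fun s : Fin n → Bool => ξ ∈ G s)).card : ℝ) :=
              h4.trans (by exact_mod_cast h6)
            rw [← ENNReal.ofReal_natCast]
            exact ENNReal.ofReal_le_ofReal h7
      _ ≤ ∫⁻ ξ, ∑ s, (G s).indicator 1 ξ ∂μ := setLIntegral_le_lintegral _ _
      _ = ∑ s, μ (G s) := by
          rw [lintegral_finset_sum]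
          · apply Finset.sum_congr rfl
            intro s _
            exact lintegral_indicator_one (hGm s)
          · intro s _
            exact measurable_one.indicator (hGm s)
  rw [h2] at h1
  exact absurd (lt_of_le_of_lt h3 h1) (lt_irrefl _)

lemma selecti {X : Type*} [TopologicalSpace X] [MeasurableSpace X] [OpensMeasurableSpace X]
    (μ : Measure X) {ι : Type*} [Fintype ι] (A : X → ℂ) (B : ι → X → ℂ) (hA : Continuous A)
    (hB : ∀ j, Continuous (B j)) (Q : Set X) (hQ : MeasurableSet Q) (τ : ℝ)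
    (h : ∀ ξ ∈ Q, τ ≤ ∑ j, ‖B j ξ‖ ^ 2) :
    ∃ s : ι → Bool, ENNReal.ofReal (1 / 12) * μ Q ≤
      μ {ξ : X | ξ ∈ Q ∧ τ / 2 ≤ ‖A ξ + ∑ j, sg (s j) * B j ξ‖ ^ 2} := by
  set e := Fintype.equivFin ι with he
  obtain ⟨s, hs⟩ := selectd μ A (fun j => B (e.symm j)) hA (fun j => hB _) Q hQ τ (by
    intro ξ hξ
    rw [Equiv.sum_comp e.symm (fun j => ‖B j ξ‖ ^ 2)]
    exact h ξ hξ)
  refine ⟨fun j => s (e j), hs.trans (measure_mono ?_)⟩
  rintro ξ ⟨h1, h2⟩
  refine ⟨h1, ?_⟩
  unfold SS at h2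
  have h3 : ∑ j, sg (s (e j)) * B j ξ = ∑ j, sg (s j) * B (e.symm j) ξ := by
    rw [← Equiv.sum_comp e (fun j => sg (s j) * B (e.symm j) ξ)]
    simp
  rw [h3]
  exact h2

/-- Heaviside function -/
def hv (y : ℝ) : ℝ := if 0 ≤ y then 1 else 0

/-- box function -/
def bx (δ y : ℝ) : ℝ := hv y - hv (y - δ)

/-- Haar function -/
def hr (δ y : ℝ) : ℝ := bx (δ / 2) y - bx (δ / 2) (y - δ / 2)

lemma hv_meas : Measurable hv := by
  unfold hv
  exact Measurable.ite measurableSet_Ici measurable_const measurable_const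

lemma bx_meas (δ : ℝ) : Measurable (bx δ) := by
  unfold bx
  exact hv_meas.sub (hv_meas.comp (measurable_id.sub_const δ))

lemma hr_meas (δ : ℝ) : Measurable (hr δ) := by
  unfold hr
  exact (bx_meas _).sub ((bx_meas _).comp (measurable_id.sub_const _))

lemma bx_nonneg (δ y : ℝ) (hδ : 0 ≤ δ) : 0 ≤ bx δ y := by
  unfold bx hv
  split_ifs with h1 h2 h2
  · norm_num
  · norm_num
  · exfalso; linarith
  · norm_num

lemma bx_add (a b y : ℝ) : bx a y + bx b (y - a) = bx (a + b) y := by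
  unfold bx
  have : y - a - b = y - (a + b) := by ring
  rw [this]
  ring

lemma bx_sum (δ y : ℝ) (n : ℕ) : ∑ j : Fin n, bx δ (y - (j : ℝ) * δ) = bx (n * δ) y := by
  rw [Fin.sum_univ_eq_sum_range (fun j => bx δ (y - (j : ℝ) * δ)) n]
  induction n with
  | zero => simp [bx]
  | succ n ih =>
    rw [Finset.sum_range_succ, ih, bx_add]
    push_cast
    congr 1
    ring

lemma hr_abs (δ y : ℝ) (hδ : 0 ≤ δ) : |hr δ y| ≤ bx δ y := by
  have h1 := bx_nonneg (δ / 2) y (by linarith)
  have h2 := bx_nonneg (δ / 2) (y - δ / 2) (by linarith)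
  have h3 := bx_add (δ / 2) (δ / 2) y
  rw [add_halves] at h3
  unfold hr
  rw [← h3, abs_le]
  constructor <;> linarith

lemma bx_ind (δ y : ℝ) (hδ : 0 ≤ δ) : bx δ y = (Set.Ico (0:ℝ) δ).indicator (fun _ => (1:ℝ)) y := by
  unfold bx hv
  rw [Set.indicator_apply]
  simp only [Set.mem_Ico]
  split_ifs with h1 h2 h3 h3 h2 h3 h3
  · exfalso; linarith [h3.2]
  · norm_num
  · norm_num
  · exfalso; apply h3; exact ⟨h1, by linarith⟩
  · exfalso; linarith
  · exfalso; linarith
  · exfalso; linarith [h3.1]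
  · norm_num

lemma bx_le_one (δ y : ℝ) (hδ : 0 ≤ δ) : bx δ y ≤ 1 := by
  rw [bx_ind δ y hδ, Set.indicator_apply]
  split_ifs <;> norm_num

lemma bx_int (a δ ξ : ℝ) (hδ : 0 < δ) :
    Integrable (fun y : ℝ => (bx δ (y - a) : ℂ) * ee (y * ξ)) ∧
    ∫ y, (bx δ (y - a) : ℂ) * ee (y * ξ) = (δ : ℂ) * (ee (a * ξ) * ph δ ξ) := by
  have hc : Continuous (fun y : ℝ => ee (y * ξ)) :=
    ee_cont.comp (continuous_id.mul continuous_const)
  have e : (fun y : ℝ => (bx δ (y - a) : ℂ) * ee (y * ξ))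
      = (Set.Ico a (a + δ)).indicator (fun y => ee (y * ξ)) := by
    funext y
    rw [bx_ind δ _ hδ.le, Set.indicator_apply, Set.indicator_apply]
    have : y - a ∈ Set.Ico (0:ℝ) δ ↔ y ∈ Set.Ico a (a + δ) := by
      simp only [Set.mem_Ico]
      constructor
      · rintro ⟨h1, h2⟩; constructor <;> linarith
      · rintro ⟨h1, h2⟩; constructor <;> linarith
    by_cases h : y ∈ Set.Ico a (a + δ)
    · rw [if_pos (this.mpr h), if_pos h]; simp
    · rw [if_neg (fun h' => h (this.mp h')), if_neg h]; simp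
  rw [e]
  constructor
  · rw [integrable_indicator_iff measurableSet_Ico]
    exact (hc.integrableOn_Icc).mono_set Set.Ico_subset_Icc_self
  · rw [integral_indicator measurableSet_Ico, integral_Ico_eq_integral_Ioc, ← av1_ee]
    unfold av1
    rw [intervalIntegral.integral_of_le (by linarith)]
    have : (δ : ℂ) ≠ 0 := by exact_mod_cast hδ.ne'
    rw [← mul_assoc, mul_inv_cancel₀ this, one_mul]

lemma hr_int (a δ ξ : ℝ) (hδ : 0 < δ) :
    ∫ y, (hr δ (y - a) : ℂ) * ee (y * ξ)
      = ee (a * ξ) * (((δ / 2 : ℝ) : ℂ) * ((1 - ee (δ / 2 * ξ)) * ph (δ / 2) ξ)) := by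
  obtain ⟨i1, e1⟩ := bx_int a (δ / 2) ξ (by linarith)
  obtain ⟨i2, e2⟩ := bx_int (a + δ / 2) (δ / 2) ξ (by linarith)
  have e : (fun y : ℝ => (hr δ (y - a) : ℂ) * ee (y * ξ))
      = fun y => (bx (δ / 2) (y - a) : ℂ) * ee (y * ξ)
        - (bx (δ / 2) (y - (a + δ / 2)) : ℂ) * ee (y * ξ) := by
    funext y
    unfold hr
    have : y - a - δ / 2 = y - (a + δ / 2) := by ring
    rw [this]
    push_cast
    ring
  rw [e, integral_sub i1 i2, e1, e2]
  have : (a + δ / 2) * ξ = a * ξ + δ / 2 * ξ := by ring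
  rw [this, ee_add]
  ring

end

end Pool.Agent.V11282.LZ
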