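import Mathlib
import Pool.Agent.V11282.LZ.Haar

/-!
Multi-dimensional Haar pieces.
-/

set_option autoImplicit false

open MeasureTheory Finset
open scoped ENNReal

namespace Pool.Agent.V11282.LZ

noncomputable section

lemma ph_le_one (δ ξ : ℝ) (hδ : 0 < δ) : ‖ph δ ξ‖ ≤ 1 := by
  unfold ph av1
  rw [norm_mul, norm_inv, Complex.norm_real, Real.norm_eq_abs, abs_of_pos hδ]
  have h : ‖∫ x in (0:ℝ)..(0 + δ), ee (x * ξ)‖ ≤ 1 * |0 + δ - 0| := by
    apply intervalIntegral.norm_integral_le_of_norm_le_const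
    intro x _
    exact (norm_ee _).le
  rw [zero_add, sub_zero, one_mul, abs_of_pos hδ] at h
  rw [zero_add]
  calc δ⁻¹ * ‖∫ x in (0:ℝ)..δ, ee (x * ξ)‖ ≤ δ⁻¹ * δ := by gcongr
    _ = 1 := inv_mul_cancel₀ hδ.ne'

lemma ph_cont (δ : ℝ) : Continuous (ph δ) := by
  unfold ph av1
  apply Continuous.mul continuous_const
  apply intervalIntegral.continuous_parametric_intervalIntegral_of_continuous'
  exact ee_cont.comp (continuous_snd.mul continuous_fst)

/-- the profile in coordinate `i` -/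
def wv {m : ℕ} (δ : ℝ) (i : Fin (m + 1)) (y : ℝ) : ℝ := if i = 0 then hr δ y else bx δ y

/-- the cell function -/
def cf {m : ℕ} (δ : ℝ) (a x : Fin (m + 1) → ℝ) : ℝ := ∏ i, wv δ i (x i - a i)

/-- the Fourier factor in coordinate `i` -/
def kf {m : ℕ} (δ : ℝ) (i : Fin (m + 1)) (u : ℝ) : ℂ :=
  if i = 0 then ((δ / 2 : ℝ) : ℂ) * ((1 - ee (δ / 2 * u)) * ph (δ / 2) u) else (δ : ℂ) * ph δ u

/-- the Fourier factor -/
def Kf {m : ℕ} (δ : ℝ) (ξ : Fin (m + 1) → ℝ) : ℂ := ∏ i, kf δ i (ξ i)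

/-- Fourier transform of a function -/
def fh {d : ℕ} (f : (Fin d → ℝ) → ℝ) (ξ : Fin d → ℝ) : ℂ := ∫ x, (f x : ℂ) * ech x ξ

lemma wv_meas {m : ℕ} (δ : ℝ) (i : Fin (m + 1)) : Measurable (wv δ i) := by
  unfold wv
  split_ifs
  · exact hr_meas δ
  · exact bx_meas δ

lemma wv_abs {m : ℕ} (δ : ℝ) (hδ : 0 ≤ δ) (i : Fin (m + 1)) (y : ℝ) : |wv δ i y| ≤ bx δ y := by
  unfold wv
  split_ifs
  · exact hr_abs δ y hδ
  · rw [abs_of_nonneg (bx_nonneg δ y hδ)]

lemma cf_meas {m : ℕ} (δ : ℝ) (a : Fin (m + 1) → ℝ) : Measurable (cf δ a) := by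
  unfold cf
  apply Finset.measurable_prod
  intro i _
  exact (wv_meas δ i).comp ((measurable_pi_apply i).sub_const _)

lemma cf_abs {m : ℕ} (δ : ℝ) (hδ : 0 ≤ δ) (a x : Fin (m + 1) → ℝ) :
    |cf δ a x| ≤ ∏ i, bx δ (x i - a i) := by
  unfold cf
  rw [Finset.abs_prod]
  exact Finset.prod_le_prod (fun _ _ => abs_nonneg _) (fun i _ => wv_abs δ hδ i _)

lemma bxp_int {m : ℕ} (δ : ℝ) (hδ : 0 ≤ δ) (a : Fin (m + 1) → ℝ) :
    Integrable (fun x : Fin (m + 1) → ℝ => ∏ i, bx δ (x i - a i)) := by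
  apply Integrable.fintype_prod (f := fun (i : Fin (m + 1)) (y : ℝ) => bx δ (y - a i))
  intro i
  have : (fun y : ℝ => bx δ (y - a i)) = (Set.Ico (a i) (a i + δ)).indicator (fun _ => (1:ℝ)) := by
    funext y
    rw [bx_ind δ _ hδ, Set.indicator_apply, Set.indicator_apply]
    have : y - a i ∈ Set.Ico (0:ℝ) δ ↔ y ∈ Set.Ico (a i) (a i + δ) := by
      simp only [Set.mem_Ico]
      constructor
      · rintro ⟨h1, h2⟩; constructor <;> linarith
      · rintro ⟨h1, h2⟩; constructor <;> linarith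
    simp only [this]
  rw [this, integrable_indicator_iff measurableSet_Ico]
  exact integrableOn_const (by simp)

lemma int_of_bd {m : ℕ} (f : (Fin (m + 1) → ℝ) → ℝ) (hf : Measurable f) (δ : ℝ) (hδ : 0 ≤ δ)
    (a : Fin (m + 1) → ℝ) (h : ∀ x, |f x| ≤ ∏ i, bx δ (x i - a i)) : Integrable f :=
  (bxp_int δ hδ a).mono' hf.aestronglyMeasurable (Filter.Eventually.of_forall h)

lemma cf_int {m : ℕ} (δ : ℝ) (hδ : 0 ≤ δ) (a : Fin (m + 1) → ℝ) : Integrable (cf δ a) :=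
  int_of_bd _ (cf_meas δ a) δ hδ a (cf_abs δ hδ a)

lemma ech_int {d : ℕ} (f : (Fin d → ℝ) → ℝ) (hf : Integrable f) (ξ : Fin d → ℝ) :
    Integrable (fun x => (f x : ℂ) * ech x ξ) := by
  refine (hf.ofReal (𝕜 := ℂ)).mono ?_ (Filter.Eventually.of_forall fun x => ?_)
  · exact (hf.ofReal (𝕜 := ℂ)).aestronglyMeasurable.mul (ech_cont1 ξ).aestronglyMeasurable
  · rw [norm_mul, ech_norm, mul_one]
    exact le_rfl

lemma fh_add {d : ℕ} (f g : (Fin d → ℝ) → ℝ) (hf : Integrable f) (hg : Integrable g)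
    (ξ : Fin d → ℝ) : fh (fun x => f x + g x) ξ = fh f ξ + fh g ξ := by
  unfold fh
  rw [← integral_add (ech_int f hf ξ) (ech_int g hg ξ)]
  congr 1
  funext x
  push_cast
  ring

lemma fh_cont {d : ℕ} (f : (Fin d → ℝ) → ℝ) (hf : Integrable f) : Continuous (fh f) := by
  unfold fh
  apply continuous_of_dominated (bound := fun x => ‖f x‖)
  · intro ξ
    exact (ech_int f hf ξ).aestronglyMeasurable
  · intro ξ
    refine Filter.Eventually.of_forall fun x => ?_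
    rw [norm_mul, ech_norm, mul_one, Complex.norm_real]
  · exact hf.norm
  · refine Filter.Eventually.of_forall fun x => ?_
    exact continuous_const.mul (ech_cont2 x)

lemma cf_ft {m : ℕ} (δ : ℝ) (hδ : 0 < δ) (a ξ : Fin (m + 1) → ℝ) :
    fh (cf δ a) ξ = (∏ i, ee (a i * ξ i)) * Kf δ ξ := by
  unfold fh Kf
  have e : ∀ x : Fin (m + 1) → ℝ, (cf δ a x : ℂ) * ech x ξ
      = ∏ i, ((wv δ i (x i - a i) : ℂ) * ee (x i * ξ i)) := by
    intro x
    unfold cf ech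
    rw [exp_dp, Complex.ofReal_prod, ← Finset.prod_mul_distrib]
  simp_rw [e]
  rw [integral_fintype_prod_volume_eq_prod (fun (i : Fin (m + 1)) (y : ℝ) =>
    (wv δ i (y - a i) : ℂ) * ee (y * ξ i)), ← Finset.prod_mul_distrib]
  apply Finset.prod_congr rfl
  intro i _
  unfold wv kf
  by_cases h : i = 0
  · simp only [h, if_true]
    exact hr_int _ _ _ hδ
  · simp only [h, if_false]
    rw [(bx_int (a i) δ (ξ i) hδ).2]
    ring

lemma kf_upper {m : ℕ} (δ : ℝ) (hδ : 0 < δ) (i : Fin (m + 1)) (u : ℝ) :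
    ‖kf δ i u‖ ≤ if i = 0 then δ * (2 * δ * |u|) else δ := by
  unfold kf
  split_ifs with h
  · rw [norm_mul, norm_mul, Complex.norm_real, Real.norm_eq_abs, abs_of_pos (by positivity)]
    have h1 : ‖1 - ee (δ / 2 * u)‖ ≤ 4 * δ * |u| := by
      have h2 := ee_lip 0 (δ / 2 * u)
      rw [ee_zero, zero_sub, abs_neg, abs_mul, abs_of_pos (by positivity : 0 < δ / 2)] at h2
      refine h2.trans ?_
      have := Real.pi_le_four
      have h3 : 0 ≤ δ * |u| := by positivity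
      nlinarith
    have h2 := ph_le_one (δ / 2) u (by positivity)
    calc δ / 2 * (‖1 - ee (δ / 2 * u)‖ * ‖ph (δ / 2) u‖) ≤ δ / 2 * (4 * δ * |u| * 1) := by
          gcongr
      _ = δ * (2 * δ * |u|) := by ring
  · rw [norm_mul, Complex.norm_real, Real.norm_eq_abs, abs_of_pos hδ]
    have h2 := ph_le_one δ u hδ
    calc δ * ‖ph δ u‖ ≤ δ * 1 := by gcongr
      _ = δ := mul_one _

lemma Kf_upper {m : ℕ} (δ : ℝ) (hδ : 0 < δ) (ξ : Fin (m + 1) → ℝ) :
    ‖Kf δ ξ‖ ≤ δ ^ (m + 1) * (2 * δ * |ξ 0|) := by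
  unfold Kf
  rw [norm_prod]
  calc ∏ i, ‖kf δ i (ξ i)‖ ≤ ∏ i : Fin (m + 1), (if i = 0 then δ * (2 * δ * |ξ i|) else δ) :=
        Finset.prod_le_prod (fun _ _ => norm_nonneg _) (fun i _ => kf_upper δ hδ i (ξ i))
    _ = δ ^ (m + 1) * (2 * δ * |ξ 0|) := by
        rw [Fin.prod_univ_succ]
        simp only [if_true, Fin.succ_ne_zero, if_false, Finset.prod_const, Finset.card_univ,
          Fintype.card_fin]
        ring

lemma kf_lower {m : ℕ} (δ : ℝ) (hδ : 0 < δ) (i : Fin (m + 1)) (u : ℝ) (h1 : 1 / 4 ≤ δ * u)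
    (h2 : δ * u ≤ 1 / 2) : δ / 8 ≤ ‖kf δ i u‖ := by
  have hu : 0 < u := by
    by_contra h
    push Not at h
    nlinarith
  have hpi4 := Real.pi_le_four
  have hpi := Real.pi_pos
  have hpi2 : 1 / 2 ≤ 2 / Real.pi := by
    rw [div_le_div_iff₀ (by norm_num) hpi]
    linarith
  unfold kf
  split_ifs with h
  · rw [norm_mul, norm_mul, Complex.norm_real, Real.norm_eq_abs, abs_of_pos (by positivity)]
    have h3 : 1 / 2 ≤ ‖1 - ee (δ / 2 * u)‖ := by
      rw [norm_sub_rev, norm_ee_sub_one]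
      have h4 := sin_lower (δ / 2 * u) (by positivity) (by linarith)
      have h5 := le_abs_self (Real.sin (Real.pi * (δ / 2 * u)))
      linarith
    have h4 := ph_lower (δ / 2) u (by positivity) hu (by linarith)
    have h5 : 1 / 2 ≤ ‖ph (δ / 2) u‖ := hpi2.trans h4
    calc δ / 8 = δ / 2 * (1 / 2 * (1 / 2)) := by ring
      _ ≤ δ / 2 * (‖1 - ee (δ / 2 * u)‖ * ‖ph (δ / 2) u‖) := by gcongr
  · rw [norm_mul, Complex.norm_real, Real.norm_eq_abs, abs_of_pos hδ]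
    have h4 := ph_lower δ u hδ hu h2
    have h5 : 1 / 2 ≤ ‖ph δ u‖ := hpi2.trans h4
    calc δ / 8 ≤ δ * (1 / 2) := by linarith
      _ ≤ δ * ‖ph δ u‖ := by gcongr

lemma Kf_lower {m : ℕ} (δ : ℝ) (hδ : 0 < δ) (ξ : Fin (m + 1) → ℝ) (h1 : ∀ i, 1 / 4 ≤ δ * ξ i)
    (h2 : ∀ i, δ * ξ i ≤ 1 / 2) : (δ / 8) ^ (m + 1) ≤ ‖Kf δ ξ‖ := by
  unfold Kf
  rw [norm_prod]
  calc (δ / 8) ^ (m + 1) = ∏ _i : Fin (m + 1), (δ / 8) := by
        rw [Finset.prod_const, Finset.card_univ, Fintype.card_fin]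
    _ ≤ _ := Finset.prod_le_prod (fun _ _ => by positivity)
        (fun i _ => kf_lower δ hδ i (ξ i) (h1 i) (h2 i))

lemma Kf_cont {m : ℕ} (δ : ℝ) : Continuous (Kf (m := m) δ) := by
  unfold Kf
  apply continuous_finset_prod
  intro i _
  unfold kf
  have h1 := ph_cont δ
  have h2 := ph_cont (δ / 2)
  have h3 := ee_cont
  split_ifs
  · fun_prop
  · fun_prop

/-- number of cells in direction `i` -/
def nn {m : ℕ} (N n : ℕ) (i : Fin (m + 1)) : ℕ := if i = 0 then n else N * n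

/-- corner of the slab -/
def uu {m : ℕ} (N k : ℕ) (i : Fin (m + 1)) : ℝ := if i = 0 then (k : ℝ) / N else 0

/-- corner of a cell -/
def cr {m : ℕ} (N n k : ℕ) (δ : ℝ) (j : (i : Fin (m + 1)) → Fin (nn N n i)) (i : Fin (m + 1)) : ℝ :=
  uu N k i + ((j i : ℕ) : ℝ) * δ

/-- real sign -/
def sgr (b : Bool) : ℝ := if b then 1 else -1

lemma sgr_cast (b : Bool) : ((sgr b : ℝ) : ℂ) = sg b := by
  unfold sgr sg
  split_ifs <;> simp

lemma sgr_abs (b : Bool) : |sgr b| = 1 := by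
  unfold sgr
  split_ifs <;> simp

/-- the piece -/
def piece {m : ℕ} (N n k : ℕ) (δ : ℝ) (s : ((i : Fin (m + 1)) → Fin (nn N n i)) → Bool)
    (x : Fin (m + 1) → ℝ) : ℝ := ∑ j, sgr (s j) * cf δ (cr N n k δ j) x

lemma piece_meas {m : ℕ} (N n k : ℕ) (δ : ℝ) (s : ((i : Fin (m + 1)) → Fin (nn N n i)) → Bool) :
    Measurable (piece N n k δ s) := by
  unfold piece
  apply Finset.measurable_sum
  intro j _
  exact (cf_meas δ _).const_mul _

lemma cells_sum {m : ℕ} (N n k : ℕ) (δ : ℝ) (x : Fin (m + 1) → ℝ) :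
    ∑ j : (i : Fin (m + 1)) → Fin (nn N n i), ∏ i, bx δ (x i - cr N n k δ j i)
      = ∏ i, bx (nn N n i * δ) (x i - uu N k i) := by
  have h : ∀ i : Fin (m + 1), bx (nn N n i * δ) (x i - uu N k i)
      = ∑ l : Fin (nn N n i), bx δ (x i - (uu N k i + ((l : ℕ) : ℝ) * δ)) := by
    intro i
    rw [← bx_sum]
    apply Finset.sum_congr rfl
    intro l _
    congr 1
    ring
  simp_rw [h]
  rw [Fintype.prod_sum]
  rfl

lemma piece_abs {m : ℕ} (N n k : ℕ) (hN : 0 < N) (hn : 0 < n) (δ : ℝ) (hδ : δ = 1 / (N * n))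
    (s : ((i : Fin (m + 1)) → Fin (nn N n i)) → Bool) (x : Fin (m + 1) → ℝ) :
    |piece N n k δ s x| ≤ bx (1 / N) (x 0 - k / N) * ∏ i : Fin m, bx 1 (x i.succ) := by
  have hNr : (0:ℝ) < N := by exact_mod_cast hN
  have hnr : (0:ℝ) < n := by exact_mod_cast hn
  have hδ0 : 0 < δ := by rw [hδ]; positivity
  unfold piece
  calc |∑ j, sgr (s j) * cf δ (cr N n k δ j) x| ≤ ∑ j, |sgr (s j) * cf δ (cr N n k δ j) x| :=
        Finset.abs_sum_le_sum_abs _ _
    _ ≤ ∑ j : (i : Fin (m + 1)) → Fin (nn N n i), ∏ i, bx δ (x i - cr N n k δ j i) := by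
        apply Finset.sum_le_sum
        intro j _
        rw [abs_mul, sgr_abs, one_mul]
        exact cf_abs δ hδ0.le _ x
    _ = ∏ i, bx (nn N n i * δ) (x i - uu N k i) := cells_sum N n k δ x
    _ = bx (1 / N) (x 0 - k / N) * ∏ i : Fin m, bx 1 (x i.succ) := by
        rw [Fin.prod_univ_succ]
        unfold nn uu
        simp only [if_true, Fin.succ_ne_zero, if_false]
        have e1 : (n : ℝ) * δ = 1 / N := by rw [hδ]; field_simp
        have e2 : ((N * n : ℕ) : ℝ) * δ = 1 := by rw [hδ]; push_cast; field_simp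
        rw [e1, e2]
        simp only [sub_zero]

lemma fh_sum {m : ℕ} {ι : Type*} (S : Finset ι) (c : ι → ℝ) (g : ι → (Fin (m + 1) → ℝ) → ℝ)
    (hg : ∀ j, Integrable (g j)) (ξ : Fin (m + 1) → ℝ) :
    fh (fun x => ∑ j ∈ S, c j * g j x) ξ = ∑ j ∈ S, (c j : ℂ) * fh (g j) ξ := by
  unfold fh
  have e : ∀ x, ((∑ j ∈ S, c j * g j x : ℝ) : ℂ) * ech x ξ
      = ∑ j ∈ S, (c j : ℂ) * ((g j x : ℂ) * ech x ξ) := by
    intro x
    push_cast
    rw [Finset.sum_mul]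
    apply Finset.sum_congr rfl
    intro j _
    ring
  simp_rw [e]
  rw [integral_finset_sum _ (fun j _ => (ech_int (g j) (hg j) ξ).const_mul _)]
  apply Finset.sum_congr rfl
  intro j _
  rw [integral_const_mul]

/-- the Fourier transform of a cell function in the piece -/
def Bj {m : ℕ} (N n k : ℕ) (δ : ℝ) (j : (i : Fin (m + 1)) → Fin (nn N n i))
    (ξ : Fin (m + 1) → ℝ) : ℂ := (∏ i, ee (cr N n k δ j i * ξ i)) * Kf δ ξ

lemma Bj_norm {m : ℕ} (N n k : ℕ) (δ : ℝ) (j : (i : Fin (m + 1)) → Fin (nn N n i))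
    (ξ : Fin (m + 1) → ℝ) : ‖Bj N n k δ j ξ‖ = ‖Kf δ ξ‖ := by
  unfold Bj
  rw [norm_mul, norm_prod]
  simp [norm_ee]

lemma Bj_cont {m : ℕ} (N n k : ℕ) (δ : ℝ) (j : (i : Fin (m + 1)) → Fin (nn N n i)) :
    Continuous (Bj N n k δ j) := by
  unfold Bj
  apply Continuous.mul _ (Kf_cont δ)
  apply continuous_finset_prod
  intro i _
  exact ee_cont.comp (continuous_const.mul (continuous_apply i))

lemma piece_ft {m : ℕ} (N n k : ℕ) (δ : ℝ) (hδ : 0 < δ)
    (s : ((i : Fin (m + 1)) → Fin (nn N n i)) → Bool) (ξ : Fin (m + 1) → ℝ) :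
    fh (piece N n k δ s) ξ = ∑ j, sg (s j) * Bj N n k δ j ξ := by
  unfold piece
  rw [fh_sum Finset.univ (fun j => sgr (s j)) (fun j => cf δ (cr N n k δ j))
    (fun j => cf_int δ hδ.le _)]
  apply Finset.sum_congr rfl
  intro j _
  rw [sgr_cast, cf_ft δ hδ]
  rfl

lemma card_cells {m : ℕ} (N n : ℕ) :
    (Fintype.card ((i : Fin (m + 1)) → Fin (nn N n i)) : ℝ) = n * (N * n) ^ m := by
  rw [Fintype.card_pi]
  simp only [Fintype.card_fin]
  rw [Fin.prod_univ_succ]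
  unfold nn
  simp only [if_true, Fin.succ_ne_zero, if_false, Finset.prod_const, Finset.card_univ,
    Fintype.card_fin]
  push_cast
  ring

lemma card_mass {m : ℕ} (N n : ℕ) (hN : 0 < N) (hn : 0 < n) (δ : ℝ) (hδ : δ = 1 / (N * n)) :
    (Fintype.card ((i : Fin (m + 1)) → Fin (nn N n i)) : ℝ) * δ ^ (m + 1) = 1 / N := by
  have hNr : (0:ℝ) < N := by exact_mod_cast hN
  have hnr : (0:ℝ) < n := by exact_mod_cast hn
  rw [card_cells, hδ, div_pow, one_pow, pow_succ]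
  field_simp

end

end Pool.Agent.V11282.LZ
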