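import Mathlib
import Pool.Agent.V11282.LZ.Piece

/-!
The inductive construction in the case `β = d`.
-/

set_option autoImplicit false

open MeasureTheory Finset
open scoped ENNReal

namespace Pool.Agent.V11282.LZ

noncomputable section

/-- the lower bound constant -/
def epsB (m N : ℕ) : ℝ := Real.sqrt ((1 / 128) ^ (m + 1) / (8 * N))

/-- the invariant -/
structure InvB (m N k : ℕ) (f : (Fin (m + 1) → ℝ) → ℝ) (R : ℕ → ℝ) (κ : ℝ) : Prop where
  meas : Measurable f
  bd : ∀ x, |f x| ≤ bx ((k : ℝ) / N) (x 0) * ∏ i : Fin m, bx 1 (x i.succ)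
  κpos : 0 < κ
  κle : κ ≤ 1
  Rpos : ∀ i < k, 0 < R i
  sparse : ∀ i, i + 1 < k → 2 * R i ≤ R (i + 1)
  big : ∀ i < k, ENNReal.ofReal ((R i / 24) ^ (m + 1)) ≤
    volume {ξ : Fin (m + 1) → ℝ | (∀ j, 0 ≤ ξ j ∧ ξ j ≤ R i) ∧
      (1 + κ) * (epsB m N * (R i) ^ (-((m : ℝ) + 1) / 2)) ≤ ‖fh f ξ‖}

lemma bx_mono (a b y : ℝ) (hb : 0 ≤ b - a) : bx a y ≤ bx b y := by
  have h := bx_add a (b - a) y
  have h2 := bx_nonneg (b - a) (y - a) hb
  have e : a + (b - a) = b := by ring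
  rw [e] at h
  linarith

lemma bd_int {m : ℕ} (f : (Fin (m + 1) → ℝ) → ℝ) (hf : Measurable f) (a : ℝ) (ha : 0 ≤ a)
    (ha1 : a ≤ 1) (h : ∀ x, |f x| ≤ bx a (x 0) * ∏ i : Fin m, bx 1 (x i.succ)) :
    (∀ x, |f x| ≤ ∏ i, bx 1 (x i)) ∧ Integrable f := by
  have h1 : ∀ x, |f x| ≤ ∏ i, bx 1 (x i) := by
    intro x
    refine (h x).trans ?_
    rw [Fin.prod_univ_succ]
    have h2 : 0 ≤ ∏ i : Fin m, bx 1 (x i.succ) :=
      Finset.prod_nonneg fun i _ => bx_nonneg 1 _ (by norm_num)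
    exact mul_le_mul_of_nonneg_right (bx_mono a 1 _ (by linarith)) h2
  refine ⟨h1, int_of_bd f hf 1 (by norm_num) (fun _ => 0) ?_⟩
  intro x
  simpa using h1 x

lemma exists_n (k : ℕ) (L : ℕ → ℝ) : ∃ n : ℕ, 0 < n ∧ ∀ i < k, L i ≤ n := by
  obtain ⟨n, hn⟩ := exists_nat_ge (∑ i ∈ Finset.range k, |L i|)
  refine ⟨n + 1, Nat.succ_pos _, fun i hi => ?_⟩
  have h1 : |L i| ≤ ∑ i ∈ Finset.range k, |L i| :=
    Finset.single_le_sum (f := fun i => |L i|) (fun _ _ => abs_nonneg _) (Finset.mem_range.mpr hi)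
  have h2 := le_abs_self (L i)
  push_cast
  linarith

lemma stepB (m N k : ℕ) (hk : k < N) (f : (Fin (m + 1) → ℝ) → ℝ) (R : ℕ → ℝ) (κ : ℝ)
    (H : InvB m N k f R κ) : ∃ f' R' κ', InvB m N (k + 1) f' R' κ' := by
  have hN : 0 < N := by omega
  have hNr : (1:ℝ) ≤ N := by exact_mod_cast hN
  have hN0 : (0:ℝ) < N := by linarith
  have hε : 0 < epsB m N := by
    unfold epsB
    apply Real.sqrt_pos.mpr
    positivity
  have hκ := H.κpos
  set ε := epsB m N with hεdef
  set r : ℕ → ℝ := fun i => (R i) ^ (-((m : ℝ) + 1) / 2) with hr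
  obtain ⟨n, hn, hL⟩ := exists_n k (fun i => 4 * R i + 4 * R i / (κ * ε * r i))
  have hnr : (1:ℝ) ≤ n := by exact_mod_cast hn
  have hn0 : (0:ℝ) < n := by linarith
  set δ : ℝ := 1 / (N * n) with hδ
  have hδ0 : 0 < δ := by positivity
  set Rk : ℝ := 1 / (2 * δ) with hRk
  have hRk0 : 0 < Rk := by positivity
  have hRkn : Rk = N * n / 2 := by rw [hRk, hδ]; field_simp
  have hδR : δ * Rk = 1 / 2 := by rw [hRk]; field_simp
  -- the bounds from the choice of n
  have hrpos : ∀ i < k, 0 < r i := fun i hi => Real.rpow_pos_of_pos (H.Rpos i hi) _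
  have hn1 : ∀ i < k, 2 * R i ≤ Rk := by
    intro i hi
    have h1 := hL i hi
    have h2 := H.Rpos i hi
    have h3 := hrpos i hi
    have h4 : 0 < 4 * R i / (κ * ε * r i) := by positivity
    rw [hRkn]
    nlinarith
  have hn2 : ∀ i < k, 2 * δ * R i ≤ κ / 2 * (ε * r i) := by
    intro i hi
    have h1 := hL i hi
    have h2 := H.Rpos i hi
    have h3 := hrpos i hi
    have h5 : 4 * R i / (κ * ε * r i) ≤ n := by linarith
    rw [div_le_iff₀ (by positivity)] at h5
    rw [hδ]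
    have h6 : 2 * (1 / ((N:ℝ) * n)) * R i = 2 * R i / (N * n) := by ring
    rw [h6, div_le_iff₀ (by positivity)]
    have h7 : (0:ℝ) < κ * ε * r i := by positivity
    have h8 : n * (κ * ε * r i) ≤ N * (n * (κ * ε * r i)) := by
      have : 0 ≤ n * (κ * ε * r i) := by positivity
      nlinarith
    nlinarith
  -- existing function
  have hkN : (k : ℝ) / N ≤ 1 := by
    rw [div_le_one hN0]
    exact_mod_cast hk.le
  obtain ⟨_, hfi⟩ := bd_int f H.meas ((k : ℝ) / N) (by positivity) hkN H.bd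
  -- the set Q
  set Q : Set (Fin (m + 1) → ℝ) := Set.pi Set.univ (fun _ => Set.Icc (Rk / 2) Rk) with hQ
  have hQm : MeasurableSet Q := MeasurableSet.univ_pi fun _ => measurableSet_Icc
  have hQv : volume Q = ENNReal.ofReal ((Rk / 2) ^ (m + 1)) := by
    rw [hQ, volume_pi_pi]
    simp only [Real.volume_Icc, Finset.prod_const, Finset.card_univ, Fintype.card_fin]
    rw [← ENNReal.ofReal_pow (by linarith)]
    congr 2
    ring
  set rk : ℝ := Rk ^ (-((m : ℝ) + 1) / 2) with hrk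
  have hrk0 : 0 < rk := Real.rpow_pos_of_pos hRk0 _
  have hrk2 : rk ^ 2 = (2 * δ) ^ (m + 1) := by
    rw [hrk, ← Real.rpow_natCast, ← Real.rpow_mul hRk0.le]
    have : -((m : ℝ) + 1) / 2 * ((2 : ℕ) : ℝ) = -(((m + 1 : ℕ) : ℝ)) := by push_cast; ring
    rw [this, Real.rpow_neg hRk0.le, Real.rpow_natCast, hRk, one_div, inv_pow, inv_inv]
  have hε2 : ε ^ 2 = (1 / 128) ^ (m + 1) / (8 * N) := by
    rw [hεdef]
    unfold epsB
    rw [Real.sq_sqrt (by positivity)]
  have hsel : ∀ ξ ∈ Q, 8 * ε ^ 2 * rk ^ 2 ≤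
      ∑ j : (i : Fin (m + 1)) → Fin (nn N n i), ‖Bj N n k δ j ξ‖ ^ 2 := by
    intro ξ hξ
    simp only [Bj_norm, Finset.sum_const, Finset.card_univ, nsmul_eq_mul]
    have h1 : (δ / 8) ^ (m + 1) ≤ ‖Kf δ ξ‖ := by
      apply Kf_lower δ hδ0
      · intro i
        have := (hξ i (Set.mem_univ i)).1
        nlinarith
      · intro i
        have := (hξ i (Set.mem_univ i)).2
        nlinarith
    have h2 := card_mass (m := m) N n hN hn δ hδ
    have h3 : 8 * ε ^ 2 * rk ^ 2 = (Fintype.card ((i : Fin (m + 1)) → Fin (nn N n i)) : ℝ)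
        * ((δ / 8) ^ (m + 1)) ^ 2 := by
      rw [hε2, hrk2]
      have e1 : ((δ / 8) ^ (m + 1)) ^ 2 = δ ^ (m + 1) * (δ ^ (m + 1) * (1 / 64) ^ (m + 1)) := by
        rw [← mul_pow, ← mul_pow, ← pow_mul, mul_comm (m + 1) 2, pow_mul]
        congr 1
        ring
      rw [e1, ← mul_assoc, h2]
      have e2 : (2 * δ) ^ (m + 1) * (1 / 128) ^ (m + 1) = δ ^ (m + 1) * (1 / 64) ^ (m + 1) := by
        rw [← mul_pow, ← mul_pow]
        congr 1
        ring
      rw [← e2]
      field_simp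
    rw [h3]
    gcongr
  obtain ⟨s, hs⟩ := selecti volume (fh f) (Bj N n k δ) (fh_cont f hfi) (fun j => Bj_cont N n k δ j)
    Q hQm (8 * ε ^ 2 * rk ^ 2) hsel
  set P := piece N n k δ s with hP
  have hPabs := piece_abs N n k hN hn δ hδ s
  have hPi : Integrable P := by
    apply int_of_bd P (piece_meas N n k δ s) 1 (by norm_num) (fun i => uu N k i)
    intro x
    refine (hPabs x).trans ?_
    rw [Fin.prod_univ_succ]
    unfold uu
    simp only [if_true, Fin.succ_ne_zero, if_false, sub_zero]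
    have h2 : 0 ≤ ∏ i : Fin m, bx 1 (x i.succ) :=
      Finset.prod_nonneg fun i _ => bx_nonneg 1 _ (by norm_num)
    apply mul_le_mul_of_nonneg_right _ h2
    apply bx_mono
    rw [sub_nonneg, div_le_one hN0]
    exact hNr
  have hft : ∀ ξ, fh (fun x => f x + P x) ξ = fh f ξ + ∑ j, sg (s j) * Bj N n k δ j ξ := by
    intro ξ
    rw [fh_add f P hfi hPi, hP, piece_ft N n k δ hδ0]
  refine ⟨fun x => f x + P x, fun i => if i = k then Rk else R i, κ / 2, ?_⟩
  have hRi : ∀ i < k, (if i = k then Rk else R i) = R i := fun i hi => if_neg hi.ne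
  constructor
  · exact H.meas.add (piece_meas N n k δ s)
  · intro x
    calc |f x + P x| ≤ |f x| + |P x| := abs_add_le _ _
      _ ≤ bx ((k : ℝ) / N) (x 0) * ∏ i : Fin m, bx 1 (x i.succ)
          + bx (1 / N) (x 0 - k / N) * ∏ i : Fin m, bx 1 (x i.succ) :=
          add_le_add (H.bd x) (hPabs x)
      _ = bx (((k + 1 : ℕ) : ℝ) / N) (x 0) * ∏ i : Fin m, bx 1 (x i.succ) := by
          rw [← add_mul, bx_add]
          congr 2
          push_cast
          ring
  · linarith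
  · linarith [H.κle]
  · intro i hi
    rcases Nat.lt_succ_iff_lt_or_eq.mp hi with h | h
    · rw [hRi i h]; exact H.Rpos i h
    · rw [if_pos h]; exact hRk0
  · intro i hi
    have hik : i < k := by omega
    rw [hRi i hik]
    rcases Nat.lt_succ_iff_lt_or_eq.mp hi with h | h
    · rw [hRi (i + 1) h]; exact H.sparse i h
    · rw [if_pos h]; exact hn1 i hik
  · intro i hi
    rcases Nat.lt_succ_iff_lt_or_eq.mp hi with h | h
    · rw [hRi i h]
      refine (H.big i h).trans (measure_mono ?_)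
      rintro ξ ⟨h1, h2⟩
      refine ⟨h1, ?_⟩
      have hr0 := hrpos i h
      have hRi0 := H.Rpos i h
      have hPξ : ‖∑ j, sg (s j) * Bj N n k δ j ξ‖ ≤ κ / 2 * (ε * r i) := by
        have h3 : ∀ j ∈ (Finset.univ : Finset ((i : Fin (m + 1)) → Fin (nn N n i))),
            ‖sg (s j) * Bj N n k δ j ξ‖ ≤ δ ^ (m + 1) * (2 * δ * |ξ 0|) := by
          intro j _
          rw [norm_mul, Bj_norm]
          have : ‖sg (s j)‖ = 1 := by unfold sg; split_ifs <;> simp
          rw [this, one_mul]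
          exact Kf_upper δ hδ0 ξ
        refine (norm_sum_le_of_le _ h3).trans ?_
        rw [Finset.sum_const, Finset.card_univ, nsmul_eq_mul, ← mul_assoc,
          card_mass N n hN hn δ hδ, abs_of_nonneg (h1 0).1]
        refine le_trans ?_ (hn2 i h)
        have h4 : 2 * δ * ξ 0 ≤ 2 * δ * R i := by
          have := (h1 0).2
          gcongr
        have h5 : 0 ≤ 2 * δ * ξ 0 := by
          have := (h1 0).1
          positivity
        have h6 : 1 / (N:ℝ) ≤ 1 := by rw [div_le_one hN0]; exact hNr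
        nlinarith
      have h3 := norm_sub_norm_le (fh f ξ) (-(∑ j, sg (s j) * Bj N n k δ j ξ))
      rw [norm_neg, sub_neg_eq_add, ← hft ξ] at h3
      have h4 : (1 + κ) * (ε * r i) ≤ ‖fh f ξ‖ := h2
      have h5 : (1 + κ / 2) * (ε * r i) = (1 + κ) * (ε * r i) - κ / 2 * (ε * r i) := by ring
      change (1 + κ / 2) * (ε * r i) ≤ _
      rw [h5]
      linarith
    · rw [if_pos h]
      have h0 : ENNReal.ofReal ((Rk / 24) ^ (m + 1)) ≤ ENNReal.ofReal (1 / 12) * volume Q := by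
        rw [hQv, ← ENNReal.ofReal_mul (by norm_num)]
        apply ENNReal.ofReal_le_ofReal
        have e1 : (Rk / 24) ^ (m + 1) = (1 / 12) ^ (m + 1) * (Rk / 2) ^ (m + 1) := by
          rw [← mul_pow]
          congr 1
          ring
        rw [e1]
        have e2 : (1 / 12 : ℝ) ^ (m + 1) ≤ 1 / 12 := by
          calc (1 / 12 : ℝ) ^ (m + 1) ≤ (1 / 12) ^ 1 :=
                pow_le_pow_of_le_one (by norm_num) (by norm_num) (by omega)
            _ = 1 / 12 := pow_one _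
        gcongr
      refine h0.trans (hs.trans (measure_mono ?_))
      rintro ξ ⟨h1, h2⟩
      refine ⟨fun j => ?_, ?_⟩
      · have := h1 j (Set.mem_univ j)
        exact ⟨by linarith [this.1], this.2⟩
      · rw [hft ξ]
        have h3 : 8 * ε ^ 2 * rk ^ 2 / 2 = (2 * (ε * rk)) ^ 2 := by ring
        rw [h3] at h2
        have h4 : 2 * (ε * rk) ≤ ‖fh f ξ + ∑ j, sg (s j) * Bj N n k δ j ξ‖ :=
          le_of_sq_le_sq h2 (norm_nonneg _)
        refine le_trans ?_ h4
        have h5 : 0 < ε * rk := by positivity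
        have := H.κle
        have : 1 + κ / 2 ≤ 2 := by linarith
        exact mul_le_mul_of_nonneg_right this h5.le

lemma zeroB (m N : ℕ) : InvB m N 0 (fun _ => 0) (fun _ => 1) 1 := by
  constructor
  · exact measurable_const
  · intro x
    simp [bx]
  · norm_num
  · norm_num
  · intro i hi; omega
  · intro i hi; omega
  · intro i hi; omega

lemma allB (m N : ℕ) : ∀ k ≤ N, ∃ f R κ, InvB m N k f R κ := by
  intro k
  induction k with
  | zero => exact fun _ => ⟨_, _, _, zeroB m N⟩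
  | succ k ih =>
    intro hk
    obtain ⟨f, R, κ, H⟩ := ih (by omega)
    exact stepB m N k (by omega) f R κ H

theorem genB (m N : ℕ) (hN : 0 < N) : ∃ f : (Fin (m + 1) → ℝ) → ℝ, Measurable f ∧
    (∀ x, |f x| ≤ ∏ i, bx 1 (x i)) ∧ Integrable f ∧ ∃ R : ℕ → ℝ, (∀ i < N, 0 < R i) ∧
      (∀ i, i + 1 < N → 2 * R i ≤ R (i + 1)) ∧
      ∀ i < N, ENNReal.ofReal ((R i / 24) ^ (m + 1)) ≤
        volume {ξ : Fin (m + 1) → ℝ | (∀ j, 0 ≤ ξ j ∧ ξ j ≤ R i) ∧
          epsB m N * (R i) ^ (-((m : ℝ) + 1) / 2) ≤ ‖fh f ξ‖} := by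
  obtain ⟨f, R, κ, H⟩ := allB m N N le_rfl
  have hN0 : (0:ℝ) < N := by exact_mod_cast hN
  obtain ⟨h1, h2⟩ := bd_int f H.meas ((N : ℝ) / N) (by positivity) (by rw [div_self hN0.ne']) H.bd
  refine ⟨f, H.meas, h1, h2, R, H.Rpos, H.sparse, ?_⟩
  intro i hi
  refine (H.big i hi).trans (measure_mono ?_)
  rintro ξ ⟨h3, h4⟩
  refine ⟨h3, le_trans ?_ h4⟩
  have h5 : 0 ≤ epsB m N * (R i) ^ (-((m : ℝ) + 1) / 2) := by
    have := H.Rpos i hi
    unfold epsB
    positivity
  have := H.κpos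
  nlinarith

end

end Pool.Agent.V11282.LZ
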