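import Mathlib
import Pool.Agent.V11282.LZ.StepB

/-!
The case `β = d`, `q < 2`.
-/

set_option autoImplicit false

open MeasureTheory Finset Filter Topology
open scoped ENNReal

namespace Pool.Agent.V11282.LZ

noncomputable section

/-- the Jordan decomposition of a density -/
def denJ {d : ℕ} (f : (Fin d → ℝ) → ℝ) (hf : Measurable f) (hi : Integrable f) :
    JordanDecomposition (Fin d → ℝ) where
  posPart := volume.withDensity (fun x => ENNReal.ofReal (f x))
  negPart := volume.withDensity (fun x => ENNReal.ofReal (-f x))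
  posPart_finite := isFiniteMeasure_withDensity_ofReal hi.2
  negPart_finite := isFiniteMeasure_withDensity_ofReal hi.neg.2
  mutuallySingular := withDensity_ofReal_mutuallySingular hf

lemma sI_den {d : ℕ} (f : (Fin d → ℝ) → ℝ) (hf : Measurable f) (hi : Integrable f)
    (F : (Fin d → ℝ) → ℂ) (hF : Continuous F) (C : ℝ) (hC : ∀ x, ‖F x‖ ≤ C) :
    sI (denJ f hf hi).toSignedMeasure F = ∫ x, (f x : ℂ) * F x := by
  have hC0 : 0 ≤ C := (norm_nonneg _).trans (hC 0)
  have hmn : Measurable (fun x => -f x) := hf.neg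
  unfold sI
  rw [JordanDecomposition.toJordanDecomposition_toSignedMeasure]
  change ∫ x, F x ∂(volume.withDensity (fun x => ENNReal.ofReal (f x)))
    - ∫ x, F x ∂(volume.withDensity (fun x => ENNReal.ofReal (-f x))) = _
  rw [integral_withDensity_eq_integral_toReal_smul hf.ennreal_ofReal
    (Eventually.of_forall fun _ => ENNReal.ofReal_lt_top),
    integral_withDensity_eq_integral_toReal_smul hmn.ennreal_ofReal
    (Eventually.of_forall fun _ => ENNReal.ofReal_lt_top), ← integral_sub]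
  · congr 1
    funext x
    rw [ENNReal.toReal_ofReal', ENNReal.toReal_ofReal', ← sub_smul, Complex.real_smul]
    congr 2
    rcases le_total 0 (f x) with h | h
    · rw [max_eq_left h, max_eq_right (by linarith)]; ring
    · rw [max_eq_right h, max_eq_left (by linarith)]; ring
  · refine Integrable.mono' (hi.norm.mul_const C) ?_ (Eventually.of_forall fun x => ?_)
    · exact (hf.ennreal_ofReal.ennreal_toReal.aestronglyMeasurable).smul
        hF.aestronglyMeasurable
    · rw [norm_smul, ENNReal.toReal_ofReal', Real.norm_eq_abs, Real.norm_eq_abs]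
      have h1 : |max (f x) 0| ≤ |f x| := by
        rcases le_total 0 (f x) with h | h
        · rw [max_eq_left h]
        · rw [max_eq_right h, abs_zero]; exact abs_nonneg _
      exact mul_le_mul h1 (hC x) (norm_nonneg _) (abs_nonneg _)
  · refine Integrable.mono' (hi.norm.mul_const C) ?_ (Eventually.of_forall fun x => ?_)
    · exact (hmn.ennreal_ofReal.ennreal_toReal.aestronglyMeasurable).smul
        hF.aestronglyMeasurable
    · rw [norm_smul, ENNReal.toReal_ofReal', Real.norm_eq_abs, Real.norm_eq_abs]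
      have h1 : |max (-f x) 0| ≤ |f x| := by
        rcases le_total 0 (f x) with h | h
        · rw [max_eq_right (by linarith), abs_zero]; exact abs_nonneg _
        · rw [max_eq_left (by linarith), abs_neg]
      exact mul_le_mul h1 (hC x) (norm_nonneg _) (abs_nonneg _)

lemma cube_ind {d : ℕ} (x : Fin d → ℝ) :
    ∏ i, bx 1 (x i) = (Set.pi Set.univ (fun _ : Fin d => Set.Ico (0:ℝ) 1)).indicator
      (fun _ => (1:ℝ)) x := by
  classical
  rw [Set.indicator_apply]
  split_ifs with h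
  · apply Finset.prod_eq_one
    intro i _
    rw [bx_ind 1 _ (by norm_num), Set.indicator_of_mem (h i (Set.mem_univ i))]
  · simp only [Set.mem_pi, Set.mem_univ, forall_const, not_forall] at h
    obtain ⟨i, hi⟩ := h
    apply Finset.prod_eq_zero (Finset.mem_univ i)
    rw [bx_ind 1 _ (by norm_num), Set.indicator_of_notMem hi]

lemma tv_den {d : ℕ} (f : (Fin d → ℝ) → ℝ) (hf : Measurable f) (hi : Integrable f)
    (hb : ∀ x, |f x| ≤ ∏ i, bx 1 (x i)) : tv (denJ f hf hi).toSignedMeasure ≤ 1 := by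
  unfold tv SignedMeasure.totalVariation
  rw [JordanDecomposition.toJordanDecomposition_toSignedMeasure, Measure.add_apply]
  change (volume.withDensity (fun x => ENNReal.ofReal (f x))) Set.univ
    + (volume.withDensity (fun x => ENNReal.ofReal (-f x))) Set.univ ≤ 1
  rw [withDensity_apply _ MeasurableSet.univ, withDensity_apply _ MeasurableSet.univ,
    Measure.restrict_univ, ← lintegral_add_left hf.ennreal_ofReal]
  calc ∫⁻ x, (ENNReal.ofReal (f x) + ENNReal.ofReal (-f x))
      ≤ ∫⁻ x, (Set.pi Set.univ (fun _ : Fin d => Set.Ico (0:ℝ) 1)).indicator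
        (fun _ => (1:ℝ≥0∞)) x := by
        apply lintegral_mono
        intro x
        have h1 := hb x
        rw [cube_ind] at h1
        have h2 : ENNReal.ofReal (f x) + ENNReal.ofReal (-f x) = ENNReal.ofReal |f x| := by
          rcases le_total 0 (f x) with h | h
          · rw [ENNReal.ofReal_of_nonpos (by linarith : -f x ≤ 0), add_zero, abs_of_nonneg h]
          · rw [ENNReal.ofReal_of_nonpos h, zero_add, abs_of_nonpos h]
        simp only
        rw [h2]
        by_cases hx : x ∈ Set.pi Set.univ (fun _ : Fin d => Set.Ico (0:ℝ) 1)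
        · rw [Set.indicator_of_mem hx] at h1 ⊢
          rw [← ENNReal.ofReal_one]
          exact ENNReal.ofReal_le_ofReal h1
        · rw [Set.indicator_of_notMem hx] at h1 ⊢
          rw [ENNReal.ofReal_of_nonpos h1]
    _ = 1 := by
        rw [lintegral_indicator (MeasurableSet.univ_pi fun _ => measurableSet_Ico),
          setLIntegral_const, one_mul, volume_pi_pi]
        simp

lemma hk_one (t : ℝ) (ht : 0 < t) (z : ℝ) :
    Integrable (fun y : ℝ => (4 * Real.pi * t) ^ (-(1:ℝ) / 2) * Real.exp (-(z - y) ^ 2 / (4 * t))) ∧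
    ∫ y : ℝ, (4 * Real.pi * t) ^ (-(1:ℝ) / 2) * Real.exp (-(z - y) ^ 2 / (4 * t)) = 1 := by
  have hpi := Real.pi_pos
  have e : ∀ y : ℝ, Real.exp (-(z - y) ^ 2 / (4 * t))
      = (fun u : ℝ => Real.exp (-(1 / (4 * t)) * u ^ 2)) (z - y) := by
    intro y
    simp only
    congr 1
    ring
  have hint : Integrable (fun u : ℝ => Real.exp (-(1 / (4 * t)) * u ^ 2)) :=
    integrable_exp_neg_mul_sq (by positivity)
  constructor
  · apply Integrable.const_mul
    simp_rw [e]
    exact hint.comp_sub_left z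
  · rw [integral_const_mul]
    simp_rw [e]
    rw [integral_sub_left_eq_self (fun u : ℝ => Real.exp (-(1 / (4 * t)) * u ^ 2)) volume z,
      integral_gaussian, Real.sqrt_eq_rpow]
    have h1 : Real.pi / (1 / (4 * t)) = 4 * Real.pi * t := by field_simp
    rw [h1, ← Real.rpow_add (by positivity)]
    norm_num

lemma hk_intg {d : ℕ} (t : ℝ) (ht : 0 < t) (x : Fin d → ℝ) :
    Integrable (fun y => hk t (x - y)) ∧ ∫ y, hk t (x - y) = 1 := by
  have e : (fun y : Fin d → ℝ => hk t (x - y)) = fun y =>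
      ∏ j, ((4 * Real.pi * t) ^ (-(1:ℝ) / 2) * Real.exp (-(x j - y j) ^ 2 / (4 * t))) := by
    funext y
    rw [hk_prod t ht]
    rfl
  constructor
  · rw [e]
    exact Integrable.fintype_prod (f := fun (j : Fin d) (y : ℝ) =>
      (4 * Real.pi * t) ^ (-(1:ℝ) / 2) * Real.exp (-(x j - y) ^ 2 / (4 * t)))
      (fun j => (hk_one t ht (x j)).1)
  · rw [e, integral_fintype_prod_volume_eq_prod (fun (j : Fin d) (y : ℝ) =>
      (4 * Real.pi * t) ^ (-(1:ℝ) / 2) * Real.exp (-(x j - y) ^ 2 / (4 * t)))]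
    apply Finset.prod_eq_one
    intro j _
    exact (hk_one t ht (x j)).2

lemma hk_cont {d : ℕ} (t : ℝ) : Continuous (hk (d := d) t) := by
  unfold hk
  have := en_cont (d := d)
  fun_prop

lemma hk_nonneg {d : ℕ} (t : ℝ) (ht : 0 < t) (x : Fin d → ℝ) : 0 ≤ hk t x := by
  have := Real.pi_pos
  unfold hk
  positivity

lemma hk_le {d : ℕ} (t : ℝ) (ht : 0 < t) (x : Fin d → ℝ) :
    hk t x ≤ (4 * Real.pi * t) ^ (-(d : ℝ) / 2) := by
  have hpi := Real.pi_pos
  unfold hk
  have h1 : Real.exp (-(en x) ^ 2 / (4 * t)) ≤ 1 := by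
    rw [Real.exp_le_one_iff]
    apply div_nonpos_of_nonpos_of_nonneg
    · nlinarith [sq_nonneg (en x)]
    · positivity
  have h2 : 0 < (4 * Real.pi * t) ^ (-(d : ℝ) / 2) := by positivity
  nlinarith

lemma besov_den {d : ℕ} (f : (Fin d → ℝ) → ℝ) (hf : Measurable f) (hi : Integrable f)
    (hb : ∀ x, |f x| ≤ ∏ i, bx 1 (x i)) : besov d (denJ f hf hi).toSignedMeasure ≤ 1 := by
  classical
  unfold besov
  refine iSup_le fun t => iSup_le fun ht => iSup_le fun x => ?_
  rw [← ENNReal.ofReal_one]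
  apply ENNReal.ofReal_le_ofReal
  rw [sub_self, zero_div, Real.rpow_zero, one_mul]
  have hc : Continuous (fun y : Fin d → ℝ => ((hk t (x - y) : ℝ) : ℂ)) :=
    Complex.continuous_ofReal.comp ((hk_cont t).comp (continuous_const.sub continuous_id))
  rw [sI_den f hf hi _ hc ((4 * Real.pi * t) ^ (-(d : ℝ) / 2)) (by
    intro y
    rw [Complex.norm_real, Real.norm_eq_abs, abs_of_nonneg (hk_nonneg t ht _)]
    exact hk_le t ht _)]
  obtain ⟨h1, h2⟩ := hk_intg t ht x
  rw [← h2]
  apply norm_integral_le_of_norm_le h1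
  refine Eventually.of_forall fun y => ?_
  rw [norm_mul, Complex.norm_real, Complex.norm_real, Real.norm_eq_abs, Real.norm_eq_abs,
    abs_of_nonneg (hk_nonneg t ht _)]
  have h3 : |f y| ≤ 1 := by
    refine (hb y).trans ?_
    rw [cube_ind, Set.indicator_apply]
    split_ifs <;> norm_num
  have h4 := hk_nonneg t ht (x - y)
  nlinarith

lemma ft_den {d : ℕ} (f : (Fin d → ℝ) → ℝ) (hf : Measurable f) (hi : Integrable f)
    (ξ : Fin d → ℝ) : ft (denJ f hf hi).toSignedMeasure ξ = fh f ξ := by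
  rw [ft_eq, sI_den f hf hi _ (ech_cont1 ξ) 1 (fun x => (ech_norm x ξ).le)]
  rfl

lemma caseB_N (m : ℕ) (α q : ℝ) (hα : 0 < α) (hq : 1 ≤ q) (N : ℕ) (hN : 0 < N) :
    ∃ s : SignedMeasure (Fin (m + 1) → ℝ), tv s + besov ((m + 1 : ℕ) : ℝ) s ≤ ENNReal.ofReal 2 ∧
      ENNReal.ofReal (N * ((cst (m + 1) α ((m + 1 : ℕ) : ℝ) (epsB m N)) ^ q / 2)) ^ (1 / q)
        ≤ lor (2 * ((m + 1 : ℕ) : ℝ) / (2 * α + ((m + 1 : ℕ) : ℝ))) q (riesz α s) := by
  obtain ⟨f, hf, hb, hi, R, hR, h2, hset⟩ := genB m N hN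
  have hN0 : (0:ℝ) < N := by exact_mod_cast hN
  refine ⟨(denJ f hf hi).toSignedMeasure, ?_, ?_⟩
  · have : ENNReal.ofReal 2 = 1 + 1 := by
      rw [← ENNReal.ofReal_one, ← ENNReal.ofReal_add (by norm_num) (by norm_num)]
      norm_num
    rw [this]
    exact add_le_add (tv_den f hf hi hb) (besov_den f hf hi hb)
  · apply riesz_lower (by omega) α _ q hα (by positivity) hq _ N R (epsB m N) _ hR h2
    · intro i hi2
      have h3 := hset i hi2
      simp only [ft_den]
      have e : (-((m : ℝ) + 1) / 2) = -((m + 1 : ℕ) : ℝ) / 2 := by push_cast; ring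
      rw [e] at h3
      exact h3
    · unfold epsB
      apply Real.sqrt_pos.mpr
      positivity

theorem caseB (m : ℕ) (α q : ℝ) (hα : 0 < α) (hq : 1 ≤ q) (hq2 : q < 2) :
    ∃ Φ : ℕ → SignedMeasure (Fin (m + 1) → ℝ),
      (∀ N, tv (Φ N) + besov ((m + 1 : ℕ) : ℝ) (Φ N) ≤ ENNReal.ofReal 2) ∧
      Tendsto (fun N => lor (2 * ((m + 1 : ℕ) : ℝ) / (2 * α + ((m + 1 : ℕ) : ℝ))) q
        (riesz α (Φ N))) atTop (𝓝 ⊤) := by
  choose Φ h1 h2 using fun N : ℕ => caseB_N m α q hα hq (N + 1) (Nat.succ_pos N)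
  refine ⟨Φ, h1, ?_⟩
  refine tendsto_nhds_top_mono ?_ (Eventually.of_forall h2)
  set c := cst (m + 1) α ((m + 1 : ℕ) : ℝ) (Real.sqrt ((1 / 128) ^ (m + 1) / 8)) with hc
  have hc0 : 0 < c := cst_pos _ (by omega) _ _ _ (Real.sqrt_pos.mpr (by positivity))
  have e : ∀ N : ℕ, ((N + 1 : ℕ) : ℝ) * ((cst (m + 1) α ((m + 1 : ℕ) : ℝ) (epsB m (N + 1))) ^ q / 2)
      = c ^ q / 2 * ((N + 1 : ℕ) : ℝ) ^ (1 - q / 2) := by
    intro N
    have hN0 : (0:ℝ) < ((N + 1 : ℕ) : ℝ) := by positivity
    set M : ℝ := ((N + 1 : ℕ) : ℝ) with hM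
    have e1 : epsB m (N + 1) = Real.sqrt ((1 / 128) ^ (m + 1) / 8) * M ^ (-(1:ℝ) / 2) := by
      unfold epsB
      rw [← hM]
      have e2 : ((1:ℝ) / 128) ^ (m + 1) / (8 * M) = ((1 / 128) ^ (m + 1) / 8) * M⁻¹ := by
        field_simp
      rw [e2, Real.sqrt_mul (by positivity), Real.sqrt_eq_rpow (M⁻¹), Real.inv_rpow hN0.le,
        ← Real.rpow_neg hN0.le]
      congr 2
      ring
    have e3 : cst (m + 1) α ((m + 1 : ℕ) : ℝ) (epsB m (N + 1)) = c * M ^ (-(1:ℝ) / 2) := by
      rw [e1, hc]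
      unfold cst
      ring
    rw [e3, Real.mul_rpow hc0.le (by positivity), ← Real.rpow_mul hN0.le]
    have e4 : M * M ^ (-(1:ℝ) / 2 * q) = M ^ (1 - q / 2) := by
      nth_rewrite 1 [← Real.rpow_one M]
      rw [← Real.rpow_add hN0]
      congr 1
      ring
    rw [← e4]
    ring
  simp_rw [e]
  have h3 : Tendsto (fun N : ℕ => c ^ q / 2 * ((N + 1 : ℕ) : ℝ) ^ (1 - q / 2)) atTop atTop := by
    apply Tendsto.const_mul_atTop (by positivity)
    apply (tendsto_rpow_atTop (by linarith)).comp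
    exact tendsto_natCast_atTop_atTop.comp (tendsto_add_atTop_nat 1)
  have h4 := (ENNReal.continuous_rpow_const (y := 1 / q)).tendsto ⊤
  rw [ENNReal.top_rpow_of_pos (by positivity)] at h4
  exact h4.comp (ENNReal.tendsto_ofReal_atTop.comp h3)

end

end Pool.Agent.V11282.LZ
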