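import Mathlib
import Pool.Agent.V11282.LZ.Plan

/-!
The upper bound in the case `β = d`, `q ≥ 2`.
-/

set_option autoImplicit false

open MeasureTheory Set Finset Filter Topology
open scoped ENNReal

namespace Pool.Agent.V11282.LZ

noncomputable section

lemma rearr_anti {d : ℕ} (g : (Fin d → ℝ) → ℂ) : Antitone (rearr g) := by
  intro r r' h
  unfold rearr
  apply sInf_le_sInf
  intro t ht
  exact ht.trans (ENNReal.ofReal_le_ofReal h)

lemma rearr_le {d : ℕ} (g : (Fin d → ℝ) → ℂ) (r : ℝ) (t : ℝ≥0∞)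
    (h : volume {x | t < ‖g x‖ₑ} ≤ ENNReal.ofReal r) : rearr g r ≤ t := sInf_le h

lemma rearr_cheb {d : ℕ} (f : (Fin d → ℝ) → ℂ) (hf : Measurable f) (C : ℝ) (hC : 0 < C)
    (h : ∫⁻ ξ, ENNReal.ofReal (‖f ξ‖ ^ 2) ≤ ENNReal.ofReal (C ^ 2)) (r : ℝ) (hr : 0 < r) :
    rearr f r ≤ ENNReal.ofReal (C / Real.sqrt r) := by
  have hsr : 0 < Real.sqrt r := Real.sqrt_pos.mpr hr
  apply rearr_le
  have h1 : {x | ENNReal.ofReal (C / Real.sqrt r) < ‖f x‖ₑ}
      ⊆ {x | ENNReal.ofReal (C ^ 2 / r) ≤ ENNReal.ofReal (‖f x‖ ^ 2)} := by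
    intro x hx
    simp only [Set.mem_setOf_eq] at hx ⊢
    rw [← ofReal_norm_eq_enorm] at hx
    have h2 := (ENNReal.ofReal_lt_ofReal_iff_of_nonneg (by positivity)).mp hx
    apply ENNReal.ofReal_le_ofReal
    have h3 : (C / Real.sqrt r) ^ 2 = C ^ 2 / r := by
      rw [div_pow, Real.sq_sqrt hr.le]
    rw [← h3]
    exact pow_le_pow_left₀ (by positivity) h2.le 2
  have hm : Measurable (fun x => ENNReal.ofReal (‖f x‖ ^ 2)) := (hf.norm.pow_const 2).ennreal_ofReal
  have hpos : 0 < C ^ 2 / r := by positivity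
  calc volume {x | ENNReal.ofReal (C / Real.sqrt r) < ‖f x‖ₑ}
      ≤ volume {x | ENNReal.ofReal (C ^ 2 / r) ≤ ENNReal.ofReal (‖f x‖ ^ 2)} := measure_mono h1
    _ ≤ (∫⁻ ξ, ENNReal.ofReal (‖f ξ‖ ^ 2)) / ENNReal.ofReal (C ^ 2 / r) :=
        meas_ge_le_lintegral_div hm.aemeasurable (by simpa using hpos) ENNReal.ofReal_ne_top
    _ ≤ ENNReal.ofReal (C ^ 2) / ENNReal.ofReal (C ^ 2 / r) := ENNReal.div_le_div_right h _
    _ = ENNReal.ofReal r := by
        rw [← ENNReal.ofReal_div_of_pos hpos]
        congr 1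
        field_simp

lemma rearr_L2 {d : ℕ} (f : (Fin d → ℝ) → ℂ) (hf : Measurable f)
    (hfin : ∀ r : ℝ, 0 < r → rearr f r ≠ ⊤) :
    ∫⁻ r in Ioi (0:ℝ), (rearr f (r / 2)) ^ (2:ℝ) ≤ 2 * ∫⁻ ξ, ENNReal.ofReal (‖f ξ‖ ^ 2) := by
  have hmeas : Measurable (fun r : ℝ => (rearr f (r / 2)).toReal) :=
    ((rearr_anti f).measurable.comp (measurable_id.div_const 2)).ennreal_toReal
  have e1 : ∫⁻ r in Ioi (0:ℝ), (rearr f (r / 2)) ^ (2:ℝ)
      = ∫⁻ r in Ioi (0:ℝ), ENNReal.ofReal ((rearr f (r / 2)).toReal ^ (2:ℝ)) := by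
    apply setLIntegral_congr_fun measurableSet_Ioi
    intro r hr
    have hr0 : (0:ℝ) < r := hr
    have h1 := hfin (r / 2) (by positivity)
    simp only
    rw [← ENNReal.ofReal_rpow_of_nonneg ENNReal.toReal_nonneg (by norm_num),
      ENNReal.ofReal_toReal h1]
  have e2 : ∫⁻ ξ, ENNReal.ofReal (‖f ξ‖ ^ 2) = ∫⁻ ξ, ENNReal.ofReal (‖f ξ‖ ^ (2:ℝ)) := by
    apply lintegral_congr
    intro ξ
    rw [Real.rpow_two]
  rw [e1, e2, lintegral_rpow_eq_lintegral_meas_lt_mul _ (Eventually.of_forall fun _ =>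
    ENNReal.toReal_nonneg) hmeas.aemeasurable (by norm_num),
    lintegral_rpow_eq_lintegral_meas_lt_mul _ (Eventually.of_forall fun _ => norm_nonneg _)
    hf.norm.aemeasurable (by norm_num)]
  have key : ∀ t ∈ Ioi (0:ℝ), (volume.restrict (Ioi (0:ℝ))) {r | t < (rearr f (r / 2)).toReal}
      ≤ 2 * volume {ξ | t < ‖f ξ‖} := by
    intro t ht
    have ht0 : (0:ℝ) < t := ht
    rw [Measure.restrict_apply (measurableSet_lt measurable_const hmeas)]
    set L := volume {ξ | t < ‖f ξ‖} with hL
    have h1 : ∀ r : ℝ, 0 < r → t < (rearr f (r / 2)).toReal → ENNReal.ofReal (r / 2) < L := by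
      intro r hr h2
      by_contra h3
      push Not at h3
      have h4 : {x | ENNReal.ofReal t < ‖f x‖ₑ} = {ξ | t < ‖f ξ‖} := by
        ext x
        simp only [Set.mem_setOf_eq]
        rw [← ofReal_norm_eq_enorm, ENNReal.ofReal_lt_ofReal_iff_of_nonneg ht0.le]
      have h5 : rearr f (r / 2) ≤ ENNReal.ofReal t := by
        apply rearr_le
        rw [h4]
        exact h3
      have h6 := ENNReal.toReal_le_of_le_ofReal ht0.le h5
      linarith
    rcases eq_or_ne L ⊤ with h | h
    · rw [h]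
      simp
    · have h2 : {r | t < (rearr f (r / 2)).toReal} ∩ Ioi (0:ℝ) ⊆ Ioo 0 (2 * L.toReal) := by
        rintro r ⟨h3, h4⟩
        have h5 : (0:ℝ) < r := h4
        have h6 := h1 r h5 h3
        rw [ENNReal.ofReal_lt_iff_lt_toReal (by positivity) h] at h6
        exact ⟨h5, by linarith⟩
      refine (measure_mono h2).trans ?_
      rw [Real.volume_Ioo, sub_zero, ENNReal.ofReal_mul (by norm_num), ENNReal.ofReal_toReal h]
      simp
  calc ENNReal.ofReal 2 * ∫⁻ t in Ioi (0:ℝ), (volume.restrict (Ioi (0:ℝ)))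
        {a | t < (rearr f (a / 2)).toReal} * ENNReal.ofReal (t ^ ((2:ℝ) - 1))
      ≤ ENNReal.ofReal 2 * ∫⁻ t in Ioi (0:ℝ), 2 * (volume {ξ | t < ‖f ξ‖}
        * ENNReal.ofReal (t ^ ((2:ℝ) - 1))) := by
        apply mul_le_mul' le_rfl
        apply setLIntegral_mono' measurableSet_Ioi
        intro t ht
        rw [← mul_assoc]
        gcongr
        exact key t ht
    _ = 2 * (ENNReal.ofReal 2 * ∫⁻ t in Ioi (0:ℝ), (volume {ξ | t < ‖f ξ‖}
        * ENNReal.ofReal (t ^ ((2:ℝ) - 1)))) := by
        rw [lintegral_const_mul' _ _ (by simp)]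
        ring

lemma rearr_prod {d : ℕ} (hd : 1 ≤ d) (α : ℝ) (hα : 0 < α) (s : SignedMeasure (Fin d → ℝ))
    (r : ℝ) (hr : 0 < r) :
    rearr (riesz α s) r ≤ ENNReal.ofReal ((Real.pi * (r / 2) ^ (1 / (d:ℝ))) ^ (-α))
      * rearr (ft s) (r / 2) := by
  have hdr : (0:ℝ) < d := by exact_mod_cast hd
  have hpi := Real.pi_pos
  set w : ℝ := (Real.pi * (r / 2) ^ (1 / (d:ℝ))) ^ (-α) with hw
  have hw0 : 0 < w := by positivity
  have key : ∀ t ∈ {t : ℝ≥0∞ | volume {x | t < ‖ft s x‖ₑ} ≤ ENNReal.ofReal (r / 2)},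
      rearr (riesz α s) r ≤ t * ENNReal.ofReal w := by
    intro t ht
    apply rearr_le
    set ρ : ℝ := (r / 2) ^ (1 / (d:ℝ)) / 2 with hρ
    have hρ0 : 0 < ρ := by positivity
    have hsub : {x | t * ENNReal.ofReal w < ‖riesz α s x‖ₑ}
        ⊆ (Set.pi univ fun _ : Fin d => Icc (-ρ) ρ) ∪ {x | t < ‖ft s x‖ₑ} := by
      intro x hx
      simp only [Set.mem_setOf_eq] at hx
      by_contra hcon
      simp only [Set.mem_union, Set.mem_setOf_eq, not_or, not_lt] at hcon
      obtain ⟨h1, h2⟩ := hcon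
      have h3 : ρ < en x := by
        simp only [Set.mem_pi, Set.mem_univ, forall_const, not_forall] at h1
        obtain ⟨j, hj⟩ := h1
        have h4 : ρ < |x j| := by
          by_contra h5
          push Not at h5
          exact hj (abs_le.mp h5)
        have h6 : |x j| ≤ en x := by
          unfold en
          rw [← Real.sqrt_sq_eq_abs]
          apply Real.sqrt_le_sqrt
          exact Finset.single_le_sum (f := fun j => x j ^ 2) (fun _ _ => sq_nonneg _)
            (Finset.mem_univ j)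
        linarith
      have h4 : (2 * Real.pi * en x) ^ (-α) ≤ w := by
        rw [hw]
        apply Real.rpow_le_rpow_of_nonpos (by positivity) _ (by linarith)
        have : Real.pi * (r / 2) ^ (1 / (d:ℝ)) = 2 * Real.pi * ρ := by rw [hρ]; ring
        rw [this]
        gcongr
      have h5 : ‖riesz α s x‖ₑ ≤ t * ENNReal.ofReal w := by
        unfold riesz
        rw [enorm_mul, mul_comm]
        gcongr
        rw [← ofReal_norm_eq_enorm, Complex.norm_real, Real.norm_eq_abs]
        apply ENNReal.ofReal_le_ofReal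
        have hen : 0 < en x := hρ0.trans h3
        rw [abs_of_nonneg (by positivity)]
        exact h4
      exact absurd hx (not_lt.mpr h5)
    have hvol : volume (Set.pi univ fun _ : Fin d => Icc (-ρ) ρ) = ENNReal.ofReal (r / 2) := by
      rw [volume_pi_pi]
      simp only [Real.volume_Icc, sub_neg_eq_add, Finset.prod_const, Finset.card_univ,
        Fintype.card_fin]
      rw [← ENNReal.ofReal_pow (by positivity)]
      congr 1
      have : ρ + ρ = (r / 2) ^ (1 / (d:ℝ)) := by rw [hρ]; ring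
      rw [this, ← Real.rpow_natCast, ← Real.rpow_mul (by positivity), one_div,
        inv_mul_cancel₀ hdr.ne', Real.rpow_one]
    calc volume {x | t * ENNReal.ofReal w < ‖riesz α s x‖ₑ}
        ≤ volume (Set.pi univ fun _ : Fin d => Icc (-ρ) ρ) + volume {x | t < ‖ft s x‖ₑ} :=
          (measure_mono hsub).trans (measure_union_le _ _)
      _ ≤ ENNReal.ofReal (r / 2) + ENNReal.ofReal (r / 2) := by
          rw [hvol]
          gcongr
          exact ht
      _ = ENNReal.ofReal r := by
          rw [← ENNReal.ofReal_add (by positivity) (by positivity)]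
          congr 1
          ring
  have hwe : ENNReal.ofReal w ≠ 0 := by simpa using hw0
  have h1 : rearr (riesz α s) r / ENNReal.ofReal w ≤ rearr (ft s) (r / 2) := by
    conv_rhs => unfold rearr
    apply le_sInf
    intro t ht
    rw [ENNReal.div_le_iff_le_mul (Or.inl hwe) (Or.inl ENNReal.ofReal_ne_top)]
    exact key t ht
  rw [ENNReal.div_le_iff_le_mul (Or.inl hwe) (Or.inl ENNReal.ofReal_ne_top)] at h1
  rw [mul_comm]
  exact h1

theorem caseC {d : ℕ} (hd : 1 ≤ d) (α q C : ℝ) (hα : 0 < α) (hq : 2 ≤ q) (hC : 0 < C) :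
    ∃ K : ℝ≥0∞, K < ⊤ ∧ ∀ s : SignedMeasure (Fin d → ℝ), tv s + besov d s ≤ ENNReal.ofReal C →
      lor (2 * d / (2 * α + d)) q (riesz α s) ≤ K := by
  have hdr : (0:ℝ) < d := by exact_mod_cast hd
  have hpi := Real.pi_pos
  set c : ℝ := (Real.pi * (1 / 2) ^ (1 / (d:ℝ))) ^ (-α) with hc
  have hc0 : 0 < c := by positivity
  set K0 : ℝ≥0∞ := (ENNReal.ofReal c) ^ q * (ENNReal.ofReal (Real.sqrt 2 * C)) ^ (q - 2) with hK0
  have hK0t : K0 ≠ ⊤ := by
    rw [hK0]
    apply ENNReal.mul_ne_top
    · exact ENNReal.rpow_ne_top_of_nonneg (by linarith) ENNReal.ofReal_ne_top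
    · exact ENNReal.rpow_ne_top_of_nonneg (by linarith) ENNReal.ofReal_ne_top
  refine ⟨(K0 * (2 * ENNReal.ofReal (C ^ 2))) ^ (1 / q), ?_, ?_⟩
  · apply ENNReal.rpow_lt_top_of_nonneg (by positivity)
    apply ENNReal.mul_ne_top hK0t
    exact ENNReal.mul_ne_top (by simp) ENNReal.ofReal_ne_top
  · intro s hs
    have hL2 := planch s C hC.le hs
    have hfm : Measurable (ft s) := (ft_cont s).measurable
    have hcheb := rearr_cheb (ft s) hfm C hC hL2
    have hfin : ∀ r : ℝ, 0 < r → rearr (ft s) r ≠ ⊤ := fun r hr =>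
      ne_top_of_le_ne_top ENNReal.ofReal_ne_top (hcheb r hr)
    unfold lor
    apply ENNReal.rpow_le_rpow _ (by positivity)
    calc ∫⁻ r in Ioi (0:ℝ), (ENNReal.ofReal (r ^ (1 / (2 * (d:ℝ) / (2 * α + d))))
          * rearr (riesz α s) r) ^ q / ENNReal.ofReal r
        ≤ ∫⁻ r in Ioi (0:ℝ), K0 * (rearr (ft s) (r / 2)) ^ (2:ℝ) := by
          apply setLIntegral_mono' measurableSet_Ioi
          intro r hr
          have hr0 : (0:ℝ) < r := hr
          set X := rearr (ft s) (r / 2) with hX
          set H := ENNReal.ofReal (Real.sqrt r) * X with hH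
          have hH1 : H ≤ ENNReal.ofReal (Real.sqrt 2 * C) := by
            calc H ≤ ENNReal.ofReal (Real.sqrt r) * ENNReal.ofReal (C / Real.sqrt (r / 2)) := by
                  rw [hH]
                  gcongr
                  exact hcheb (r / 2) (by positivity)
              _ = ENNReal.ofReal (Real.sqrt 2 * C) := by
                  rw [← ENNReal.ofReal_mul (by positivity)]
                  congr 1
                  rw [Real.sqrt_div hr0.le]
                  have : 0 < Real.sqrt r := Real.sqrt_pos.mpr hr0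
                  have : 0 < Real.sqrt 2 := by positivity
                  field_simp
          have h1 : ENNReal.ofReal (r ^ (1 / (2 * (d:ℝ) / (2 * α + d)))) * rearr (riesz α s) r
              ≤ ENNReal.ofReal c * H := by
            calc _ ≤ ENNReal.ofReal (r ^ (1 / (2 * (d:ℝ) / (2 * α + d)))) *
                  (ENNReal.ofReal ((Real.pi * (r / 2) ^ (1 / (d:ℝ))) ^ (-α)) * X) := by
                  gcongr
                  exact rearr_prod hd α hα s r hr0
              _ = ENNReal.ofReal c * H := by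
                  rw [hH, ← mul_assoc, ← mul_assoc, ← ENNReal.ofReal_mul (by positivity),
                    ← ENNReal.ofReal_mul (by positivity)]
                  congr 2
                  have e1 : r / 2 = r * (1 / 2) := by ring
                  have e2 : 1 / (2 * (d:ℝ) / (2 * α + d)) = 1 / 2 + α / d := by
                    field_simp
                    ring
                  have e3 : (Real.pi * (r / 2) ^ (1 / (d:ℝ))) ^ (-α) = c * r ^ (-(α / d)) := by
                    rw [e1, Real.mul_rpow hr0.le (by norm_num), hc]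
                    have : Real.pi * (r ^ (1 / (d:ℝ)) * (1 / 2) ^ (1 / (d:ℝ)))
                        = (Real.pi * (1 / 2) ^ (1 / (d:ℝ))) * r ^ (1 / (d:ℝ)) := by ring
                    rw [this, Real.mul_rpow (by positivity) (by positivity),
                      ← Real.rpow_mul hr0.le]
                    congr 2
                    ring
                  rw [e2, e3, Real.rpow_add hr0, Real.sqrt_eq_rpow]
                  have e4 : r ^ (α / d) * r ^ (-(α / d)) = 1 := by
                    rw [← Real.rpow_add hr0, add_neg_cancel, Real.rpow_zero]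
                  calc r ^ ((1:ℝ) / 2) * r ^ (α / d) * (c * r ^ (-(α / d)))
                      = c * r ^ ((1:ℝ) / 2) * (r ^ (α / d) * r ^ (-(α / d))) := by ring
                    _ = c * r ^ ((1:ℝ) / 2) := by rw [e4, mul_one]
          have hre : ENNReal.ofReal r ≠ 0 := by simpa using hr0
          rw [ENNReal.div_le_iff_le_mul (Or.inl hre) (Or.inl ENNReal.ofReal_ne_top)]
          calc (ENNReal.ofReal (r ^ (1 / (2 * (d:ℝ) / (2 * α + d)))) * rearr (riesz α s) r) ^ q
              ≤ (ENNReal.ofReal c * H) ^ q := ENNReal.rpow_le_rpow h1 (by linarith)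
            _ = (ENNReal.ofReal c) ^ q * (H ^ (q - 2) * H ^ (2:ℝ)) := by
                rw [ENNReal.mul_rpow_of_nonneg _ _ (by linarith),
                  ← ENNReal.rpow_add_of_nonneg _ _ (by linarith) (by norm_num)]
                congr 2
                ring
            _ ≤ (ENNReal.ofReal c) ^ q * ((ENNReal.ofReal (Real.sqrt 2 * C)) ^ (q - 2)
                  * H ^ (2:ℝ)) := by
                gcongr
            _ = K0 * X ^ (2:ℝ) * ENNReal.ofReal r := by
                rw [hK0, hH, ENNReal.mul_rpow_of_nonneg _ _ (by norm_num),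
                  ENNReal.ofReal_rpow_of_nonneg (Real.sqrt_nonneg r) (by norm_num), Real.rpow_two,
                  Real.sq_sqrt hr0.le]
                ring
      _ = K0 * ∫⁻ r in Ioi (0:ℝ), (rearr (ft s) (r / 2)) ^ (2:ℝ) := by
          rw [lintegral_const_mul' _ _ hK0t]
      _ ≤ K0 * (2 * ENNReal.ofReal (C ^ 2)) := by
          gcongr
          refine (rearr_L2 (ft s) hfm hfin).trans ?_
          gcongr

end

end Pool.Agent.V11282.LZ
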